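import Mathlib

open scoped Classical
open Finset

namespace Pool.Agent.helper1.MST

variable {E : Type} [Fintype E]

/-- probability that exactly the bits in `F` are flipped -/
noncomputable def fP (F : Finset E) : ℝ :=
  (1 / (Fintype.card E : ℝ)) ^ F.card * (1 - 1 / (Fintype.card E : ℝ)) ^ (Fintype.card E - F.card)

variable (E) in
lemma one_div_m_nonneg : (0:ℝ) ≤ 1 / ((Fintype.card E) : ℝ) := by positivity

variable (E) in
lemma one_sub_nonneg : (0:ℝ) ≤ 1 - 1 / ((Fintype.card E) : ℝ) := by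
  rcases Nat.eq_zero_or_pos (Fintype.card E) with h | h
  · simp [h]
  · have : (1:ℝ) ≤ (Fintype.card E) := by exact_mod_cast h
    have : 1 / ((Fintype.card E) : ℝ) ≤ 1 := by
      rw [div_le_one (by linarith)]; exact this
    linarith

lemma fP_nonneg (F : Finset E) : 0 ≤ fP F := by
  unfold fP
  exact mul_nonneg (pow_nonneg (one_div_m_nonneg E) _) (pow_nonneg (one_sub_nonneg E) _)

lemma sum_fP : ∑ F : Finset E, fP F = 1 := by
  unfold fP
  rw [Fintype.sum_pow_mul_eq_add_pow]
  simp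

/-- probability that all the bits of `F₀` are flipped -/
lemma sum_fP_superset (F₀ : Finset E) :
    ∑ F : Finset E, fP F * (if F₀ ⊆ F then (1:ℝ) else 0) = (1 / ((Fintype.card E) : ℝ)) ^ F₀.card := by
  have h1 : ∑ F : Finset E, fP F * (if F₀ ⊆ F then (1:ℝ) else 0)
      = ∑ F ∈ univ.filter (fun F : Finset E => F₀ ⊆ F), fP F := by
    rw [sum_filter]
    refine sum_congr rfl fun F _ => ?_
    split_ifs <;> simp
  rw [h1]
  have h2 : ∑ F ∈ univ.filter (fun F : Finset E => F₀ ⊆ F), fP F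
      = ∑ G ∈ (F₀ᶜ).powerset, (1 / ((Fintype.card E) : ℝ)) ^ F₀.card *
          ((1 / ((Fintype.card E) : ℝ)) ^ G.card * (1 - 1 / ((Fintype.card E) : ℝ)) ^ ((F₀ᶜ).card - G.card)) := by
    refine sum_nbij' (fun F => F \ F₀) (fun G => F₀ ∪ G) ?_ ?_ ?_ ?_ ?_
    · intro F hF
      simp only [mem_powerset]
      intro a ha
      simp only [mem_sdiff] at ha
      simpa using ha.2
    · intro G hG
      simp
    · intro F hF
      simp only [mem_filter, mem_univ, true_and] at hF
      exact union_sdiff_of_subset hF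
    · intro G hG
      simp only [mem_powerset] at hG
      have : Disjoint F₀ G := by
        rw [disjoint_left]
        intro a ha hG'
        have := hG hG'
        simp at this
        exact this ha
      rw [union_sdiff_left]
      exact sdiff_eq_self_of_disjoint this.symm
    · intro F hF
      simp only [mem_filter, mem_univ, true_and] at hF
      have hc : F.card = F₀.card + (F \ F₀).card := by
        rw [card_sdiff_of_subset hF]
        have := card_le_card hF
        omega
      have hc2 : (F₀ᶜ).card = (Fintype.card E) - F₀.card := by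
        rw [card_compl]
      unfold fP
      rw [hc, hc2, pow_add, Nat.sub_add_eq, mul_assoc]
  rw [h2, ← mul_sum, sum_pow_mul_eq_add_pow]
  simp

/-- a convenient form: the probability that the bits of a set of exactly `r` elements all flip -/
lemma sum_fP_superset' (F₀ : Finset E) (r : ℕ) (hr : F₀.card = r) :
    ∑ F : Finset E, fP F * (if F₀ ⊆ F then (1:ℝ) else 0) = (1 / ((Fintype.card E) : ℝ)) ^ r := by
  rw [sum_fP_superset, hr]

lemma fP_ge (F : Finset E) (hF : 1 ≤ F.card) (hm : 2 ≤ (Fintype.card E)) :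
    (1 / ((Fintype.card E) : ℝ)) ^ F.card / 3 ≤ fP F := by
  unfold fP
  have h0 := one_sub_nonneg E
  have h1 : (1 - 1 / ((Fintype.card E) : ℝ)) ≤ 1 := by
    have := one_div_m_nonneg E; linarith
  have h2 : (1 - 1 / ((Fintype.card E) : ℝ)) ^ ((Fintype.card E) - 1) ≤ (1 - 1 / ((Fintype.card E) : ℝ)) ^ ((Fintype.card E) - F.card) :=
    pow_le_pow_of_le_one h0 h1 (by omega)
  have hm' : (2:ℝ) ≤ (Fintype.card E) := by exact_mod_cast hm
  have h3 : (1:ℝ) / 3 ≤ (1 - 1 / ((Fintype.card E) : ℝ)) ^ ((Fintype.card E) - 1) := by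
    have hx : (1 - 1 / ((Fintype.card E) : ℝ)) = (1 + 1 / (((Fintype.card E) : ℝ) - 1))⁻¹ := by
      have : ((Fintype.card E) : ℝ) - 1 ≠ 0 := by linarith
      have h' : ((Fintype.card E) : ℝ) ≠ 0 := by linarith
      have h'' : (1 + 1 / (((Fintype.card E) : ℝ) - 1)) = ((Fintype.card E) : ℝ) / (((Fintype.card E) : ℝ) - 1) := by
        field_simp; ring
      rw [h'', inv_div]
      field_simp
    rw [hx, inv_pow]
    have h4 : (1 + 1 / (((Fintype.card E) : ℝ) - 1)) ^ ((Fintype.card E) - 1) ≤ Real.exp 1 := by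
      have h5 : (1 + 1 / (((Fintype.card E) : ℝ) - 1)) ≤ Real.exp (1 / (((Fintype.card E) : ℝ) - 1)) := by
        have := Real.add_one_le_exp (1 / (((Fintype.card E) : ℝ) - 1))
        linarith
      have h6 : (0:ℝ) ≤ 1 + 1 / (((Fintype.card E) : ℝ) - 1) := by
        have : (0:ℝ) < ((Fintype.card E) : ℝ) - 1 := by linarith
        positivity
      calc (1 + 1 / (((Fintype.card E) : ℝ) - 1)) ^ ((Fintype.card E) - 1) ≤ (Real.exp (1 / (((Fintype.card E) : ℝ) - 1))) ^ ((Fintype.card E) - 1) :=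
            pow_le_pow_left₀ h6 h5 _
        _ = Real.exp 1 := by
            rw [← Real.exp_nat_mul]
            congr 1
            have h7 : (((Fintype.card E) - 1 : ℕ) : ℝ) = ((Fintype.card E) : ℝ) - 1 := by
              rw [Nat.cast_sub (by omega)]; simp
            rw [h7]
            have : ((Fintype.card E) : ℝ) - 1 ≠ 0 := by linarith
            field_simp
    have h8 : Real.exp 1 < 3 := by
      have := Real.exp_one_lt_d9; linarith
    have h9 : (0:ℝ) < (1 + 1 / (((Fintype.card E) : ℝ) - 1)) ^ ((Fintype.card E) - 1) := by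
      have : (0:ℝ) < ((Fintype.card E) : ℝ) - 1 := by linarith
      positivity
    rw [one_div]
    exact inv_anti₀ h9 (by linarith)
  have h4 : (1:ℝ) / 3 ≤ (1 - 1 / ((Fintype.card E) : ℝ)) ^ ((Fintype.card E) - F.card) := h3.trans h2
  have h5 : 0 ≤ (1 / ((Fintype.card E) : ℝ)) ^ F.card := pow_nonneg (one_div_m_nonneg E) _
  calc (1 / ((Fintype.card E) : ℝ)) ^ F.card / 3 = (1 / ((Fintype.card E) : ℝ)) ^ F.card * (1/3) := by ring
    _ ≤ _ := mul_le_mul_of_nonneg_left h4 h5

/-- probability that the flip set satisfies `A` -/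
noncomputable def Pr (A : Finset E → Prop) : ℝ :=
  ∑ F : Finset E, fP F * (if A F then (1:ℝ) else 0)

lemma Pr_nonneg (A : Finset E → Prop) : 0 ≤ Pr A := by
  unfold Pr
  refine sum_nonneg fun F _ => mul_nonneg (fP_nonneg F) ?_
  split_ifs <;> norm_num

lemma Pr_le (A : Finset E → Prop) (𝓖 : Finset (Finset E)) (r : ℕ)
    (hcard : ∀ G ∈ 𝓖, G.card = r) (h : ∀ F, A F → ∃ G ∈ 𝓖, G ⊆ F) :
    Pr A ≤ 𝓖.card * (1 / (Fintype.card E : ℝ)) ^ r := by
  have h1 : ∀ F : Finset E, (if A F then (1:ℝ) else 0) ≤ ∑ G ∈ 𝓖, (if G ⊆ F then (1:ℝ) else 0) := by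
    intro F
    split_ifs with hA
    · obtain ⟨G, hG, hGF⟩ := h F hA
      have h2 : (if G ⊆ F then (1:ℝ) else 0) ≤ ∑ G ∈ 𝓖, (if G ⊆ F then (1:ℝ) else 0) :=
        single_le_sum (f := fun G : Finset E => (if G ⊆ F then (1:ℝ) else 0))
          (fun G _ => by split_ifs <;> norm_num) hG
      rw [if_pos hGF] at h2
      exact h2
    · exact sum_nonneg fun G _ => by split_ifs <;> norm_num
  calc Pr A ≤ ∑ F : Finset E, fP F * ∑ G ∈ 𝓖, (if G ⊆ F then (1:ℝ) else 0) := by
        unfold Pr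
        exact sum_le_sum fun F _ => mul_le_mul_of_nonneg_left (h1 F) (fP_nonneg F)
    _ = ∑ G ∈ 𝓖, ∑ F : Finset E, fP F * (if G ⊆ F then (1:ℝ) else 0) := by
        simp only [mul_sum]
        rw [sum_comm]
    _ = ∑ G ∈ 𝓖, (1 / (Fintype.card E : ℝ)) ^ r := by
        refine sum_congr rfl fun G hG => ?_
        exact sum_fP_superset' G r (hcard G hG)
    _ = 𝓖.card * (1 / (Fintype.card E : ℝ)) ^ r := by
        rw [sum_const, nsmul_eq_mul]

lemma Pr_mono (A B : Finset E → Prop) (h : ∀ F, A F → B F) : Pr A ≤ Pr B := by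
  unfold Pr
  refine sum_le_sum fun F _ => mul_le_mul_of_nonneg_left ?_ (fP_nonneg F)
  by_cases hA : A F
  · rw [if_pos hA, if_pos (h F hA)]
  · rw [if_neg hA]; split_ifs <;> norm_num

lemma Pr_or_le (A B : Finset E → Prop) : Pr (fun F => A F ∨ B F) ≤ Pr A + Pr B := by
  unfold Pr
  rw [← sum_add_distrib]
  refine sum_le_sum fun F _ => ?_
  rw [← mul_add]
  refine mul_le_mul_of_nonneg_left ?_ (fP_nonneg F)
  by_cases hA : A F
  · by_cases hB : B F
    · simp [hA, hB]
    · simp [hA, hB]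
  · by_cases hB : B F
    · simp [hA, hB]
    · simp [hA, hB]

/-- at least `r` flips inside a fixed set -/
lemma Pr_card_ge (S : Finset E) (r n : ℕ) (hn : S.card ≤ n) :
    Pr (fun F => r ≤ (F ∩ S).card) ≤ (n:ℝ) ^ r * (1 / (Fintype.card E : ℝ)) ^ r := by
  have h1 := Pr_le (fun F => r ≤ (F ∩ S).card) (S.powersetCard r) r
    (fun G hG => (mem_powersetCard.1 hG).2) (by
      intro F hF
      obtain ⟨G, hG, hc⟩ := exists_subset_card_eq hF
      exact ⟨G, mem_powersetCard.2 ⟨hG.trans inter_subset_right, hc⟩, hG.trans inter_subset_left⟩)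
  refine h1.trans (mul_le_mul_of_nonneg_right ?_ (pow_nonneg (one_div_m_nonneg E) _))
  rw [card_powersetCard]
  have h2 : (S.card.choose r) ≤ n ^ r := (Nat.choose_le_pow _ _).trans (Nat.pow_le_pow_left hn r)
  exact_mod_cast h2

/-- at least two flips inside a fixed set together with a pair disjoint from it -/
lemma Pr_pair (S : Finset E) (n : ℕ) (hn : S.card ≤ n) (ι : Type) (J : Finset ι)
    (a b : ι → E) (hab : ∀ i ∈ J, a i ≠ b i) (ha : ∀ i ∈ J, a i ∉ S) (hb : ∀ i ∈ J, b i ∉ S) :
    Pr (fun F => 2 ≤ (F ∩ S).card ∧ ∃ i ∈ J, a i ∈ F ∧ b i ∈ F) ≤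
      ((n:ℝ) ^ 2 * J.card) * (1 / (Fintype.card E : ℝ)) ^ 4 := by
  have h1 := Pr_le (fun F => 2 ≤ (F ∩ S).card ∧ ∃ i ∈ J, a i ∈ F ∧ b i ∈ F)
    ((S.powersetCard 2 ×ˢ J).image (fun g => g.1 ∪ {a g.2, b g.2})) 4 (by
      intro G hG
      rw [mem_image] at hG
      obtain ⟨⟨G', i⟩, hG', rfl⟩ := hG
      rw [mem_product, mem_powersetCard] at hG'
      simp only at hG' ⊢
      obtain ⟨⟨h1, h2⟩, h3⟩ := hG'
      rw [card_union_of_disjoint, h2, card_pair (hab i h3)]
      rw [disjoint_right]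
      intro e he hG
      rw [mem_insert, mem_singleton] at he
      rcases he with he | he
      · rw [he] at hG; exact ha i h3 (h1 hG)
      · rw [he] at hG; exact hb i h3 (h1 hG)) (by
      rintro F ⟨hF, i, hi, h2, h3⟩
      obtain ⟨G, hG, hc⟩ := exists_subset_card_eq hF
      refine ⟨G ∪ {a i, b i}, ?_, ?_⟩
      · rw [mem_image]
        exact ⟨(G, i), mem_product.2 ⟨mem_powersetCard.2 ⟨hG.trans inter_subset_right, hc⟩, hi⟩, rfl⟩
      · apply union_subset (hG.trans inter_subset_left)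
        intro e he
        rw [mem_insert, mem_singleton] at he
        rcases he with he | he
        · rw [he]; exact h2
        · rw [he]; exact h3)
  refine h1.trans (mul_le_mul_of_nonneg_right ?_ (pow_nonneg (one_div_m_nonneg E) _))
  have h2 : ((S.powersetCard 2 ×ˢ J).image (fun g => g.1 ∪ {a g.2, b g.2})).card ≤ n ^ 2 * J.card := by
    refine card_image_le.trans ?_
    rw [card_product, card_powersetCard]
    exact Nat.mul_le_mul_right _ ((Nat.choose_le_pow _ _).trans (Nat.pow_le_pow_left hn 2))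
  exact_mod_cast h2

end Pool.Agent.helper1.MST
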