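import Mathlib

namespace Pool.Agent.helper1.MST

lemma arithA {Ω a z r sr sa σr σa w w' : ℕ} (hΩ : 5 ≤ Ω) (h1 : a + sa = z + r + sr)
    (h2 : w' + 2*z + r + σr = w + Ω*a + σa) (h3 : 2*sa ≤ σa) (h4 : σr ≤ Ω*sr) (h : sr = 0) :
    w ≤ w' ∧ (w' ≤ w → a = 0 ∧ r = 0 ∧ σa = 2*sa) := by
  subst h
  have h5 : 3 * a ≤ (Ω - 2) * a := Nat.mul_le_mul_right _ (by omega)
  have h6 : Ω * a = (Ω - 2) * a + 2 * a := by
    rw [← add_mul]; congr 1; omega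
  constructor
  · omega
  · intro h7
    refine ⟨by omega, by omega, by omega⟩

lemma arithB {Ω a z r sr sa σr σa w w' : ℕ} (hΩ : 5 ≤ Ω) (h1 : a + sa = z + r + sr)
    (h2 : w' + 2*z + r + σr = w + Ω*a + σa) (h3 : 2*sa ≤ σa) (h4 : σr ≤ Ω*sr) (h : sr = 1)
    (h' : sa = 0) :
    w ≤ w' ∧ (w' ≤ w → a = 1 ∧ z = 0 ∧ r = 0 ∧ σr = Ω ∧ σa = 0) := by
  subst h h'
  have ha : a = z + r + 1 := by omega
  subst ha
  have h5 : 5 * (z + r) ≤ Ω * (z + r) := Nat.mul_le_mul_right _ hΩ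
  have h6 : Ω * (z + r + 1) = Ω * (z + r) + Ω := by ring
  rw [h6] at h2
  constructor
  · omega
  · intro h7
    refine ⟨by omega, by omega, by omega, by omega, by omega⟩

lemma arithC {Ω a z r sr sa σr σa w w' : ℕ} (hΩ : 5 ≤ Ω) (h1 : a + sa = z + r + sr)
    (h2 : w' + 2*z + r + σr = w + Ω*a + σa) (h3 : 2*sa ≤ σa) (h4 : σr ≤ Ω*sr) (h : sr = 1)
    (h' : sa = 1) (hw : w' ≤ w) :
    (a = 0 ∧ z = 0 ∧ r = 0 ∧ σa ≤ σr) ∨ (a = 1 ∧ r = 0 ∧ σa = 2 ∧ σr = Ω) := by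
  subst h h'
  have ha : a = z + r := by omega
  have h6 : Ω * a = (Ω - 2) * a + 2 * a := by
    rw [← add_mul]; congr 1; omega
  rcases Nat.lt_or_ge a 2 with h7 | h7
  · interval_cases a
    · left; refine ⟨rfl, by omega, by omega, by omega⟩
    · right; refine ⟨rfl, by omega, by omega, by omega⟩
  · exfalso
    have h8 : (Ω - 2) * 2 ≤ (Ω - 2) * a := Nat.mul_le_mul_left _ h7
    omega

lemma arithD {Ω a z r sr sa σr σa w w' : ℕ} (hΩ : 5 ≤ Ω) (h1 : a + sa = z + r + sr)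
    (h2 : w' + 2*z + r + σr = w + Ω*a + σa) (h3 : 2*sa ≤ σa) (h4 : σr ≤ Ω*sr) (h : sr = 2)
    (h' : sa = 0) (hw : w' ≤ w) : z = 0 ∧ r = 0 ∧ σr = 2 * Ω := by
  subst h h'
  have ha : a = z + r + 2 := by omega
  subst ha
  have h5 : 5 * (z + r) ≤ Ω * (z + r) := Nat.mul_le_mul_right _ hΩ
  have h6 : Ω * (z + r + 2) = Ω * (z + r) + 2 * Ω := by ring
  rw [h6] at h2
  refine ⟨by omega, by omega, by omega⟩

end Pool.Agent.helper1.MST
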