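import Mathlib

/-!
# The (1+1) EA on the minimum spanning tree problem: definitions

A bit string is represented by the finite set of the edges whose bit is `1`.
-/

open scoped Classical
open Finset

namespace Pool.Agent.helper1.MST

/-- An instance: a finite connected simple graph `G` on the vertex type `V`, its edges listed without
repetition by the finite type `E`, positive integer weights `w`, and an initial spanning tree `x0`
(given as the set of its edges). -/
structure Inst where
  V : Type
  E : Type
  [fintypeV : Fintype V]
  [fintypeE : Fintype E]
  G : SimpleGraph V
  connected : G.Connected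
  edge : E ≃ G.edgeSet
  w : E → ℕ
  w_pos : ∀ e, 0 < w e
  x0 : Finset E
  x0_tree : (SimpleGraph.fromEdgeSet {a : Sym2 V | ∃ e ∈ x0, (edge e : Sym2 V) = a}).IsTree

attribute [instance] Inst.fintypeV Inst.fintypeE

namespace Inst

variable (I : Inst)

/-- The number of edges of the instance. -/
noncomputable def m : ℕ := Fintype.card I.E

/-- `x` encodes a spanning tree: the graph on all the vertices with the edges in `x` is a tree. -/
def IsST (x : Finset I.E) : Prop :=
  (SimpleGraph.fromEdgeSet {a : Sym2 I.V | ∃ e ∈ x, (I.edge e : Sym2 I.V) = a}).IsTree

/-- The weight of the edge set `x`. -/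
def weight (x : Finset I.E) : ℕ := ∑ e ∈ x, I.w e

/-- `x` is a minimum spanning tree. -/
def Optimal (x : Finset I.E) : Prop := I.IsST x ∧ ∀ y, I.IsST y → I.weight x ≤ I.weight y

/-- The probability that exactly the bits in `F` are flipped when each of the `m` bits is flipped
independently with probability `1/m`. -/
noncomputable def flipProb (F : Finset I.E) : ℝ :=
  (1 / (I.m : ℝ)) ^ F.card * (1 - 1 / (I.m : ℝ)) ^ (I.m - F.card)

/-- The state that follows `x` when the offspring is `y`. -/
noncomputable def next (x y : Finset I.E) : Finset I.E :=
  if I.IsST y ∧ I.weight y ≤ I.weight x then y else x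

/-- `surv t x` is the probability that the run started from `x` has `T > t`, that is, none of the
states `x^(0), …, x^(t)` is a minimum spanning tree (first step decomposition). -/
noncomputable def surv : ℕ → Finset I.E → ℝ
  | 0, x => if I.Optimal x then 0 else 1
  | t + 1, x => if I.Optimal x then 0 else
      ∑ F : Finset I.E, I.flipProb F * surv t (I.next x (symmDiff x F))

/-- The expected runtime `E[T] = ∑_{t ≥ 0} P(T > t)` of the (1+1) EA started from `x0`. -/
noncomputable def expT : ENNReal := ∑' t : ℕ, ENNReal.ofReal (I.surv t I.x0)

end Inst

end Pool.Agent.helper1.MST
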