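import Mathlib
import Pool.Agent.helper1.MST.Defs

open scoped Classical
open Finset

namespace Pool.Agent.helper1.MST

section conn

set_option linter.unusedSectionVars false

variable {V E : Type} [Fintype V] [Fintype E] (src dst : E → V)

/-- connectivity through two-colourings -/
def Conn (x : Finset E) : Prop :=
  ∀ f : V → Bool, (∀ e ∈ x, f (src e) = f (dst e)) → ∀ u v, f u = f v

/-- spanning trees as connected edge sets with the right number of edges -/
def Tree (x : Finset E) : Prop := Conn src dst x ∧ x.card + 1 = Fintype.card V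

variable {src dst}

lemma Conn.mono {x y : Finset E} (hx : Conn src dst x) (h : x ⊆ y) : Conn src dst y :=
  fun f hf => hx f fun e he => hf e (h he)

/-- counting lemma: the number of edges touching a proper vertex set `S` is at least `|S|` -/
lemma Conn.card_le {x : Finset E} (hx : Conn src dst x) (S : Finset V) (r : V) (hr : r ∉ S) :
    S.card ≤ (x.filter (fun e => src e ∈ S ∨ dst e ∈ S)).card := by
  set W := x.filter (fun e => src e ∈ S ∨ dst e ∈ S) with hW
  let ext : (S → Bool) → V → Bool := fun g v => if h : v ∈ S then g ⟨v, h⟩ else false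
  let Φ : (S → Bool) → (W → Bool) := fun g e => xor (ext g (src e)) (ext g (dst e))
  have hinj : Function.Injective Φ := by
    intro g1 g2 h12
    have h0 : ∀ e ∈ x, xor (ext g1 (src e)) (ext g1 (dst e)) = xor (ext g2 (src e)) (ext g2 (dst e)) := by
      intro e he
      by_cases hT : src e ∈ S ∨ dst e ∈ S
      · have : e ∈ W := by rw [hW]; exact mem_filter.2 ⟨he, hT⟩
        exact congrFun h12 ⟨e, this⟩
      · push Not at hT
        simp [ext, hT.1, hT.2]
    let k : V → Bool := fun v => xor (ext g1 v) (ext g2 v)
    have h1 : ∀ e ∈ x, k (src e) = k (dst e) := by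
      intro e he
      have := h0 e he
      show xor (ext g1 (src e)) (ext g2 (src e)) = xor (ext g1 (dst e)) (ext g2 (dst e))
      revert this
      generalize ext g1 (src e) = a
      generalize ext g1 (dst e) = b
      generalize ext g2 (src e) = c
      generalize ext g2 (dst e) = d
      revert a b c d; decide
    have h2 := hx k h1
    funext v
    have h3 := h2 v r
    simp only [k, ext, hr, dif_neg, not_false_eq_true, Bool.xor_false] at h3
    have hv : (v:V) ∈ S := v.2
    simp only [hv, dif_pos] at h3
    revert h3
    simp
  have h1 := Fintype.card_le_of_injective Φ hinj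
  simp only [Fintype.card_fun, Fintype.card_bool, Fintype.card_coe] at h1
  exact (Nat.pow_le_pow_iff_right (by norm_num)).1 h1

/-- a tree stays no longer connected after deleting an edge -/
lemma Conn.card_ge {x : Finset E} (hx : Conn src dst x) : Fintype.card V ≤ x.card + 1 := by
  rcases isEmpty_or_nonempty V with h | ⟨⟨r⟩⟩
  · simp
  · have := hx.card_le (univ.erase r) r (by simp)
    have h1 := card_filter_le x (fun e => src e ∈ univ.erase r ∨ dst e ∈ univ.erase r)
    have h2 : (univ.erase r).card = Fintype.card V - 1 := by simp [card_erase_of_mem]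
    omega

lemma Tree.not_conn_erase {x : Finset E} (hx : Tree src dst x) {a : E} (ha : a ∈ x) :
    ¬ Conn src dst (x.erase a) := by
  intro h
  have h1 := h.card_ge
  have h2 := hx.2
  rw [card_erase_of_mem ha] at h1
  have := card_pos.2 ⟨a, ha⟩
  omega

/-- counting edges inside a set -/
lemma Tree.card_inside {x : Finset E} (hx : Tree src dst x) (S : Finset V) (hS : S.Nonempty) :
    (x.filter (fun e => src e ∈ S ∧ dst e ∈ S)).card + 1 ≤ S.card := by
  obtain ⟨r, hr⟩ := hS
  have h1 := hx.1.card_le Sᶜ r (by simpa using hr)
  have h2 : (x.filter (fun e => src e ∈ S ∧ dst e ∈ S)).card +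
      (x.filter (fun e => src e ∈ Sᶜ ∨ dst e ∈ Sᶜ)).card = x.card := by
    rw [← card_filter_add_card_filter_not (s := x) (fun e => src e ∈ S ∧ dst e ∈ S)]
    congr 2
    ext e
    simp only [mem_filter, mem_compl]
    tauto
  have h3 := hx.2
  rw [card_compl] at h1
  have h4 := card_le_univ S
  omega

/-- exchange lemma X: `a` is the only edge of `x` crossing the colouring `c` and `b` crosses it -/
lemma Tree.exchange_cut {x : Finset E} (hx : Tree src dst x) {a b : E} (ha : a ∈ x) (hb : b ∉ x)
    (c : V → Bool) (honly : ∀ e ∈ x, e ≠ a → c (src e) = c (dst e))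
    (hcb : c (src b) ≠ c (dst b)) : Tree src dst (insert b (x.erase a)) := by
  have hca : c (src a) ≠ c (dst a) := by
    intro h
    refine hcb (hx.1 c ?_ _ _)
    intro e he
    by_cases h' : e = a
    · rw [h']; exact h
    · exact honly e he h'
  refine ⟨?_, ?_⟩
  · intro f hf
    have hfb : f (src b) = f (dst b) := hf b (mem_insert_self _ _)
    have hfx : ∀ e ∈ x, e ≠ a → f (src e) = f (dst e) := by
      intro e he hne
      exact hf e (mem_insert_of_mem (mem_erase.2 ⟨hne, he⟩))
    by_cases hfa : f (src a) = f (dst a)
    · refine hx.1 f ?_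
      intro e he
      by_cases h' : e = a
      · rw [h']; exact hfa
      · exact hfx e he h'
    · exfalso
      have h1 := hx.1 (fun v => xor (f v) (c v)) (by
        intro e he
        by_cases h' : e = a
        · rw [h']
          revert hfa hca
          generalize f (src a) = p
          generalize f (dst a) = q
          generalize c (src a) = r
          generalize c (dst a) = s
          revert p q r s; decide
        · simp only [hfx e he h', honly e he h']) (src b) (dst b)
      revert h1 hfb hcb
      generalize f (src b) = p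
      generalize f (dst b) = q
      generalize c (src b) = r
      generalize c (dst b) = s
      revert p q r s; decide
  · have h1 : b ∉ x.erase a := fun h => hb (mem_of_mem_erase h)
    rw [card_insert_of_notMem h1, card_erase_of_mem ha]
    have := card_pos.2 ⟨a, ha⟩
    have := hx.2
    omega

/-- exchange lemma Y: the ends of `a` get the same colour in every colouring compatible with the new
edge set -/
lemma Tree.exchange_path {x : Finset E} (hx : Tree src dst x) {a b : E} (ha : a ∈ x) (hb : b ∉ x)
    (h : ∀ f : V → Bool, (∀ e ∈ x, e ≠ a → f (src e) = f (dst e)) → f (src b) = f (dst b) →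
      f (src a) = f (dst a)) : Tree src dst (insert b (x.erase a)) := by
  refine ⟨?_, ?_⟩
  · intro f hf
    have hfb : f (src b) = f (dst b) := hf b (mem_insert_self _ _)
    have hfx : ∀ e ∈ x, e ≠ a → f (src e) = f (dst e) := by
      intro e he hne
      exact hf e (mem_insert_of_mem (mem_erase.2 ⟨hne, he⟩))
    have hfa := h f hfx hfb
    refine hx.1 f ?_
    intro e he
    by_cases h' : e = a
    · rw [h']; exact hfa
    · exact hfx e he h'
  · have h1 : b ∉ x.erase a := fun h => hb (mem_of_mem_erase h)
    rw [card_insert_of_notMem h1, card_erase_of_mem ha]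
    have := card_pos.2 ⟨a, ha⟩
    have := hx.2
    omega

end conn

/-- spanning trees as graphs, in terms of end point functions -/
lemma isTree_iff_tree {V E : Type} [Fintype V] [Fintype E] [hne : Nonempty V] (src dst : E → V)
    (hinj : Function.Injective (fun e => s(src e, dst e))) (hnd : ∀ e, src e ≠ dst e)
    (x : Finset E) :
    (SimpleGraph.fromEdgeSet {a : Sym2 V | ∃ e ∈ x, s(src e, dst e) = a}).IsTree ↔
      Tree src dst x := by
  rw [SimpleGraph.isTree_iff_connected_and_card]
  set H := SimpleGraph.fromEdgeSet {a : Sym2 V | ∃ e ∈ x, s(src e, dst e) = a} with hH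
  have hadj : ∀ u v, H.Adj u v ↔ ∃ e ∈ x, s(src e, dst e) = s(u, v) := by
    intro u v
    rw [hH, SimpleGraph.fromEdgeSet_adj]
    constructor
    · rintro ⟨⟨e, he, h⟩, -⟩
      exact ⟨e, he, h⟩
    · rintro ⟨e, he, h⟩
      refine ⟨⟨e, he, h⟩, ?_⟩
      intro huv
      rw [huv] at h
      rw [Sym2.eq_iff] at h
      rcases h with ⟨h1, h2⟩ | ⟨h1, h2⟩
      · exact hnd e (h1.trans h2.symm)
      · exact hnd e (h1.trans h2.symm)
  have hcard : Nat.card H.edgeSet = x.card := by
    have h1 : H.edgeSet = ((fun e => s(src e, dst e)) '' (x : Set E)) := by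
      ext a
      rw [hH, SimpleGraph.edgeSet_fromEdgeSet]
      simp only [Set.mem_sdiff, Set.mem_ofPred_eq, Set.mem_image, mem_coe]
      constructor
      · rintro ⟨h, -⟩; exact h
      · rintro ⟨e, he, h⟩
        refine ⟨⟨e, he, h⟩, ?_⟩
        rw [← h]
        exact fun hd => hnd e hd
    rw [h1, Nat.card_image_of_injective hinj]
    simp
  rw [hcard]
  unfold Tree
  rw [Nat.card_eq_fintype_card]
  refine and_congr ?_ Iff.rfl
  rw [SimpleGraph.connected_iff]
  constructor
  · rintro ⟨hpre, -⟩ f hf u v
    have h1 : ∀ u v, H.Adj u v → f u = f v := by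
      intro u v huv
      obtain ⟨e, he, h⟩ := (hadj u v).1 huv
      have := hf e he
      rw [Sym2.eq_iff] at h
      rcases h with ⟨h1, h2⟩ | ⟨h1, h2⟩
      · rw [← h1, ← h2]; exact this
      · rw [← h1, ← h2]; exact this.symm
    obtain ⟨p⟩ := hpre u v
    induction p with
    | nil => rfl
    | cons h _ ih => exact (h1 _ _ h).trans ih
  · intro hc
    refine ⟨?_, hne⟩
    intro u v
    have h1 := hc (fun w => decide (H.Reachable u w)) (by
      intro e he
      have h2 : H.Adj (src e) (dst e) := (hadj _ _).2 ⟨e, he, rfl⟩
      simp only [decide_eq_decide]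
      exact ⟨fun h => h.trans h2.reachable, fun h => h.trans h2.symm.reachable⟩) u v
    simp only [decide_eq_decide] at h1
    exact h1.1 (SimpleGraph.Reachable.refl u)

end Pool.Agent.helper1.MST
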