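import Mathlib
import Pool.Agent.helper1.MST.Tree

open scoped Classical
open Finset

namespace Pool.Agent.helper1.MST

set_option linter.unusedSectionVars false
set_option linter.unusedVariables false

/-- parameters of the construction -/
structure Par where
  R : ℕ
  N : ℕ
  k : ℕ
  κ : ℕ
  Q : ℕ
  hN : 0 < N
  hk : 0 < k

namespace Par
variable (P : Par)

def L : ℕ := P.N + (P.κ + 1) * P.k
def C : ℕ := P.N + P.κ * P.k

/-- class / segment number -/
def cl (p : ℕ) : ℕ := if p < P.N then 0 else (p - P.N) / P.k + 1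

/-- start of a segment -/
def ps : ℕ → ℕ
  | 0 => 0
  | j + 1 => P.N + j * P.k

lemma cl_le_iff (p j : ℕ) : P.cl p ≤ j ↔ p < P.N + j * P.k := by
  unfold cl
  split_ifs with h
  · constructor
    · intro _; have := Nat.zero_le (j * P.k); omega
    · intro _; omega
  · rw [Nat.add_one_le_iff, Nat.div_lt_iff_lt_mul P.hk]
    omega

lemma cl_mono {p q : ℕ} (h : p ≤ q) : P.cl p ≤ P.cl q := by
  rw [cl_le_iff]
  have := (P.cl_le_iff q (P.cl q)).1 le_rfl
  omega

lemma cl_eq_zero_iff (p : ℕ) : P.cl p = 0 ↔ p < P.N := by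
  have := P.cl_le_iff p 0
  simp only [zero_mul, add_zero] at this
  omega

lemma le_cl_succ_iff (p j : ℕ) : j + 1 ≤ P.cl p ↔ P.N + j * P.k ≤ p := by
  have := P.cl_le_iff p j
  omega

lemma cl_ps (j : ℕ) : P.cl (P.ps j) = j := by
  cases j with
  | zero =>
    rw [cl_eq_zero_iff]; exact P.hN
  | succ j =>
    have h1 := (P.le_cl_succ_iff (P.ps (j+1)) j).2 le_rfl
    have h2 := (P.cl_le_iff (P.ps (j+1)) (j+1)).2 (by
      show P.N + j * P.k < P.N + (j+1) * P.k
      have := P.hk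
      rw [add_mul]; omega)
    omega

lemma cl_ps_le (p : ℕ) : P.ps (P.cl p) ≤ p := by
  rcases h : P.cl p with _ | j
  · exact Nat.zero_le _
  · exact (P.le_cl_succ_iff p j).1 (by omega)

lemma ps_mono {a b : ℕ} (h : a ≤ b) : P.ps a ≤ P.ps b := by
  by_contra hc
  push Not at hc
  have h1 := P.cl_mono hc.le
  rw [cl_ps, cl_ps] at h1
  have : a = b := by omega
  subst this
  omega

lemma lt_ps_succ_iff (p j : ℕ) : p < P.ps (j+1) ↔ P.cl p ≤ j := by
  rw [cl_le_iff]; rfl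

lemma cl_lt_L (p : Fin P.L) : P.cl p ≤ P.κ + 1 := by
  rw [cl_le_iff]
  exact p.2

lemma cl_lt_C (c : Fin P.C) : P.cl c ≤ P.κ := by
  rw [cl_le_iff]
  exact c.2

lemma ps_L : P.ps (P.κ + 2) = P.L := by
  rfl

lemma ps_le_L {j : ℕ} (hj : j ≤ P.κ + 2) : P.ps j ≤ P.L := by
  rw [← ps_L]; exact P.ps_mono hj

lemma ps_lt_L {j : ℕ} (hj : j ≤ P.κ + 1) : P.ps j < P.L := by
  rw [← ps_L, lt_ps_succ_iff, cl_ps]; exact hj

end Par

inductive Vtx (P : Par) : Type
  | root : Vtx P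
  | pth (i : Fin P.R) (p : Fin P.L) : Vtx P
  | chd (i : Fin P.R) (c : Fin P.C) : Vtx P
  | dum (q : Fin P.Q) : Vtx P
deriving Fintype

inductive Edg (P : Par) : Type
  | pth (i : Fin P.R) (p : Fin P.L) : Edg P
  | pen (i : Fin P.R) (c : Fin P.C) : Edg P
  | hvy (i : Fin P.R) (c : Fin P.C) : Edg P
  | dum (q : Fin P.Q) : Edg P
deriving Fintype

end Pool.Agent.helper1.MST
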