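import Mathlib
import Pool.Agent.helper1.MST.Gadget

open scoped Classical
open Finset

namespace Pool.Agent.helper1.MST

set_option linter.unusedSectionVars false
set_option linter.unusedVariables false

variable {P : Par}

/-- path vertex number `p` of the gadget `i`, the root being the last one -/
def pv (i : Fin P.R) (p : ℕ) : Vtx P := if h : p < P.L then Vtx.pth i ⟨p, h⟩ else Vtx.root

def esrc : Edg P → Vtx P
  | Edg.pth i p => Vtx.pth i p
  | Edg.pen i c => Vtx.chd i c
  | Edg.hvy i c => Vtx.chd i c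
  | Edg.dum q => Vtx.dum q

def edst : Edg P → Vtx P
  | Edg.pth i p => pv i (p + 1)
  | Edg.pen i c => pv i (P.ps (P.cl c + 2))
  | Edg.hvy i c => pv i (P.ps (P.cl c))
  | Edg.dum _ => Vtx.root

/-- colouring supported in the gadget `i` -/
def col (i : Fin P.R) (g : ℕ → Bool) (u : Fin P.C → Bool) : Vtx P → Bool
  | Vtx.root => g P.L
  | Vtx.pth i' p => if i' = i then g p else g P.L
  | Vtx.chd i' c => if i' = i then u c else g P.L
  | Vtx.dum _ => g P.L

@[simp] lemma col_root (i : Fin P.R) (g : ℕ → Bool) (u : Fin P.C → Bool) :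
    col i g u Vtx.root = g P.L := rfl

@[simp] lemma col_pth_same (i : Fin P.R) (g : ℕ → Bool) (u : Fin P.C → Bool) (p : Fin P.L) :
    col i g u (Vtx.pth i p) = g p := by simp [col]

@[simp] lemma col_chd_same (i : Fin P.R) (g : ℕ → Bool) (u : Fin P.C → Bool) (c : Fin P.C) :
    col i g u (Vtx.chd i c) = u c := by simp [col]

@[simp] lemma col_dum (i : Fin P.R) (g : ℕ → Bool) (u : Fin P.C → Bool) (q : Fin P.Q) :
    col i g u (Vtx.dum q) = g P.L := rfl

lemma col_pv (i : Fin P.R) (g : ℕ → Bool) (u : Fin P.C → Bool) {p : ℕ} (hp : p ≤ P.L) :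
    col i g u (pv i p) = g p := by
  unfold pv
  split_ifs with h
  · simp
  · have : p = P.L := by omega
    simp [this]

lemma col_pv_ne {i i' : Fin P.R} (h : i' ≠ i) (g : ℕ → Bool) (u : Fin P.C → Bool) (p : ℕ) :
    col i g u (pv i' p) = g P.L := by
  unfold pv
  split_ifs with h'
  · simp [col, h]
  · simp

/-- the criterion for a colouring of this kind to be constant along an edge -/
lemma col_edge (i : Fin P.R) (g : ℕ → Bool) (u : Fin P.C → Bool) (e : Edg P)
    (h1 : ∀ p, e = Edg.pth i p → g p = g (p+1))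
    (h2 : ∀ c, e = Edg.pen i c → u c = g (P.ps (P.cl c + 2)))
    (h3 : ∀ c, e = Edg.hvy i c → u c = g (P.ps (P.cl c))) :
    col i g u (esrc e) = col i g u (edst e) := by
  cases e with
  | pth i' p =>
    by_cases hi : i' = i
    · subst hi
      simp only [esrc, edst]
      rw [col_pth_same, col_pv _ _ _ (by have := p.2; omega)]
      exact h1 p rfl
    · simp only [esrc, edst]
      rw [col_pv_ne hi]
      simp [col, hi]
  | pen i' c =>
    by_cases hi : i' = i
    · subst hi
      simp only [esrc, edst]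
      rw [col_chd_same, col_pv _ _ _ (P.ps_le_L (by have := P.cl_lt_C c; omega))]
      exact h2 c rfl
    · simp only [esrc, edst]
      rw [col_pv_ne hi]
      simp [col, hi]
  | hvy i' c =>
    by_cases hi : i' = i
    · subst hi
      simp only [esrc, edst]
      rw [col_chd_same, col_pv _ _ _ (P.ps_le_L (by have := P.cl_lt_C c; omega))]
      exact h3 c rfl
    · simp only [esrc, edst]
      rw [col_pv_ne hi]
      simp [col, hi]
  | dum q => simp [esrc, edst]

/-- the connected edge sets and the spanning trees of the construction -/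
abbrev Cn (x : Finset (Edg P)) : Prop := Conn (esrc (P := P)) edst x
abbrev Tr (x : Finset (Edg P)) : Prop := Tree (esrc (P := P)) edst x

lemma seg_gap {p q b : ℕ} (h : P.cl p = P.cl q) (h1 : p < P.ps b) (h2 : P.ps b ≤ q) : False := by
  have h3 := P.cl_mono h1.le
  have h4 := P.cl_mono h2
  rw [P.cl_ps] at h3 h4
  have h5 : b = P.cl p := by omega
  subst h5
  have := P.cl_ps_le p
  omega

lemma miss_unique_aux {x : Finset (Edg P)} (hx : Cn x) {i : Fin P.R} {p q : Fin P.L}
    (hp : Edg.pth i p ∉ x) (hq : Edg.pth i q ∉ x) (h : P.cl p = P.cl q) : ¬ p < q := by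
  intro hlt
  have hlt' : (p : ℕ) < q := hlt
  have h1 := hx (col i (fun r => decide ((p:ℕ) < r ∧ r ≤ (q:ℕ))) (fun _ => false)) (by
    intro e he
    refine col_edge _ _ _ _ ?_ ?_ ?_
    · intro r hr
      have h1 : (r:ℕ) ≠ p := by
        intro h'
        have : r = p := Fin.ext h'
        rw [hr, this] at he; exact hp he
      have h2 : (r:ℕ) ≠ q := by
        intro h'
        have : r = q := Fin.ext h'
        rw [hr, this] at he; exact hq he
      simp only [decide_eq_decide]
      omega
    · intro c _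
      have : ¬ ((p:ℕ) < P.ps (P.cl c + 2) ∧ P.ps (P.cl c + 2) ≤ (q:ℕ)) := fun h' => seg_gap h h'.1 h'.2
      simp [this]
    · intro c _
      have : ¬ ((p:ℕ) < P.ps (P.cl c) ∧ P.ps (P.cl c) ≤ (q:ℕ)) := fun h' => seg_gap h h'.1 h'.2
      simp [this]) (Vtx.pth i q) Vtx.root
  rw [col_pth_same, col_root] at h1
  have h2 : ¬ P.L ≤ (q:ℕ) := by have := q.2; omega
  simp [hlt', h2] at h1

/-- each segment misses at most one edge -/
lemma miss_unique {x : Finset (Edg P)} (hx : Cn x) {i : Fin P.R} {p q : Fin P.L}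
    (hp : Edg.pth i p ∉ x) (hq : Edg.pth i q ∉ x) (h : P.cl p = P.cl q) : p = q := by
  have h1 := miss_unique_aux hx hp hq h
  have h2 := miss_unique_aux hx hq hp h.symm
  exact le_antisymm (not_lt.1 h2) (not_lt.1 h1)

/-- each class has at most one present chord with pendants present -/
lemma hvy_unique {x : Finset (Edg P)} (hx : Tr x) {i : Fin P.R} {c c' : Fin P.C}
    (h1 : Edg.hvy i c ∈ x) (h2 : Edg.hvy i c' ∈ x) (h3 : Edg.pen i c ∈ x) (h4 : Edg.pen i c' ∈ x)
    (h : P.cl c = P.cl c') : c = c' := by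
  by_contra hne
  refine hx.not_conn_erase h1 ?_
  intro f hf
  refine hx.1 f ?_
  intro e he
  by_cases hee : e = Edg.hvy i c
  · have e1 := hf (Edg.pen i c) (mem_erase.2 ⟨by simp, h3⟩)
    have e2 := hf (Edg.pen i c') (mem_erase.2 ⟨by simp, h4⟩)
    have e3 := hf (Edg.hvy i c') (mem_erase.2 ⟨by
      intro h'; injection h' with _ h''; exact hne h''.symm, h2⟩)
    simp only [esrc, edst] at e1 e2 e3
    subst hee
    simp only [esrc, edst]
    rw [e1, h, ← e2, e3]
  · exact hf e (mem_erase.2 ⟨hee, he⟩)

lemma pen_or_hvy {x : Finset (Edg P)} (hx : Cn x) (i : Fin P.R) (c : Fin P.C)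
    (h : Edg.pen i c ∉ x) : Edg.hvy i c ∈ x := by
  by_contra h'
  have h1 := hx (col i (fun _ => false) (fun c' => decide (c' = c))) (by
    intro e he
    refine col_edge _ _ _ _ (fun _ _ => rfl) ?_ ?_
    · intro c' hc'
      have : c' ≠ c := by rintro rfl; rw [hc'] at he; exact h he
      simp [this]
    · intro c' hc'
      have : c' ≠ c := by rintro rfl; rw [hc'] at he; exact h' he
      simp [this]) (Vtx.chd i c) Vtx.root
  simp at h1

lemma dum_mem {x : Finset (Edg P)} (hx : Cn x) (q : Fin P.Q) : Edg.dum q ∈ x := by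
  by_contra h'
  have h1 := hx (fun v => decide (v = Vtx.dum q)) (by
    intro e he
    cases e with
    | pth i p =>
      simp only [esrc, edst, pv]
      split_ifs <;> simp
    | pen i p =>
      simp only [esrc, edst, pv]
      split_ifs <;> simp
    | hvy i p =>
      simp only [esrc, edst, pv]
      split_ifs <;> simp
    | dum q' =>
      have : q' ≠ q := by rintro rfl; exact h' he
      simp [esrc, edst, this]) (Vtx.dum q) Vtx.root
  simp at h1

end Pool.Agent.helper1.MST
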