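import Mathlib
import Pool.Agent.helper1.MST.Struct

open scoped Classical
open Finset

namespace Pool.Agent.helper1.MST

set_option linter.unusedSectionVars false
set_option linter.unusedVariables false

variable {P : Par}

/-- number of missing path edges in the segments `≤ j` of the gadget `i` -/
noncomputable def misN (x : Finset (Edg P)) (i : Fin P.R) (j : ℕ) : ℕ :=
  (univ.filter fun p : Fin P.L => P.cl p ≤ j ∧ Edg.pth i p ∉ x).card

/-- number of present chords in the classes `≤ j` of the gadget `i` -/
noncomputable def preN (x : Finset (Edg P)) (i : Fin P.R) (j : ℕ) : ℕ :=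
  (univ.filter fun c : Fin P.C => P.cl c ≤ j ∧ Edg.hvy i c ∈ x).card

lemma vpth_inj (i : Fin P.R) : Function.Injective (Vtx.pth (P := P) i) := by
  intro a b h; injection h
lemma vchd_inj (i : Fin P.R) : Function.Injective (Vtx.chd (P := P) i) := by
  intro a b h; injection h
lemma epth_inj (i : Fin P.R) : Function.Injective (Edg.pth (P := P) i) := by
  intro a b h; injection h
lemma epen_inj (i : Fin P.R) : Function.Injective (Edg.pen (P := P) i) := by
  intro a b h; injection h
lemma ehvy_inj (i : Fin P.R) : Function.Injective (Edg.hvy (P := P) i) := by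
  intro a b h; injection h

lemma pv_eq_pth {i i' : Fin P.R} {r : ℕ} {p : Fin P.L} (h : pv i' r = Vtx.pth i p) :
    i' = i ∧ r = p := by
  unfold pv at h
  split_ifs at h with h'
  injection h with h1 h2
  exact ⟨h1, by rw [← h2]⟩

/-- first inequality: `A(j) ≤ B(j)` -/
lemma misN_le_preN {x : Finset (Edg P)} (hx : Cn x) (i : Fin P.R) (j : ℕ) :
    misN x i j ≤ preN x i j := by
  set S1 := (univ.filter fun p : Fin P.L => P.cl p ≤ j) with hS1
  set S2 := (univ.filter fun c : Fin P.C => P.cl c ≤ j) with hS2
  set S : Finset (Vtx P) := S1.image (Vtx.pth i) ∪ S2.image (Vtx.chd i) with hS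
  have hroot : Vtx.root ∉ S := by simp [hS]
  have h1 := hx.card_le S _ hroot
  have hSc : S.card = S1.card + S2.card := by
    rw [hS, card_union_of_disjoint, card_image_of_injective _ (vpth_inj i),
      card_image_of_injective _ (vchd_inj i)]
    rw [disjoint_left]
    intro v hv hv'
    simp only [mem_image] at hv hv'
    obtain ⟨a, _, ha⟩ := hv
    obtain ⟨b, _, hb⟩ := hv'
    rw [← hb] at ha
    cases ha
  have hsub : x.filter (fun e => esrc e ∈ S ∨ edst e ∈ S) ⊆
      (univ.filter fun p : Fin P.L => P.cl p ≤ j ∧ Edg.pth i p ∈ x).image (Edg.pth i) ∪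
      (S2.image (Edg.pen i) ∪
      (univ.filter fun c : Fin P.C => P.cl c ≤ j ∧ Edg.hvy i c ∈ x).image (Edg.hvy i)) := by
    intro e he
    rw [mem_filter] at he
    obtain ⟨hex, he⟩ := he
    have hpv : ∀ i' r, pv i' r ∈ S → i' = i ∧ P.cl r ≤ j := by
      intro i' r h
      rw [hS, mem_union, mem_image, mem_image] at h
      rcases h with ⟨a, ha, ha'⟩ | ⟨a, ha, ha'⟩
      · obtain ⟨h1, h2⟩ := pv_eq_pth ha'.symm
        refine ⟨h1, ?_⟩
        rw [h2]
        simpa [hS1] using ha
      · unfold pv at ha'
        split_ifs at ha'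
    have hpth : ∀ i' p, Vtx.pth i' p ∈ S → i' = i ∧ P.cl p ≤ j := by
      intro i' p h
      rw [hS, mem_union, mem_image, mem_image] at h
      rcases h with ⟨a, ha, ha'⟩ | ⟨a, ha, ha'⟩
      · injection ha' with h1 h2
        refine ⟨h1.symm, ?_⟩
        rw [← h2]
        simpa [hS1] using ha
      · cases ha'
    have hchd : ∀ i' c, Vtx.chd i' c ∈ S → i' = i ∧ P.cl c ≤ j := by
      intro i' p h
      rw [hS, mem_union, mem_image, mem_image] at h
      rcases h with ⟨a, ha, ha'⟩ | ⟨a, ha, ha'⟩
      · cases ha'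
      · injection ha' with h1 h2
        refine ⟨h1.symm, ?_⟩
        rw [← h2]
        simpa [hS2] using ha
    cases e with
    | pth i' p =>
      have : i' = i ∧ P.cl p ≤ j := by
        rcases he with he | he
        · exact hpth _ _ he
        · obtain ⟨h1, h2⟩ := hpv _ _ he
          exact ⟨h1, (P.cl_mono (Nat.le_succ _)).trans h2⟩
      obtain ⟨rfl, h2⟩ := this
      rw [mem_union, mem_image]
      exact Or.inl ⟨p, by simp [h2, hex], rfl⟩
    | pen i' c =>
      have : i' = i ∧ P.cl c ≤ j := by
        rcases he with he | he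
        · exact hchd _ _ he
        · obtain ⟨h1, h2⟩ := hpv _ _ he
          rw [P.cl_ps] at h2
          exact ⟨h1, by omega⟩
      obtain ⟨rfl, h2⟩ := this
      rw [mem_union, mem_union, mem_image, mem_image]
      exact Or.inr (Or.inl ⟨c, by simp [hS2, h2], rfl⟩)
    | hvy i' c =>
      have : i' = i ∧ P.cl c ≤ j := by
        rcases he with he | he
        · exact hchd _ _ he
        · obtain ⟨h1, h2⟩ := hpv _ _ he
          rw [P.cl_ps] at h2
          exact ⟨h1, by omega⟩
      obtain ⟨rfl, h2⟩ := this
      rw [mem_union, mem_union, mem_image, mem_image, mem_image]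
      exact Or.inr (Or.inr ⟨c, by simp [hex, h2], rfl⟩)
    | dum q =>
      exfalso
      rcases he with he | he
      · rw [hS, mem_union, mem_image, mem_image] at he
        rcases he with ⟨a, ha, ha'⟩ | ⟨a, ha, ha'⟩ <;> cases ha'
      · exact hroot he
  have h2 := card_le_card hsub
  have h3 := card_union_le ((univ.filter fun p : Fin P.L => P.cl p ≤ j ∧ Edg.pth i p ∈ x).image (Edg.pth i))
    (S2.image (Edg.pen i) ∪
      (univ.filter fun c : Fin P.C => P.cl c ≤ j ∧ Edg.hvy i c ∈ x).image (Edg.hvy i))
  have h4 := card_union_le (S2.image (Edg.pen (P := P) i))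
      ((univ.filter fun c : Fin P.C => P.cl c ≤ j ∧ Edg.hvy i c ∈ x).image (Edg.hvy i))
  rw [card_image_of_injective _ (epth_inj i)] at h3
  rw [card_image_of_injective _ (epen_inj i), card_image_of_injective _ (ehvy_inj i)] at h4
  have h5 : (univ.filter fun p : Fin P.L => P.cl p ≤ j ∧ Edg.pth i p ∈ x).card + misN x i j = S1.card := by
    unfold misN
    rw [← card_filter_add_card_filter_not (s := S1) (fun p => Edg.pth i p ∈ x), hS1,
      filter_filter, filter_filter]
  have h6 : preN x i j = (univ.filter fun c : Fin P.C => P.cl c ≤ j ∧ Edg.hvy i c ∈ x).card := rfl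
  omega

/-- second inequality: `B(j) ≤ A(j+1)` when the pendants are present -/
lemma preN_le_misN {x : Finset (Edg P)} (hx : Tr x) (hpen : ∀ i c, Edg.pen i c ∈ x)
    (i : Fin P.R) (j : ℕ) : preN x i j ≤ misN x i (j+1) := by
  -- reduce to `j ≤ κ`
  wlog hj : j ≤ P.κ generalizing j
  · have h1 := this P.κ le_rfl
    have h2 : preN x i j = preN x i P.κ := by
      unfold preN
      congr 1
      ext c
      have := P.cl_lt_C c
      simp only [mem_filter, mem_univ, true_and]
      constructor
      · rintro ⟨_, h⟩; exact ⟨this, h⟩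
      · rintro ⟨_, h⟩; exact ⟨by omega, h⟩
    have h3 : misN x i (j+1) = misN x i (P.κ+1) := by
      unfold misN
      congr 1
      ext p
      have := P.cl_lt_L p
      simp only [mem_filter, mem_univ, true_and]
      constructor
      · rintro ⟨_, h⟩; exact ⟨this, h⟩
      · rintro ⟨_, h⟩; exact ⟨by omega, h⟩
    omega
  set q := P.ps (j + 2) with hq
  have hqL : q ≤ P.L := P.ps_le_L (by omega)
  set S2 := (univ.filter fun c : Fin P.C => P.cl c ≤ j) with hS2
  set S : Finset (Vtx P) := (range (q+1)).image (pv i) ∪ S2.image (Vtx.chd i) with hS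
  have hSne : S.Nonempty := ⟨pv i 0, by
    rw [hS, mem_union, mem_image]
    exact Or.inl ⟨0, by simp, rfl⟩⟩
  have h1 := hx.card_inside S hSne
  have hSc : S.card ≤ (q + 1) + S2.card := by
    have h2 := card_union_le ((range (q+1)).image (pv (P := P) i)) (S2.image (Vtx.chd i))
    have h3 := card_image_le (s := range (q+1)) (f := pv (P := P) i)
    have h4 := card_image_le (s := S2) (f := Vtx.chd (P := P) i)
    rw [card_range] at h3
    rw [← hS] at h2
    omega
  set T1 := (univ.filter fun p : Fin P.L => P.cl p ≤ j + 1 ∧ Edg.pth i p ∈ x) with hT1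
  set T3 := (univ.filter fun c : Fin P.C => P.cl c ≤ j ∧ Edg.hvy i c ∈ x) with hT3
  have hpvS : ∀ r, r ≤ q → pv i r ∈ S := by
    intro r hr
    rw [hS, mem_union, mem_image]
    exact Or.inl ⟨r, by simp; omega, rfl⟩
  have hchS : ∀ c : Fin P.C, P.cl c ≤ j → Vtx.chd i c ∈ S := by
    intro c hc
    rw [hS, mem_union, mem_image, mem_image]
    exact Or.inr ⟨c, by simp [hS2, hc], rfl⟩
  have hsub : T1.image (Edg.pth i) ∪ (S2.image (Edg.pen i) ∪ T3.image (Edg.hvy i)) ⊆
      x.filter (fun e => esrc e ∈ S ∧ edst e ∈ S) := by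
    intro e he
    rw [mem_union, mem_union, mem_image, mem_image, mem_image] at he
    rw [mem_filter]
    rcases he with ⟨p, hp, rfl⟩ | ⟨c, hc, rfl⟩ | ⟨c, hc, rfl⟩
    · simp only [hT1, mem_filter, mem_univ, true_and] at hp
      refine ⟨hp.2, ?_, ?_⟩
      · have : Vtx.pth i p = pv i p := by simp [pv]
        simp only [esrc]
        rw [this]
        apply hpvS
        have : (p:ℕ) < q := (P.lt_ps_succ_iff p (j+1)).2 hp.1
        omega
      · simp only [edst]
        apply hpvS
        have : (p:ℕ) < q := (P.lt_ps_succ_iff p (j+1)).2 hp.1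
        omega
    · simp only [hS2, mem_filter, mem_univ, true_and] at hc
      refine ⟨hpen i c, hchS c hc, ?_⟩
      simp only [edst]
      apply hpvS
      exact P.ps_mono (by omega)
    · simp only [hT3, mem_filter, mem_univ, true_and] at hc
      refine ⟨hc.2, hchS c hc.1, ?_⟩
      simp only [edst]
      apply hpvS
      exact P.ps_mono (by omega)
  have h2 := card_le_card hsub
  have hd1 : Disjoint (S2.image (Edg.pen (P := P) i)) (T3.image (Edg.hvy i)) := by
    rw [disjoint_left]
    intro v hv hv'
    rw [mem_image] at hv hv'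
    obtain ⟨a, _, ha⟩ := hv
    obtain ⟨b, _, hb⟩ := hv'
    rw [← hb] at ha
    cases ha
  have hd2 : Disjoint (T1.image (Edg.pth (P := P) i)) (S2.image (Edg.pen i) ∪ T3.image (Edg.hvy i)) := by
    rw [disjoint_left]
    intro v hv hv'
    rw [mem_union, mem_image, mem_image] at hv'
    rw [mem_image] at hv
    obtain ⟨a, _, ha⟩ := hv
    rcases hv' with ⟨b, _, hb⟩ | ⟨b, _, hb⟩
    · rw [← hb] at ha; cases ha
    · rw [← hb] at ha; cases ha
  rw [card_union_of_disjoint hd2, card_union_of_disjoint hd1,
    card_image_of_injective _ (epth_inj i), card_image_of_injective _ (epen_inj i),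
    card_image_of_injective _ (ehvy_inj i)] at h2
  have h5 : T1.card + misN x i (j+1) = q := by
    unfold misN
    have : (univ.filter fun p : Fin P.L => P.cl p ≤ j + 1).card = q := by
      have h7 : (univ.filter fun p : Fin P.L => P.cl p ≤ j + 1) =
          (univ.filter fun p : Fin P.L => (p:ℕ) < q) := by
        ext p
        simp only [mem_filter, mem_univ, true_and]
        exact (P.lt_ps_succ_iff p (j+1)).symm
      rw [h7, Fin.card_filter_val_lt]
      omega
    rw [← this, ← card_filter_add_card_filter_not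
      (s := (univ.filter fun p : Fin P.L => P.cl p ≤ j + 1)) (fun p => Edg.pth i p ∈ x), hT1,
      filter_filter, filter_filter]
  have h6 : preN x i j = T3.card := rfl
  omega

end Pool.Agent.helper1.MST
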