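import Mathlib
import Pool.Agent.helper1.MST.Count

open scoped Classical
open Finset

namespace Pool.Agent.helper1.MST

set_option linter.unusedSectionVars false
set_option linter.unusedVariables false

variable {P : Par}

def vtxEquiv (P : Par) : Vtx P ≃ Unit ⊕ ((Fin P.R × (Fin P.L ⊕ Fin P.C)) ⊕ Fin P.Q) where
  toFun
    | Vtx.root => Sum.inl ()
    | Vtx.pth i p => Sum.inr (Sum.inl (i, Sum.inl p))
    | Vtx.chd i c => Sum.inr (Sum.inl (i, Sum.inr c))
    | Vtx.dum q => Sum.inr (Sum.inr q)
  invFun
    | Sum.inl _ => Vtx.root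
    | Sum.inr (Sum.inl (i, Sum.inl p)) => Vtx.pth i p
    | Sum.inr (Sum.inl (i, Sum.inr c)) => Vtx.chd i c
    | Sum.inr (Sum.inr q) => Vtx.dum q
  left_inv := by intro v; cases v <;> rfl
  right_inv := by rintro (_ | ⟨_, _ | _⟩ | _) <;> rfl

def edgEquiv (P : Par) : Edg P ≃ (Fin P.R × (Fin P.L ⊕ (Fin P.C ⊕ Fin P.C))) ⊕ Fin P.Q where
  toFun
    | Edg.pth i p => Sum.inl (i, Sum.inl p)
    | Edg.pen i c => Sum.inl (i, Sum.inr (Sum.inl c))
    | Edg.hvy i c => Sum.inl (i, Sum.inr (Sum.inr c))
    | Edg.dum q => Sum.inr q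
  invFun
    | Sum.inl (i, Sum.inl p) => Edg.pth i p
    | Sum.inl (i, Sum.inr (Sum.inl c)) => Edg.pen i c
    | Sum.inl (i, Sum.inr (Sum.inr c)) => Edg.hvy i c
    | Sum.inr q => Edg.dum q
  left_inv := by intro v; cases v <;> rfl
  right_inv := by rintro (⟨_, _ | _ | _⟩ | _) <;> rfl

lemma card_vtx (P : Par) : Fintype.card (Vtx P) = P.R * (P.L + P.C) + P.Q + 1 := by
  rw [Fintype.card_congr (vtxEquiv P)]
  simp
  ring

lemma card_edg (P : Par) : Fintype.card (Edg P) = P.R * (P.L + 2 * P.C) + P.Q := by
  rw [Fintype.card_congr (edgEquiv P)]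
  simp only [Fintype.card_sum, Fintype.card_prod, Fintype.card_fin]
  ring

/-- gadget number of an edge (`R` for the dummies) -/
def gid : Edg P → ℕ
  | Edg.pth i _ => i
  | Edg.pen i _ => i
  | Edg.hvy i _ => i
  | Edg.dum _ => P.R

/-- part of `x` in the gadget `i` -/
noncomputable def gpart (x : Finset (Edg P)) (i : ℕ) : Finset (Edg P) := x.filter fun e => gid e = i

lemma gpart_ge {x : Finset (Edg P)} (hx : Cn x) (i : Fin P.R) : P.L + P.C ≤ (gpart x i).card := by
  set S : Finset (Vtx P) := univ.image (Vtx.pth i) ∪ univ.image (Vtx.chd i) with hS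
  have hroot : Vtx.root ∉ S := by simp [hS]
  have h1 := hx.card_le S _ hroot
  have hSc : S.card = P.L + P.C := by
    rw [hS, card_union_of_disjoint, card_image_of_injective _ (vpth_inj i),
      card_image_of_injective _ (vchd_inj i)]
    · simp
    rw [disjoint_left]
    intro v hv hv'
    simp only [mem_image] at hv hv'
    obtain ⟨a, _, ha⟩ := hv
    obtain ⟨b, _, hb⟩ := hv'
    rw [← hb] at ha
    cases ha
  have hmem : ∀ v, v ∈ S ↔ (∃ p, v = Vtx.pth i p) ∨ (∃ c, v = Vtx.chd i c) := by
    intro v
    rw [hS, mem_union, mem_image, mem_image]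
    constructor
    · rintro (⟨a, _, h⟩ | ⟨a, _, h⟩)
      · exact Or.inl ⟨a, h.symm⟩
      · exact Or.inr ⟨a, h.symm⟩
    · rintro (⟨a, h⟩ | ⟨a, h⟩)
      · exact Or.inl ⟨a, mem_univ _, h.symm⟩
      · exact Or.inr ⟨a, mem_univ _, h.symm⟩
  have hpv : ∀ i' r, pv i' r ∈ S → i' = i := by
    intro i' r h
    rw [hmem] at h
    rcases h with ⟨a, h⟩ | ⟨a, h⟩
    · exact (pv_eq_pth h).1
    · unfold pv at h; split_ifs at h
  have hpth : ∀ i' p, Vtx.pth i' p ∈ S → i' = i := by
    intro i' r h
    rw [hmem] at h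
    rcases h with ⟨a, h⟩ | ⟨a, h⟩
    · injection h
    · cases h
  have hchd : ∀ i' p, Vtx.chd i' p ∈ S → i' = i := by
    intro i' r h
    rw [hmem] at h
    rcases h with ⟨a, h⟩ | ⟨a, h⟩
    · cases h
    · injection h
  have hsub : x.filter (fun e => esrc e ∈ S ∨ edst e ∈ S) ⊆ gpart x i := by
    intro e he
    rw [mem_filter] at he
    unfold gpart
    rw [mem_filter]
    refine ⟨he.1, ?_⟩
    cases e with
    | pth i' p =>
      have : i' = i := by rcases he.2 with h | h; exacts [hpth _ _ h, hpv _ _ h]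
      simp [gid, this]
    | pen i' p =>
      have : i' = i := by rcases he.2 with h | h; exacts [hchd _ _ h, hpv _ _ h]
      simp [gid, this]
    | hvy i' p =>
      have : i' = i := by rcases he.2 with h | h; exacts [hchd _ _ h, hpv _ _ h]
      simp [gid, this]
    | dum q =>
      exfalso
      rcases he.2 with h | h
      · rw [hmem] at h
        rcases h with ⟨a, h⟩ | ⟨a, h⟩ <;> cases h
      · exact hroot h
  have h2 := card_le_card hsub
  omega

lemma gid_le (e : Edg P) : gid e ≤ P.R := by
  cases e with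
  | pth i p => exact i.2.le
  | pen i p => exact i.2.le
  | hvy i p => exact i.2.le
  | dum q => exact le_rfl

lemma card_eq_sum_gpart (x : Finset (Edg P)) : x.card = ∑ i ∈ range (P.R + 1), (gpart x i).card := by
  rw [← card_biUnion]
  · congr 1
    ext e
    simp only [mem_biUnion, gpart, mem_filter, mem_range]
    constructor
    · intro h; exact ⟨gid e, by have := gid_le e; omega, h, rfl⟩
    · rintro ⟨i, _, h, _⟩; exact h
  · intro i _ j _ hij
    rw [Function.onFun, disjoint_left]
    intro e h1 h2
    simp only [gpart, mem_filter] at h1 h2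
    exact hij (h1.2.symm.trans h2.2)

lemma gpart_dum {x : Finset (Edg P)} (hx : Cn x) : (gpart x P.R).card = P.Q := by
  have : gpart x P.R = univ.image (Edg.dum (P := P)) := by
    ext e
    simp only [gpart, mem_filter, mem_image, mem_univ, true_and]
    constructor
    · rintro ⟨h1, h2⟩
      cases e with
      | pth i p => exfalso; have := i.2; simp only [gid] at h2; omega
      | pen i p => exfalso; have := i.2; simp only [gid] at h2; omega
      | hvy i p => exfalso; have := i.2; simp only [gid] at h2; omega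
      | dum q => exact ⟨q, rfl⟩
    · rintro ⟨q, rfl⟩
      exact ⟨dum_mem hx q, rfl⟩
  rw [this, card_image_of_injective _ (by intro a b h; injection h)]
  simp

/-- every spanning tree has exactly `L + C` edges in each gadget -/
lemma gpart_card {x : Finset (Edg P)} (hx : Tr x) (i : Fin P.R) : (gpart x i).card = P.L + P.C := by
  have h1 := card_eq_sum_gpart x
  rw [sum_range_succ, gpart_dum hx.1] at h1
  have h2 := hx.2
  rw [card_vtx] at h2
  have h3 : ∑ j ∈ range P.R, (gpart x j).card = ∑ j ∈ range P.R, (P.L + P.C) := by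
    rw [sum_const, card_range, smul_eq_mul]; omega
  have h4 : ∀ j ∈ range P.R, P.L + P.C ≤ (gpart x j).card := by
    intro j hj
    exact gpart_ge hx.1 ⟨j, mem_range.1 hj⟩
  have h5 := (sum_eq_sum_iff_of_le h4).1 h3.symm
  exact (h5 i (mem_range.2 i.2)).symm

/-- class weights -/
def om : Edg P → ℕ
  | Edg.pth _ p => P.cl p + 2
  | Edg.pen _ _ => 1
  | Edg.hvy _ c => 2 * P.κ + 5 - P.cl c
  | Edg.dum _ => 1

lemma om_pos (e : Edg P) : 0 < om e := by
  cases e with
  | pth i p => simp [om]
  | pen i c => simp [om]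
  | hvy i c => have := P.cl_lt_C c; simp only [om]; omega
  | dum q => simp [om]

lemma om_le (e : Edg P) : om e ≤ 2 * P.κ + 5 := by
  cases e with
  | pth i p => have := P.cl_lt_L p; simp only [om]; omega
  | pen i c => simp only [om]; omega
  | hvy i c => simp only [om]; omega
  | dum q => simp only [om]; omega

/-- weight of `x` inside the gadget `i` -/
noncomputable def wt (x : Finset (Edg P)) (i : ℕ) : ℕ := ∑ e ∈ gpart x i, om e

/-- base of the lexicographic weights -/
def Bs (P : Par) : ℕ := (P.R * (P.L + 2 * P.C) + P.Q) * (2 * P.κ + 5) + 1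

lemma wt_lt (x : Finset (Edg P)) (i : ℕ) : wt x i < Bs P := by
  unfold wt Bs
  have h1 : ∑ e ∈ gpart x i, om e ≤ (gpart x i).card * (2 * P.κ + 5) := by
    rw [← smul_eq_mul]
    exact sum_le_card_nsmul _ _ _ fun e _ => om_le e
  have h2 : (gpart x i).card ≤ P.R * (P.L + 2 * P.C) + P.Q := by
    rw [← card_edg]; exact card_le_univ _
  have h3 := Nat.mul_le_mul_right (2 * P.κ + 5) h2
  omega

/-- the weights of the instance -/
def ww (e : Edg P) : ℕ := if gid e < P.R then Bs P ^ (P.R - 1 - gid e) * om e else 1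

lemma ww_pos (e : Edg P) : 0 < ww e := by
  unfold ww
  split_ifs
  · exact Nat.mul_pos (Nat.pow_pos (by unfold Bs; omega)) (om_pos e)
  · norm_num

/-- Horner value of a sequence of digits, most significant digit first -/
def hor (B : ℕ) (a : ℕ → ℕ) : ℕ → ℕ
  | 0 => 0
  | n + 1 => B * hor B a n + a n

lemma hor_eq_sum (B : ℕ) (a : ℕ → ℕ) (n : ℕ) :
    hor B a n = ∑ i ∈ range n, B ^ (n - 1 - i) * a i := by
  induction n with
  | zero => simp [hor]
  | succ n ih =>
    rw [hor, ih, sum_range_succ, mul_sum]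
    congr 1
    · refine sum_congr rfl fun i hi => ?_
      have hi := mem_range.1 hi
      rw [← mul_assoc, ← pow_succ']
      congr 2
      omega
    · simp

lemma hor_lex {B : ℕ} {a b : ℕ → ℕ} (n : ℕ) (ha : ∀ i, a i < B)
    (h : hor B b n ≤ hor B a n) :
    (∀ i < n, b i = a i) ∨ ∃ l < n, b l < a l ∧ ∀ i < l, b i = a i := by
  induction n with
  | zero => left; intro i hi; omega
  | succ n ih =>
    rw [hor, hor] at h
    have h1 : hor B b n ≤ hor B a n := by
      by_contra hc
      push Not at hc
      have h2 : B * (hor B a n + 1) ≤ B * hor B b n := Nat.mul_le_mul_left _ hc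
      have := ha n
      rw [mul_add] at h2
      omega
    rcases ih h1 with h2 | ⟨l, hl, h2, h3⟩
    · have h4 : hor B b n = hor B a n := by
        rw [hor_eq_sum, hor_eq_sum]
        refine sum_congr rfl fun i hi => ?_
        rw [h2 i (mem_range.1 hi)]
      rw [h4] at h
      rcases Nat.lt_or_ge (b n) (a n) with h5 | h5
      · right
        exact ⟨n, by omega, h5, h2⟩
      · left
        intro i hi
        rcases Nat.lt_succ_iff_lt_or_eq.1 hi with h6 | h6
        · exact h2 i h6
        · subst h6; omega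
    · right
      exact ⟨l, by omega, h2, h3⟩

lemma hor_lt {B : ℕ} {a b : ℕ → ℕ} (n : ℕ) (hb : ∀ i, b i < B)
    (l : ℕ) (hl : l < n) (h1 : b l < a l) (h2 : ∀ i < l, b i = a i) : hor B b n < hor B a n := by
  induction n with
  | zero => omega
  | succ n ih =>
    rw [hor, hor]
    rcases Nat.lt_succ_iff_lt_or_eq.1 hl with h6 | h6
    · have h3 := ih h6
      have h4 : B * (hor B b n + 1) ≤ B * hor B a n := Nat.mul_le_mul_left _ h3
      have := hb n
      rw [mul_add] at h4
      omega
    · subst h6
      have h4 : hor B b l = hor B a l := by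
        rw [hor_eq_sum, hor_eq_sum]
        refine sum_congr rfl fun i hi => ?_
        rw [h2 i (mem_range.1 hi)]
      rw [h4]; omega

lemma weight_eq (x : Finset (Edg P)) :
    ∑ e ∈ x, ww e = hor (Bs P) (wt x) P.R + (gpart x P.R).card := by
  have h1 : ∑ e ∈ x, ww e = ∑ i ∈ range (P.R+1), ∑ e ∈ gpart x i, ww e := by
    rw [← sum_biUnion]
    · congr 1
      ext e
      simp only [mem_biUnion, gpart, mem_filter, mem_range]
      constructor
      · intro h; exact ⟨gid e, by have := gid_le e; omega, h, rfl⟩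
      · rintro ⟨i, _, h, _⟩; exact h
    · intro i _ j _ hij
      rw [Function.onFun, disjoint_left]
      intro e h1 h2
      simp only [gpart, mem_filter] at h1 h2
      exact hij (h1.2.symm.trans h2.2)
  rw [h1, sum_range_succ, hor_eq_sum]
  congr 1
  · refine sum_congr rfl fun i hi => ?_
    rw [wt, mul_sum]
    refine sum_congr rfl fun e he => ?_
    simp only [gpart, mem_filter] at he
    have hi := mem_range.1 hi
    unfold ww
    rw [he.2, if_pos hi]
  · rw [card_eq_sum_ones]
    refine sum_congr rfl fun e he => ?_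
    simp only [gpart, mem_filter] at he
    unfold ww
    rw [he.2, if_neg (lt_irrefl _)]

end Pool.Agent.helper1.MST
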