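import Mathlib
import Pool.Agent.helper1.MST.Bal
import Pool.Agent.helper1.MST.Arith

open scoped Classical
open Finset

namespace Pool.Agent.helper1.MST

set_option linter.unusedSectionVars false
set_option linter.unusedVariables false

variable {P : Par}

/-- normal spanning trees -/
def NT (x : Finset (Edg P)) : Prop := Tr x ∧ ∀ i c, Edg.pen i c ∈ x

/-- the specific edges of the state `x` -/
def spec (x : Finset (Edg P)) : Edg P → Prop
  | Edg.pth i p => P.N ≤ p ∨ Edg.pth i p ∉ x
  | Edg.pen i c => P.N ≤ c ∨ Edg.hvy i c ∈ x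
  | Edg.hvy i c => P.N ≤ c ∨ Edg.hvy i c ∈ x
  | Edg.dum _ => False

noncomputable def Sp (x : Finset (Edg P)) : Finset (Edg P) := univ.filter (spec x)

/-- exceptional flip sets -/
def XX (x F : Finset (Edg P)) : Prop :=
  3 ≤ (F ∩ Sp x).card ∨ (2 ≤ (F ∩ Sp x).card ∧
    ∃ i c, ¬ spec x (Edg.pen i c) ∧ Edg.pen i c ∈ F ∧ Edg.hvy i c ∈ F)

noncomputable def gAF (x F : Finset (Edg P)) (i : ℕ) : Finset (Edg P) :=
  F.filter fun e => gid e = i ∧ ¬ spec x e ∧ e ∉ x
noncomputable def gRZ (x F : Finset (Edg P)) (i : ℕ) : Finset (Edg P) :=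
  F.filter fun e => gid e = i ∧ ¬ spec x e ∧ e ∈ x ∧ om e = 2
noncomputable def gRP (x F : Finset (Edg P)) (i : ℕ) : Finset (Edg P) :=
  F.filter fun e => gid e = i ∧ ¬ spec x e ∧ e ∈ x ∧ om e ≠ 2
noncomputable def gSR (x F : Finset (Edg P)) (i : ℕ) : Finset (Edg P) :=
  F.filter fun e => gid e = i ∧ spec x e ∧ e ∈ x
noncomputable def gSA (x F : Finset (Edg P)) (i : ℕ) : Finset (Edg P) :=
  F.filter fun e => gid e = i ∧ spec x e ∧ e ∉ x

lemma disj_RZ_RP (x F : Finset (Edg P)) (i : ℕ) : Disjoint (gRZ x F i) (gRP x F i) := by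
  rw [disjoint_left]
  intro e h1 h2
  simp only [gRZ, gRP, mem_filter] at h1 h2
  exact h2.2.2.2.2 h1.2.2.2.2

lemma disj_RZ_SR (x F : Finset (Edg P)) (i : ℕ) : Disjoint (gRZ x F i) (gSR x F i) := by
  rw [disjoint_left]
  intro e h1 h2
  simp only [gRZ, gSR, mem_filter] at h1 h2
  exact h1.2.2.1 h2.2.2.1

lemma disj_RP_SR (x F : Finset (Edg P)) (i : ℕ) : Disjoint (gRP x F i) (gSR x F i) := by
  rw [disjoint_left]
  intro e h1 h2
  simp only [gRP, gSR, mem_filter] at h1 h2
  exact h1.2.2.1 h2.2.2.1

lemma disj_AF_SA (x F : Finset (Edg P)) (i : ℕ) : Disjoint (gAF x F i) (gSA x F i) := by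
  rw [disjoint_left]
  intro e h1 h2
  simp only [gAF, gSA, mem_filter] at h1 h2
  exact h1.2.2.1 h2.2.2.1

lemma disj_SR_SA (x F : Finset (Edg P)) (i : ℕ) : Disjoint (gSR x F i) (gSA x F i) := by
  rw [disjoint_left]
  intro e h1 h2
  simp only [gSR, gSA, mem_filter] at h1 h2
  exact h2.2.2.2 h1.2.2.2

lemma removed_split (x F : Finset (Edg P)) (i : ℕ) :
    gpart (F ∩ x) i = (gRZ x F i ∪ gRP x F i) ∪ gSR x F i := by
  ext e
  simp only [gpart, gRZ, gRP, gSR, mem_filter, mem_union, mem_inter]
  tauto

lemma added_split (x F : Finset (Edg P)) (i : ℕ) :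
    gpart (F \ x) i = gAF x F i ∪ gSA x F i := by
  ext e
  simp only [gpart, gAF, gSA, mem_filter, mem_union, mem_sdiff]
  tauto

lemma sum_removed {β : Type} [AddCommMonoid β] (x F : Finset (Edg P)) (i : ℕ) (f : Edg P → β) :
    ∑ e ∈ gpart (F ∩ x) i, f e = ∑ e ∈ gRZ x F i, f e + ∑ e ∈ gRP x F i, f e + ∑ e ∈ gSR x F i, f e := by
  rw [removed_split, sum_union, sum_union]
  · exact disj_RZ_RP x F i
  · rw [disjoint_union_left]
    exact ⟨disj_RZ_SR x F i, disj_RP_SR x F i⟩

lemma sum_added {β : Type} [AddCommMonoid β] (x F : Finset (Edg P)) (i : ℕ) (f : Edg P → β) :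
    ∑ e ∈ gpart (F \ x) i, f e = ∑ e ∈ gAF x F i, f e + ∑ e ∈ gSA x F i, f e := by
  rw [added_split, sum_union]
  exact disj_AF_SA x F i

lemma gsum_symmDiff (x F : Finset (Edg P)) (i : ℕ) (f : Edg P → ℕ) :
    ∑ e ∈ gpart (symmDiff x F) i, f e + ∑ e ∈ gpart (F ∩ x) i, f e
      = ∑ e ∈ gpart x i, f e + ∑ e ∈ gpart (F \ x) i, f e := by
  have h1 : gpart (symmDiff x F) i = gpart (x \ F) i ∪ gpart (F \ x) i := by
    ext e
    simp only [gpart, mem_filter, mem_union, mem_symmDiff, mem_sdiff]
    tauto
  have h2 : gpart x i = gpart (x \ F) i ∪ gpart (F ∩ x) i := by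
    ext e
    simp only [gpart, mem_filter, mem_union, mem_inter, mem_sdiff]
    tauto
  rw [h1, h2, sum_union, sum_union]
  · ring
  · rw [disjoint_left]
    intro e
    simp only [gpart, mem_filter, mem_inter, mem_sdiff]
    tauto
  · rw [disjoint_left]
    intro e
    simp only [gpart, mem_filter, mem_sdiff]
    tauto

lemma om_AF {x F : Finset (Edg P)} {i : Fin P.R} (hx : NT x) {e : Edg P} (he : e ∈ gAF x F i) :
    om e = 2 * P.κ + 5 ∧ ∃ c : Fin P.C, (c:ℕ) < P.N ∧ e = Edg.hvy i c := by
  simp only [gAF, mem_filter] at he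
  obtain ⟨h1, h2, h3, h4⟩ := he
  cases e with
  | pth i' p => simp only [spec] at h3; tauto
  | pen i' c => exact absurd (hx.2 i' c) h4
  | hvy i' c =>
    simp only [spec, not_or, not_le] at h3
    have h5 := (P.cl_eq_zero_iff c).2 h3.1
    have h6 : i' = i := Fin.ext h2
    subst h6
    exact ⟨by simp [om, h5], c, h3.1, rfl⟩
  | dum q => exfalso; simp only [gid] at h2; have := i.2; omega

lemma om_RP {x F : Finset (Edg P)} {i : Fin P.R} {e : Edg P} (he : e ∈ gRP x F i) :
    om e = 1 := by
  simp only [gRP, mem_filter] at he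
  obtain ⟨h1, h2, h3, h4, h5⟩ := he
  cases e with
  | pth i' p =>
    exfalso
    simp only [spec, not_or, not_le] at h3
    have h6 := (P.cl_eq_zero_iff p).2 h3.1
    exact h5 (by simp [om, h6])
  | pen i' c => rfl
  | hvy i' c => simp only [spec] at h3; tauto
  | dum q => rfl

lemma om_SA {x F : Finset (Edg P)} {i : Fin P.R} (hx : NT x) {e : Edg P} (he : e ∈ gSA x F i) :
    2 ≤ om e := by
  simp only [gSA, mem_filter] at he
  obtain ⟨h1, h2, h3, h4⟩ := he
  cases e with
  | pth i' p => simp [om]
  | pen i' c => exact absurd (hx.2 i' c) h4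
  | hvy i' c => have := P.cl_lt_C c; simp only [om]; omega
  | dum q => simp [spec] at h3

/-- the two basic identities for the flips in one gadget -/
lemma gadget_basic {x F : Finset (Edg P)} (hx : NT x) (hT : Tr (symmDiff x F)) (i : Fin P.R) :
    ((gAF x F i).card + (gSA x F i).card = (gRZ x F i).card + (gRP x F i).card + (gSR x F i).card) ∧
    (wt (symmDiff x F) i + 2 * (gRZ x F i).card + (gRP x F i).card + ∑ e ∈ gSR x F i, om e
      = wt x i + (2 * P.κ + 5) * (gAF x F i).card + ∑ e ∈ gSA x F i, om e) ∧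
    2 * (gSA x F i).card ≤ ∑ e ∈ gSA x F i, om e ∧
    ∑ e ∈ gSR x F i, om e ≤ (2 * P.κ + 5) * (gSR x F i).card := by
  refine ⟨?_, ?_, ?_, ?_⟩
  · have h1 := gsum_symmDiff x F i (fun _ => 1)
    rw [sum_removed, sum_added] at h1
    simp only [← card_eq_sum_ones] at h1
    rw [gpart_card hT, gpart_card hx.1] at h1
    omega
  · have h1 := gsum_symmDiff x F i om
    rw [sum_removed, sum_added] at h1
    have h2 : ∑ e ∈ gRZ x F i, om e = 2 * (gRZ x F i).card := by
      rw [sum_congr rfl (g := fun _ => 2)]
      · simp [mul_comm]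
      · intro e he
        simp only [gRZ, mem_filter] at he
        exact he.2.2.2.2
    have h3 : ∑ e ∈ gRP x F i, om e = (gRP x F i).card := by
      rw [sum_congr rfl (g := fun _ => 1)]
      · simp
      · intro e he
        exact om_RP he
    have h4 : ∑ e ∈ gAF x F i, om e = (2 * P.κ + 5) * (gAF x F i).card := by
      rw [sum_congr rfl (g := fun _ => 2 * P.κ + 5)]
      · simp [mul_comm]
      · intro e he
        exact (om_AF hx he).1
    rw [h2, h3, h4] at h1
    unfold wt
    omega
  · rw [mul_comm, ← smul_eq_mul]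
    exact card_nsmul_le_sum _ _ _ fun e he => om_SA hx he
  · rw [mul_comm, ← smul_eq_mul]
    exact sum_le_card_nsmul _ _ _ fun e _ => om_le e

/-- number of specific flips in the gadget `i` -/
noncomputable def spn (x F : Finset (Edg P)) (i : ℕ) : ℕ := (gSR x F i).card + (gSA x F i).card

lemma spn_eq (x F : Finset (Edg P)) (i : ℕ) :
    spn x F i = ((F ∩ Sp x).filter fun e => gid e = i).card := by
  unfold spn
  rw [← card_union_of_disjoint]
  · congr 1
    ext e
    simp only [gSR, gSA, Sp, mem_filter, mem_union, mem_inter, mem_univ, true_and]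
    tauto
  · exact disj_SR_SA x F i

lemma spn_le (x F : Finset (Edg P)) (i : ℕ) : spn x F i ≤ (F ∩ Sp x).card := by
  rw [spn_eq]; exact card_filter_le _ _

lemma spn_add_le (x F : Finset (Edg P)) {i j : ℕ} (h : i ≠ j) :
    spn x F i + spn x F j ≤ (F ∩ Sp x).card := by
  rw [spn_eq, spn_eq, ← card_union_of_disjoint]
  · exact card_le_card (union_subset (filter_subset _ _) (filter_subset _ _))
  · rw [disjoint_left]
    intro e h1 h2
    rw [mem_filter] at h1 h2
    exact h (h1.2.symm.trans h2.2)

/-- outcome NR: nothing relevant is lost in the gadget `i` -/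
def NR (x y : Finset (Edg P)) (i : Fin P.R) : Prop :=
  (∀ c : Fin P.C, P.N ≤ (c:ℕ) → (Edg.hvy i c ∈ y ↔ Edg.hvy i c ∈ x)) ∧
  ((∃ c : Fin P.C, (c:ℕ) < P.N ∧ Edg.hvy i c ∈ x) → ∃ c : Fin P.C, (c:ℕ) < P.N ∧ Edg.hvy i c ∈ y)

/-- outcome SW: a single swap in the gadget `i` -/
def SW (x F : Finset (Edg P)) (i : Fin P.R) : Prop :=
  ∃ s t, s ∈ x ∧ t ∉ x ∧ spec x s ∧ spec x t ∧ om t ≤ om s ∧ gpart F i = {s, t}

lemma strict_two {x F : Finset (Edg P)} (hx : NT x) (hT : Tr (symmDiff x F)) (i : Fin P.R)
    (h : wt (symmDiff x F) i < wt x i) : 2 ≤ spn x F i := by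
  obtain ⟨h1, h2, h3, h4⟩ := gadget_basic hx hT i
  by_contra hc
  unfold spn at hc
  rcases Nat.eq_zero_or_pos (gSR x F i).card with h5 | h5
  · have := (arithA (by omega) h1 h2 h3 h4 h5).1
    omega
  · have := (arithB (by omega) h1 h2 h3 h4 (by omega) (by omega)).1
    omega

lemma mem_gpart {F : Finset (Edg P)} {i : ℕ} {e : Edg P} : e ∈ gpart F i ↔ e ∈ F ∧ gid e = i := by
  simp [gpart]

lemma hvy_not_flip {x F : Finset (Edg P)} {i : Fin P.R} {c : Fin P.C} (h : Edg.hvy i c ∉ F) :
    Edg.hvy i c ∈ symmDiff x F ↔ Edg.hvy i c ∈ x := by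
  rw [mem_symmDiff]; tauto

/-- the outcome lemma -/
theorem outcome {x F : Finset (Edg P)} (hx : NT x) (hT : Tr (symmDiff x F))
    (hw : ∑ e ∈ symmDiff x F, ww e ≤ ∑ e ∈ x, ww e) (hX : ¬ XX x F) :
    NT (symmDiff x F) ∧ ∀ i : Fin P.R, NR x (symmDiff x F) i ∨ SW x F i := by
  unfold XX at hX
  push Not at hX
  obtain ⟨hX1, hX2⟩ := hX
  rw [weight_eq, weight_eq, gpart_dum hT.1, gpart_dum hx.1.1] at hw
  have hlex := hor_lex P.R (fun i => wt_lt x i) (by omega : hor (Bs P) (wt (symmDiff x F)) P.R ≤ _)
  -- facts for a gadget with one specific flip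
  have hall1 : ∀ i : Fin P.R, spn x F i = 1 → wt (symmDiff x F) i ≤ wt x i := by
    intro i hi
    rcases hlex with h | ⟨l, hl, h1, h2⟩
    · exact (h i i.2).le
    · have h3 := strict_two hx hT ⟨l, hl⟩ h1
      by_cases h4 : (i:ℕ) = l
      · rw [h4]; exact h1.le
      · have := spn_add_le x F h4
        simp only at h3
        omega
  have hall2 : ∀ i : Fin P.R, spn x F i = 2 → wt (symmDiff x F) i ≤ wt x i := by
    intro i hi
    rcases hlex with h | ⟨l, hl, h1, h2⟩
    · exact (h i i.2).le
    · have h3 := strict_two hx hT ⟨l, hl⟩ h1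
      by_cases h4 : (i:ℕ) = l
      · rw [h4]; exact h1.le
      · have := spn_add_le x F h4
        simp only at h3
        omega
  have hΩ : 5 ≤ 2 * P.κ + 5 := by omega
  -- one specific flip, removed
  have hone_r : ∀ i : Fin P.R, (gSR x F i).card = 1 → (gSA x F i).card = 0 →
      (gAF x F i).card = 1 ∧ (gRP x F i).card = 0 ∧ ∃ e, gSR x F i = {e} ∧ om e = 2 * P.κ + 5 := by
    intro i h5 h6
    obtain ⟨h1, h2, h3, h4⟩ := gadget_basic hx hT i
    have h7 := (arithB hΩ h1 h2 h3 h4 h5 h6).2 (hall1 i (by unfold spn; omega))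
    obtain ⟨e, he⟩ := card_eq_one.1 h5
    refine ⟨h7.1, h7.2.2.1, e, he, ?_⟩
    have := h7.2.2.2.1
    rw [he, sum_singleton] at this
    exact this
  have hone_a : ∀ i : Fin P.R, (gSR x F i).card = 0 → (gSA x F i).card = 1 →
      (gAF x F i).card = 0 ∧ (gRP x F i).card = 0 ∧ ∃ e, gSA x F i = {e} ∧ om e = 2 := by
    intro i h5 h6
    obtain ⟨h1, h2, h3, h4⟩ := gadget_basic hx hT i
    have h7 := (arithA hΩ h1 h2 h3 h4 h5).2 (hall1 i (by unfold spn; omega))
    obtain ⟨e, he⟩ := card_eq_one.1 h6
    refine ⟨h7.1, h7.2.1, e, he, ?_⟩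
    have := h7.2.2
    rw [he, sum_singleton, card_singleton] at this
    exact this
  have htwo : ∀ i : Fin P.R, spn x F i = 2 → (gRP x F i).card = 0 ∧
      ∃ s t, gSR x F i = {s} ∧ gSA x F i = {t} ∧
        (((gAF x F i).card = 0 ∧ (gRZ x F i).card = 0 ∧ om t ≤ om s) ∨
          ((gAF x F i).card = 1 ∧ om t = 2 ∧ om s = 2 * P.κ + 5)) := by
    intro i hi
    obtain ⟨h1, h2, h3, h4⟩ := gadget_basic hx hT i
    have hw' := hall2 i hi
    unfold spn at hi
    have h5 : (gSR x F i).card = 0 ∨ (gSR x F i).card = 1 ∨ (gSR x F i).card = 2 := by omega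
    rcases h5 with h5 | h5 | h5
    · -- both added
      exfalso
      have h6 : (gSA x F i).card = 2 := by omega
      have h7 := (arithA hΩ h1 h2 h3 h4 h5).2 hw'
      obtain ⟨e, e', hne, he⟩ := card_eq_two.1 h6
      have h8 := h7.2.2
      rw [h6, he, sum_pair hne] at h8
      have hem : e ∈ gSA x F i := by rw [he]; simp
      have hem' : e' ∈ gSA x F i := by rw [he]; simp
      have h9 := om_SA hx hem
      have h10 := om_SA hx hem'
      have h11 : om e = 2 := by omega
      have h12 : om e' = 2 := by omega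
      simp only [gSA, mem_filter] at hem hem'
      obtain ⟨_, g1, g2, g3⟩ := hem
      obtain ⟨_, g1', g2', g3'⟩ := hem'
      have key : ∀ e : Edg P, gid e = (i:ℕ) → e ∉ x → om e = 2 →
          ∃ p : Fin P.L, e = Edg.pth i p ∧ P.cl p = 0 := by
        intro e k1 k2 k3
        cases e with
        | pth i' p =>
          have : i' = i := Fin.ext k1
          subst this
          refine ⟨p, rfl, ?_⟩
          simp only [om] at k3; omega
        | pen i' c => exact absurd (hx.2 i' c) k2
        | hvy i' c => exfalso; have := P.cl_lt_C c; simp only [om] at k3; omega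
        | dum q => exfalso; simp only [om] at k3; omega
      obtain ⟨p, rfl, hp⟩ := key e g1 g3 h11
      obtain ⟨p', rfl, hp'⟩ := key e' g1' g3' h12
      have := miss_unique hx.1.1 g3 g3' (hp.trans hp'.symm)
      exact hne (by rw [this])
    · have h6 : (gSA x F i).card = 1 := by omega
      obtain ⟨s, hs⟩ := card_eq_one.1 h5
      obtain ⟨t, ht⟩ := card_eq_one.1 h6
      rcases arithC hΩ h1 h2 h3 h4 h5 h6 hw' with ⟨k1, k2, k3, k4⟩ | ⟨k1, k2, k3, k4⟩
      · refine ⟨k3, s, t, hs, ht, Or.inl ⟨k1, k2, ?_⟩⟩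
        rw [hs, ht, sum_singleton, sum_singleton] at k4
        exact k4
      · refine ⟨k2, s, t, hs, ht, Or.inr ⟨k1, ?_, ?_⟩⟩
        · rw [ht, sum_singleton] at k3; exact k3
        · rw [hs, sum_singleton] at k4; exact k4
    · exfalso
      have h6 : (gSA x F i).card = 0 := by omega
      obtain ⟨_, _, h8⟩ := arithD hΩ h1 h2 h3 h4 h5 h6 hw'
      obtain ⟨e, e', hne, he⟩ := card_eq_two.1 h5
      rw [he, sum_pair hne] at h8
      have hem : e ∈ gSR x F i := by rw [he]; simp
      have hem' : e' ∈ gSR x F i := by rw [he]; simp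
      have h9 := om_le e
      have h10 := om_le e'
      have h11 : om e = 2 * P.κ + 5 := by omega
      have h12 : om e' = 2 * P.κ + 5 := by omega
      simp only [gSR, mem_filter] at hem hem'
      obtain ⟨_, g1, g2, g3⟩ := hem
      obtain ⟨_, g1', g2', g3'⟩ := hem'
      have key : ∀ e : Edg P, gid e = (i:ℕ) → om e = 2 * P.κ + 5 →
          ∃ p : Fin P.C, e = Edg.hvy i p ∧ P.cl p = 0 := by
        intro e k1 k3
        cases e with
        | pth i' p => exfalso; have := P.cl_lt_L p; simp only [om] at k3; omega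
        | pen i' c => exfalso; simp only [om] at k3; omega
        | hvy i' c =>
          have : i' = i := Fin.ext k1
          subst this
          refine ⟨c, rfl, ?_⟩
          simp only [om] at k3; omega
        | dum q => exfalso; simp only [om] at k3; omega
      obtain ⟨p, rfl, hp⟩ := key e g1 h11
      obtain ⟨p', rfl, hp'⟩ := key e' g1' h12
      have := hvy_unique hx.1 g3 g3' (hx.2 _ _) (hx.2 _ _) (hp.trans hp'.symm)
      exact hne (by rw [this])
  have hsp : ∀ i : Fin P.R, spn x F i ≤ 2 := fun i => by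
    have := spn_le x F i; omega
  -- specific heavy flips are in gSR or gSA
  have hflip : ∀ (i : Fin P.R) (e : Edg P), e ∈ F → gid e = (i:ℕ) → spec x e →
      e ∈ gSR x F i ∨ e ∈ gSA x F i := by
    intro i e h1 h2 h3
    by_cases h4 : e ∈ x
    · left; simp only [gSR, mem_filter]; exact ⟨h1, h2, h3, h4⟩
    · right; simp only [gSA, mem_filter]; exact ⟨h1, h2, h3, h4⟩
  have hAFmem : ∀ i : Fin P.R, (gAF x F i).card = 1 →
      ∃ c : Fin P.C, (c:ℕ) < P.N ∧ Edg.hvy i c ∈ symmDiff x F := by
    intro i hi
    obtain ⟨e, he⟩ := card_eq_one.1 hi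
    have hem : e ∈ gAF x F i := by rw [he]; simp
    obtain ⟨_, c, hc, rfl⟩ := om_AF hx hem
    refine ⟨c, hc, ?_⟩
    simp only [gAF, mem_filter] at hem
    rw [mem_symmDiff]
    exact Or.inr ⟨hem.1, hem.2.2.2⟩
  refine ⟨⟨hT, ?_⟩, ?_⟩
  · -- normality
    intro i c
    by_contra hc
    have hcx := hx.2 i c
    have hcF : Edg.pen i c ∈ F := by
      by_contra h
      exact hc (mem_symmDiff.2 (Or.inl ⟨hcx, h⟩))
    by_cases hs : spec x (Edg.pen i c)
    · have hm : Edg.pen i c ∈ gSR x F i := by
        simp only [gSR, mem_filter]; exact ⟨hcF, rfl, hs, hcx⟩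
      have hpos : 0 < (gSR x F i).card := card_pos.2 ⟨_, hm⟩
      have h2 := hsp i
      have h3 : spn x F i = (gSR x F i).card + (gSA x F i).card := rfl
      have h4 : spn x F i = 1 ∨ spn x F i = 2 := by omega
      rcases h4 with h4 | h4
      · obtain ⟨_, _, e, he, hom⟩ := hone_r i (by omega) (by omega)
        rw [he, mem_singleton] at hm
        rw [← hm] at hom
        simp only [om] at hom; omega
      · obtain ⟨_, s, t, hs', ht, hor⟩ := htwo i h4
        rw [hs', mem_singleton] at hm
        have htm : t ∈ gSA x F i := by rw [ht]; simp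
        have h5 := om_SA hx htm
        have hp1 : om (Edg.pen i c) = 1 := rfl
        rcases hor with ⟨_, _, h6⟩ | ⟨_, _, h6⟩
        · rw [← hm] at h6
          omega
        · rw [← hm] at h6
          omega
    · have hm : Edg.pen i c ∈ gRP x F i := by
        simp only [gRP, mem_filter]
        exact ⟨hcF, rfl, hs, hcx, by simp [om]⟩
      have hpos : 0 < (gRP x F i).card := card_pos.2 ⟨_, hm⟩
      have h2 := hsp i
      have h3 : spn x F i = (gSR x F i).card + (gSA x F i).card := rfl
      have h4 : spn x F i = 0 ∨ spn x F i = 1 ∨ spn x F i = 2 := by omega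
      rcases h4 with h4 | h4 | h4
      · obtain ⟨h1', h2', h3', h4'⟩ := gadget_basic hx hT i
        have h5 := arithA hΩ h1' h2' h3' h4' (by omega)
        rcases hlex with h | ⟨l, hl, g1, g2⟩
        · have := h5.2 (h i i.2).le
          omega
        · have g3 := strict_two hx hT ⟨l, hl⟩ g1
          simp only at g3
          have g4 := spn_le x F l
          refine hX2 (by omega) i c hs hcF ?_
          have g5 := pen_or_hvy hT.1 i c hc
          rw [mem_symmDiff] at g5
          rcases g5 with ⟨g5, _⟩ | ⟨g5, _⟩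
          · exfalso
            apply hs
            simp only [spec]
            exact Or.inr g5
          · exact g5
      · rcases Nat.eq_zero_or_pos (gSR x F i).card with h5 | h5
        · have := (hone_a i h5 (by omega)).2.1
          omega
        · have := (hone_r i (by omega) (by omega)).2.1
          omega
      · have := (htwo i h4).1
        omega
  · intro i
    have h2 := hsp i
    have h3 : spn x F i = (gSR x F i).card + (gSA x F i).card := rfl
    have h4 : spn x F i = 0 ∨ spn x F i = 1 ∨ spn x F i = 2 := by omega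
    rcases h4 with h4 | h4 | h4
    · left
      have hz1 : gSR x F i = ∅ := card_eq_zero.1 (by omega)
      have hz2 : gSA x F i = ∅ := card_eq_zero.1 (by omega)
      constructor
      · intro c hc
        apply hvy_not_flip
        intro hF
        have := hflip i _ hF rfl (by simp only [spec]; exact Or.inl hc)
        rw [hz1, hz2] at this
        simp at this
      · rintro ⟨c, hc, hcx⟩
        refine ⟨c, hc, (hvy_not_flip ?_).2 hcx⟩
        intro hF
        have := hflip i _ hF rfl (by simp only [spec]; exact Or.inr hcx)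
        rw [hz1, hz2] at this
        simp at this
    · left
      rcases Nat.eq_zero_or_pos (gSR x F i).card with h5 | h5
      · obtain ⟨k1, k2, e, he, hom⟩ := hone_a i h5 (by omega)
        have hz1 : gSR x F i = ∅ := card_eq_zero.1 (by omega)
        constructor
        · intro c hc
          apply hvy_not_flip
          intro hF
          have := hflip i _ hF rfl (by simp only [spec]; exact Or.inl hc)
          rw [hz1, he, mem_singleton] at this
          rcases this with h | h
          · simp at h
          · rw [← h] at hom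
            have := P.cl_lt_C c
            simp only [om] at hom; omega
        · rintro ⟨c, hc, hcx⟩
          refine ⟨c, hc, (hvy_not_flip ?_).2 hcx⟩
          intro hF
          have := hflip i _ hF rfl (by simp only [spec]; exact Or.inr hcx)
          rw [hz1, he, mem_singleton] at this
          rcases this with h | h
          · simp at h
          · rw [← h] at hom
            have := P.cl_lt_C c
            simp only [om] at hom; omega
      · obtain ⟨k1, k2, e, he, hom⟩ := hone_r i (by omega) (by omega)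
        have hz2 : gSA x F i = ∅ := card_eq_zero.1 (by omega)
        constructor
        · intro c hc
          apply hvy_not_flip
          intro hF
          have := hflip i _ hF rfl (by simp only [spec]; exact Or.inl hc)
          rw [hz2, he, mem_singleton] at this
          rcases this with h | h
          · rw [← h] at hom
            have h7 := P.cl_lt_C c
            have h8 : P.cl c = 0 := by simp only [om] at hom; omega
            rw [P.cl_eq_zero_iff] at h8
            omega
          · simp at h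
        · intro _
          exact hAFmem i k1
    · obtain ⟨k1, s, t, hs, ht, hor⟩ := htwo i h4
      have hsm : s ∈ gSR x F i := by rw [hs]; simp
      have htm : t ∈ gSA x F i := by rw [ht]; simp
      simp only [gSR, gSA, mem_filter] at hsm htm
      rcases hor with ⟨h5, h6, h7⟩ | ⟨h5, h6, h7⟩
      · right
        refine ⟨s, t, hsm.2.2.2, htm.2.2.2, hsm.2.2.1, htm.2.2.1, h7, ?_⟩
        have h8 : gpart F i = gpart (F ∩ x) i ∪ gpart (F \ x) i := by
          ext e
          simp only [gpart, mem_filter, mem_union, mem_inter, mem_sdiff]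
          tauto
        rw [h8, removed_split, added_split, card_eq_zero.1 h5, card_eq_zero.1 h6,
          card_eq_zero.1 k1, hs, ht]
        ext e
        simp
      · left
        constructor
        · intro c hc
          apply hvy_not_flip
          intro hF
          have := hflip i _ hF rfl (by simp only [spec]; exact Or.inl hc)
          rw [hs, ht, mem_singleton, mem_singleton] at this
          rcases this with h | h
          · rw [← h] at h7
            have h9 := P.cl_lt_C c
            have h8 : P.cl c = 0 := by simp only [om] at h7; omega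
            rw [P.cl_eq_zero_iff] at h8
            omega
          · rw [← h] at h6
            have := P.cl_lt_C c
            simp only [om] at h6; omega
        · intro _
          exact hAFmem i h5

end Pool.Agent.helper1.MST
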