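import Mathlib
import Pool.Agent.helper1.MST.Outcome

open scoped Classical
open Finset

namespace Pool.Agent.helper1.MST

set_option linter.unusedSectionVars false
set_option linter.unusedVariables false

variable {P : Par}

/-- progress left in the gadget `i` -/
noncomputable def eta (M0 : ℕ) (x : Finset (Edg P)) (i : Fin P.R) : ℕ :=
  (univ.filter fun c : Fin P.C => Edg.hvy i c ∈ x).sup (fun c => M0 - P.cl c)

/-- number of present thin chords in the gadget `i` -/
noncomputable def thn (x : Finset (Edg P)) (i : Fin P.R) : ℕ :=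
  (univ.filter fun c : Fin P.C => P.N ≤ (c:ℕ) ∧ Edg.hvy i c ∈ x).card

/-- the first class `≥ b` without a present chord -/
noncomputable def fl (x : Finset (Edg P)) (i : Fin P.R) (b : ℕ) : ℕ :=
  sInf {d | b ≤ d ∧ ∀ c : Fin P.C, P.cl c = d → Edg.hvy i c ∉ x}

lemma fl_nonempty (x : Finset (Edg P)) (i : Fin P.R) (b : ℕ) :
    ({d | b ≤ d ∧ ∀ c : Fin P.C, P.cl c = d → Edg.hvy i c ∉ x}).Nonempty := by
  refine ⟨b + P.κ + 1, by omega, ?_⟩
  intro c hc
  have := P.cl_lt_C c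
  omega

lemma le_fl (x : Finset (Edg P)) (i : Fin P.R) (b : ℕ) : b ≤ fl x i b :=
  (Nat.sInf_mem (fl_nonempty x i b)).1

lemma fl_absent (x : Finset (Edg P)) (i : Fin P.R) (b : ℕ) (c : Fin P.C) (hc : P.cl c = fl x i b) :
    Edg.hvy i c ∉ x :=
  (Nat.sInf_mem (fl_nonempty x i b)).2 c hc

lemma fl_le (x : Finset (Edg P)) (i : Fin P.R) (b d : ℕ) (h1 : b ≤ d)
    (h2 : ∀ c : Fin P.C, P.cl c = d → Edg.hvy i c ∉ x) : fl x i b ≤ d :=
  Nat.sInf_le ⟨h1, h2⟩

lemma fl_present (x : Finset (Edg P)) (i : Fin P.R) (b d : ℕ) (h1 : b ≤ d) (h2 : d < fl x i b) :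
    ∃ c : Fin P.C, P.cl c = d ∧ Edg.hvy i c ∈ x := by
  by_contra h
  push Not at h
  have := fl_le x i b d h1 h
  omega

/-- `c` is a present chord of minimal class -/
def minc (x : Finset (Edg P)) (i : Fin P.R) (c : Fin P.C) : Prop :=
  Edg.hvy i c ∈ x ∧ ∀ c', Edg.hvy i c' ∈ x → P.cl c ≤ P.cl c'

/-- `p` is the first missing path edge -/
def minp (x : Finset (Edg P)) (i : Fin P.R) (p : Fin P.L) : Prop :=
  Edg.pth i p ∉ x ∧ ∀ p', Edg.pth i p' ∉ x → p ≤ p'

/-- event of a big loss -/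
def DD (x F : Finset (Edg P)) (i : Fin P.R) : Prop :=
  ∃ c p, minc x i c ∧ minp x i p ∧ Edg.hvy i c ∈ F ∧ Edg.pth i p ∈ F

/-- event of a small loss -/
def EE (x F : Finset (Edg P)) (i : Fin P.R) : Prop :=
  ∃ c, minc x i c ∧ Edg.hvy i c ∈ F ∧ ((∃ p, Edg.pth i p ∉ x ∧ Edg.pth i p ∈ F) ∨
    ∃ c' : Fin P.C, P.cl c' = fl x i (P.cl c) ∧ Edg.hvy i c' ∈ F)

/-- event of a new thin chord -/
def UU (x F : Finset (Edg P)) (i : Fin P.R) : Prop :=
  ∃ c : Fin P.C, (c:ℕ) < P.N ∧ Edg.hvy i c ∈ x ∧ Edg.hvy i c ∈ F ∧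
    ∃ c' : Fin P.C, P.cl c' = fl x i 0 ∧ Edg.hvy i c' ∈ F

lemma sw_mem {x F : Finset (Edg P)} {i : ℕ} {s t : Edg P} (hs : s ∈ x) (ht : t ∉ x)
    (hg : gpart F i = {s, t}) (e : Edg P) (he : gid e = i) :
    e ∈ symmDiff x F ↔ (e ∈ x ∧ e ≠ s) ∨ e = t := by
  have h1 : e ∈ F ↔ e = s ∨ e = t := by
    have : e ∈ gpart F i ↔ e ∈ F := by rw [mem_gpart]; simp [he]
    rw [← this, hg]; simp
  rw [mem_symmDiff, h1]
  constructor
  · rintro (⟨h2, h3⟩ | ⟨h2 | h2, h3⟩)
    · left; exact ⟨h2, fun h => h3 (Or.inl h)⟩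
    · subst h2; exact absurd hs h3
    · right; exact h2
  · rintro (⟨h2, h3⟩ | h2)
    · left
      refine ⟨h2, ?_⟩
      rintro (h | h)
      · exact h3 h
      · subst h; exact ht h2
    · right
      subst h2
      exact ⟨Or.inr rfl, ht⟩

lemma preN_pred {x : Finset (Edg P)} {i : Fin P.R} {d : ℕ}
    (h : ∀ c : Fin P.C, P.cl c = d + 1 → Edg.hvy i c ∉ x) : preN x i (d+1) = preN x i d := by
  unfold preN
  congr 1
  ext c
  simp only [mem_filter, mem_univ, true_and]
  constructor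
  · rintro ⟨h1, h2⟩
    refine ⟨?_, h2⟩
    by_contra hc
    exact h c (by omega) h2
  · rintro ⟨h1, h2⟩
    exact ⟨by omega, h2⟩

lemma preN_pos {x : Finset (Edg P)} {i : Fin P.R} {d : ℕ} :
    1 ≤ preN x i d ↔ ∃ c : Fin P.C, P.cl c ≤ d ∧ Edg.hvy i c ∈ x := by
  unfold preN
  rw [Nat.one_le_iff_ne_zero, ← Nat.pos_iff_ne_zero, card_pos]
  simp only [Finset.Nonempty, mem_filter, mem_univ, true_and]

lemma misN_pos {x : Finset (Edg P)} {i : Fin P.R} {d : ℕ} :
    1 ≤ misN x i d ↔ ∃ c : Fin P.L, P.cl c ≤ d ∧ Edg.pth i c ∉ x := by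
  unfold misN
  rw [Nat.one_le_iff_ne_zero, ← Nat.pos_iff_ne_zero, card_pos]
  simp only [Finset.Nonempty, mem_filter, mem_univ, true_and]

/-- the class of the replacing chord is determined -/
lemma swap_class {x F : Finset (Edg P)} (hx : NT x) (hy : NT (symmDiff x F)) {i : Fin P.R}
    {f c : Fin P.C} (hf : Edg.hvy i f ∈ x) (hc : Edg.hvy i c ∉ x)
    (hg : gpart F i = {Edg.hvy i f, Edg.hvy i c}) (hlt : P.cl f < P.cl c) :
    P.cl c = fl x i (P.cl f) := by
  have hm := sw_mem hf hc hg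
  have hcy : Edg.hvy i c ∈ symmDiff x F := (hm _ rfl).2 (Or.inr rfl)
  have h1 : fl x i (P.cl f) ≤ P.cl c := by
    refine fl_le _ _ _ _ hlt.le ?_
    intro c' hc' hx'
    have h2 : Edg.hvy i c' ∈ symmDiff x F := by
      refine (hm _ rfl).2 (Or.inl ⟨hx', ?_⟩)
      intro h; injection h with _ h
      rw [h] at hc'; omega
    have h3 := hvy_unique hy.1 h2 hcy (hy.2 _ _) (hy.2 _ _) hc'
    rw [h3] at hx'; exact hc hx'
  by_contra hne
  have hd : fl x i (P.cl f) < P.cl c := by omega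
  have hd1 := le_fl x i (P.cl f)
  have hd2 : fl x i (P.cl f) ≠ P.cl f := by
    intro h
    exact fl_absent x i (P.cl f) f h.symm hf
  obtain ⟨e, he⟩ : ∃ e, fl x i (P.cl f) = e + 1 := ⟨fl x i (P.cl f) - 1, by omega⟩
  have k1 := misN_le_preN hy.1.1 i (e+1)
  have k2 := preN_le_misN hx.1 hx.2 i e
  have k3 : preN x i (e+1) = preN x i e := by
    apply preN_pred
    intro c' hc'
    exact fl_absent x i (P.cl f) c' (by omega)
  have k4 : misN (symmDiff x F) i (e+1) = misN x i (e+1) := by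
    unfold misN
    congr 1
    ext p
    simp only [mem_filter, mem_univ, true_and]
    rw [hm (Edg.pth i p) rfl]
    simp
  have k5 : preN (symmDiff x F) i (e+1) + 1 = preN x i (e+1) := by
    unfold preN
    have : (univ.filter fun c' : Fin P.C => P.cl c' ≤ e + 1 ∧ Edg.hvy i c' ∈ symmDiff x F)
        = (univ.filter fun c' : Fin P.C => P.cl c' ≤ e + 1 ∧ Edg.hvy i c' ∈ x).erase f := by
      ext c'
      simp only [mem_filter, mem_univ, true_and, mem_erase]
      rw [hm (Edg.hvy i c') rfl]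
      constructor
      · rintro ⟨g1, ⟨g2, g3⟩ | g2⟩
        · exact ⟨fun h => g3 (by rw [h]), g1, g2⟩
        · exfalso
          injection g2 with _ g2
          rw [g2] at g1; omega
      · rintro ⟨g1, g2, g3⟩
        refine ⟨g2, Or.inl ⟨g3, ?_⟩⟩
        intro h; injection h with _ h; exact g1 h
    rw [this, card_erase_of_mem]
    · have : 0 < (univ.filter fun c' : Fin P.C => P.cl c' ≤ e + 1 ∧ Edg.hvy i c' ∈ x).card :=
        card_pos.2 ⟨f, by simp only [mem_filter, mem_univ, true_and]; exact ⟨by omega, hf⟩⟩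
      omega
    · simp only [mem_filter, mem_univ, true_and]; exact ⟨by omega, hf⟩
  omega

lemma eta_ge {M0 : ℕ} {x : Finset (Edg P)} {i : Fin P.R} {c : Fin P.C} (h : Edg.hvy i c ∈ x) :
    M0 - P.cl c ≤ eta M0 x i := by
  unfold eta
  exact le_sup (f := fun c : Fin P.C => M0 - P.cl c) (by simp [h])

lemma eta_attained {M0 : ℕ} {x : Finset (Edg P)} {i : Fin P.R} (h : 0 < eta M0 x i) :
    ∃ c, minc x i c ∧ eta M0 x i = M0 - P.cl c := by
  unfold eta at h
  have hne : (univ.filter fun c : Fin P.C => Edg.hvy i c ∈ x).Nonempty := by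
    by_contra hc
    rw [not_nonempty_iff_eq_empty] at hc
    rw [hc] at h; simp at h
  obtain ⟨c, hc, he⟩ := exists_mem_eq_sup _ hne (fun c : Fin P.C => M0 - P.cl c)
  simp only [mem_filter, mem_univ, true_and] at hc
  refine ⟨c, ⟨hc, ?_⟩, he⟩
  intro c' hc'
  have h1 : M0 - P.cl c' ≤ eta M0 x i := eta_ge hc'
  unfold eta at h1
  rw [he] at h1 h
  omega

lemma exists_minp {x : Finset (Edg P)} {i : Fin P.R} {p : Fin P.L} (h : Edg.pth i p ∉ x) :
    ∃ p₀, minp x i p₀ ∧ p₀ ≤ p := by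
  have hne : (univ.filter fun p : Fin P.L => Edg.pth i p ∉ x).Nonempty := ⟨p, by simp [h]⟩
  refine ⟨(univ.filter fun p : Fin P.L => Edg.pth i p ∉ x).min' hne, ⟨?_, ?_⟩, ?_⟩
  · have := min'_mem _ hne
    simpa using this
  · intro p' hp'
    exact min'_le _ _ (by simp [hp'])
  · exact min'_le _ _ (by simp [h])

/-- change of `eta` under a single swap -/
lemma swap_eta (M0 : ℕ) {x F : Finset (Edg P)} (hx : NT x) (hy : NT (symmDiff x F)) {i : Fin P.R}
    (hsw : SW x F i) :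
    eta M0 x i ≤ eta M0 (symmDiff x F) i ∨ DD x F i ∨
      (EE x F i ∧ eta M0 x i ≤ eta M0 (symmDiff x F) i + 1) := by
  obtain ⟨s, t, hs, ht, -, -, hom, hg⟩ := hsw
  have hm := sw_mem hs ht hg
  have htF : t ∈ F ∧ gid t = (i:ℕ) := by rw [← mem_gpart, hg]; simp
  have hsF : s ∈ F ∧ gid s = (i:ℕ) := by rw [← mem_gpart, hg]; simp
  rcases Nat.eq_zero_or_pos (eta M0 x i) with h0 | h0
  · left; omega
  obtain ⟨c0, hc0, he0⟩ := eta_attained h0
  by_cases h1 : Edg.hvy i c0 ∈ symmDiff x F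
  · left
    rw [he0]; exact eta_ge h1
  -- the chord is removed
  have hs0 : s = Edg.hvy i c0 := by
    by_contra hne
    exact h1 ((hm _ rfl).2 (Or.inl ⟨hc0.1, fun h => hne h.symm⟩))
  by_cases h2 : ∃ c', Edg.hvy i c' ∈ symmDiff x F ∧ P.cl c' ≤ P.cl c0
  · obtain ⟨c', h2, h3⟩ := h2
    left
    have := eta_ge (M0 := M0) h2
    omega
  push Not at h2
  have hEE : EE x F i := by
    refine ⟨c0, hc0, hs0 ▸ hsF.1, ?_⟩
    cases t with
    | pth i' p =>
      have : i' = i := Fin.ext htF.2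
      subst this
      exact Or.inl ⟨p, ht, htF.1⟩
    | pen i' c => exact absurd (hx.2 _ _) ht
    | hvy i' c =>
      have : i' = i := Fin.ext htF.2
      subst this
      right
      have h3 : Edg.hvy i' c ∈ symmDiff x F := (hm _ rfl).2 (Or.inr rfl)
      have h4 := h2 c h3
      rw [hs0] at hg
      exact ⟨c, swap_class hx hy hc0.1 ht hg h4, htF.1⟩
    | dum q => exfalso; have := i.2; have := htF.2; simp only [gid] at this; omega
  right
  -- a missing path edge exists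
  have h3 : 1 ≤ preN x i (P.cl c0) := preN_pos.2 ⟨c0, le_rfl, hc0.1⟩
  have h4 := preN_le_misN hx.1 hx.2 i (P.cl c0)
  obtain ⟨p, hp1, hp2⟩ := misN_pos.1 (h3.trans h4)
  obtain ⟨p0, hp0, hpp⟩ := exists_minp hp2
  by_cases h5 : Edg.pth i p0 ∈ F
  · left
    exact ⟨c0, p0, hc0, hp0, hs0 ▸ hsF.1, h5⟩
  · right
    refine ⟨hEE, ?_⟩
    have h6 : Edg.pth i p0 ∉ symmDiff x F := by
      rw [mem_symmDiff]
      rintro (⟨h, _⟩ | ⟨h, _⟩)
      · exact hp0.1 h
      · exact h5 h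
    have h7 : P.cl p0 ≤ P.cl c0 + 1 := (P.cl_mono hpp).trans hp1
    have h8 : 1 ≤ misN (symmDiff x F) i (P.cl c0 + 1) := misN_pos.2 ⟨p0, h7, h6⟩
    have h9 := misN_le_preN hy.1.1 i (P.cl c0 + 1)
    obtain ⟨c', hc', hc''⟩ := preN_pos.1 (h8.trans h9)
    have := eta_ge (M0 := M0) hc''
    omega

/-- change of the number of thin chords under a single swap -/
lemma swap_thn {x F : Finset (Edg P)} (hx : NT x) (hy : NT (symmDiff x F)) {i : Fin P.R}
    (hsw : SW x F i) :
    thn (symmDiff x F) i ≤ thn x i ∨ (UU x F i ∧ thn (symmDiff x F) i ≤ thn x i + 1) := by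
  obtain ⟨s, t, hs, ht, -, -, hom, hg⟩ := hsw
  have hm := sw_mem hs ht hg
  have htF : t ∈ F ∧ gid t = (i:ℕ) := by rw [← mem_gpart, hg]; simp
  have hsF : s ∈ F ∧ gid s = (i:ℕ) := by rw [← mem_gpart, hg]; simp
  by_cases h1 : ∃ c : Fin P.C, P.N ≤ (c:ℕ) ∧ t = Edg.hvy i c
  · obtain ⟨c, hcN, rfl⟩ := h1
    have hcl := P.cl_lt_C c
    -- `s` is a chord
    have hsc : ∃ f : Fin P.C, s = Edg.hvy i f := by
      cases s with
      | pth i' p =>
        exfalso
        have := P.cl_lt_L p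
        simp only [om] at hom; omega
      | pen i' c =>
        exfalso
        simp only [om] at hom; omega
      | hvy i' f =>
        have : i' = i := Fin.ext hsF.2
        subst this
        exact ⟨f, rfl⟩
      | dum q =>
        exfalso
        simp only [om] at hom; omega
    obtain ⟨f, rfl⟩ := hsc
    have hsub : (univ.filter fun c' : Fin P.C => P.N ≤ (c':ℕ) ∧ Edg.hvy i c' ∈ symmDiff x F) ⊆
        insert c ((univ.filter fun c' : Fin P.C => P.N ≤ (c':ℕ) ∧ Edg.hvy i c' ∈ x).erase f) := by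
      intro c' hc'
      simp only [mem_filter, mem_univ, true_and] at hc'
      rw [hm (Edg.hvy i c') rfl] at hc'
      simp only [mem_insert, mem_erase, mem_filter, mem_univ, true_and]
      rcases hc' with ⟨g1, ⟨g2, g3⟩ | g2⟩
      · right
        exact ⟨fun h => g3 (by rw [h]), g1, g2⟩
      · left
        injection g2
    have h2 := (card_le_card hsub).trans (card_insert_le _ _)
    by_cases hfN : P.N ≤ (f:ℕ)
    · left
      rw [card_erase_of_mem (by simp only [mem_filter, mem_univ, true_and]; exact ⟨hfN, hs⟩)] at h2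
      have : 0 < (univ.filter fun c' : Fin P.C => P.N ≤ (c':ℕ) ∧ Edg.hvy i c' ∈ x).card :=
        card_pos.2 ⟨f, by simp only [mem_filter, mem_univ, true_and]; exact ⟨hfN, hs⟩⟩
      unfold thn
      omega
    · right
      push Not at hfN
      constructor
      · refine ⟨f, hfN, hs, hsF.1, c, ?_, htF.1⟩
        have h3 := (P.cl_eq_zero_iff f).2 hfN
        rw [← h3]
        refine swap_class hx hy hs ht hg ?_
        rw [h3]
        have h4 := (P.cl_eq_zero_iff c)
        omega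
      · have h3 := card_erase_le (s := (univ.filter fun c' : Fin P.C => P.N ≤ (c':ℕ) ∧ Edg.hvy i c' ∈ x)) (a := f)
        unfold thn
        omega
  · left
    unfold thn
    apply card_le_card
    intro c' hc'
    simp only [mem_filter, mem_univ, true_and] at hc' ⊢
    rw [hm (Edg.hvy i c') rfl] at hc'
    rcases hc' with ⟨g1, ⟨g2, g3⟩ | g2⟩
    · exact ⟨g1, g2⟩
    · exact absurd ⟨c', g1, g2.symm⟩ h1

/-- under NR nothing is lost -/
lemma nr_eta (M0 : ℕ) {x y : Finset (Edg P)} {i : Fin P.R} (h : NR x y i) :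
    eta M0 x i ≤ eta M0 y i := by
  unfold eta
  rw [Finset.sup_le_iff]
  intro c hc
  simp only [mem_filter, mem_univ, true_and] at hc
  by_cases hcN : P.N ≤ (c:ℕ)
  · exact eta_ge ((h.1 c hcN).2 hc)
  · push Not at hcN
    obtain ⟨c', hc', hy⟩ := h.2 ⟨c, hcN, hc⟩
    have h1 := eta_ge (M0 := M0) hy
    rw [(P.cl_eq_zero_iff c').2 hc'] at h1
    unfold eta at h1
    omega

lemma nr_thn {x y : Finset (Edg P)} {i : Fin P.R} (h : NR x y i) : thn y i = thn x i := by
  unfold thn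
  congr 1
  ext c
  simp only [mem_filter, mem_univ, true_and]
  constructor
  · rintro ⟨h1, h2⟩; exact ⟨h1, (h.1 c h1).1 h2⟩
  · rintro ⟨h1, h2⟩; exact ⟨h1, (h.1 c h1).2 h2⟩

end Pool.Agent.helper1.MST
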