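import Mathlib
import Pool.Agent.helper1.MST.Swap

open scoped Classical
open Finset

namespace Pool.Agent.helper1.MST

set_option linter.unusedSectionVars false
set_option linter.unusedVariables false

variable {P : Par}

lemma Par.ps_le_iff (P : Par) (b q : ℕ) : P.ps b ≤ q ↔ b ≤ P.cl q := by
  constructor
  · intro h
    have := P.cl_mono h
    rwa [P.cl_ps] at this
  · intro h
    exact (P.ps_mono h).trans (P.cl_ps_le q)

lemma Par.cl_add (P : Par) (g r : ℕ) (hr : r < P.k) : P.cl (P.N + g * P.k + r) = g + 1 := by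
  have h1 := (P.le_cl_succ_iff (P.N + g * P.k + r) g).2 (by omega)
  have h2 := (P.cl_le_iff (P.N + g * P.k + r) (g+1)).2 (by rw [add_mul]; omega)
  omega

lemma const_of_steps {φ : ℕ → Bool} {a b : ℕ} (hab : a ≤ b)
    (h : ∀ p, a ≤ p → p < b → φ p = φ (p+1)) : φ a = φ b := by
  induction b, hab using Nat.le_induction with
  | base => rfl
  | succ n hn ih =>
    rw [ih (fun p h1 h2 => h p h1 (by omega))]
    exact h n hn (by omega)

lemma preN_succ_ge {x : Finset (Edg P)} {i : Fin P.R} {d : ℕ} {c : Fin P.C} (hc : P.cl c = d + 1)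
    (hx : Edg.hvy i c ∈ x) : preN x i d + 1 ≤ preN x i (d+1) := by
  unfold preN
  rw [← card_insert_of_notMem (a := c)
    (s := univ.filter fun c : Fin P.C => P.cl c ≤ d ∧ Edg.hvy i c ∈ x)]
  · apply card_le_card
    intro c' hc'
    simp only [mem_insert, mem_filter, mem_univ, true_and] at hc' ⊢
    rcases hc' with h | h
    · subst h; exact ⟨by omega, hx⟩
    · exact ⟨by omega, h.2⟩
  · simp only [mem_filter, mem_univ, true_and]
    omega

lemma misN_succ_ge {x : Finset (Edg P)} {i : Fin P.R} {d : ℕ} {c : Fin P.L} (hc : P.cl c = d + 1)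
    (hx : Edg.pth i c ∉ x) : misN x i d + 1 ≤ misN x i (d+1) := by
  unfold misN
  rw [← card_insert_of_notMem (a := c)
    (s := univ.filter fun c : Fin P.L => P.cl c ≤ d ∧ Edg.pth i c ∉ x)]
  · apply card_le_card
    intro c' hc'
    simp only [mem_insert, mem_filter, mem_univ, true_and] at hc' ⊢
    rcases hc' with h | h
    · subst h; exact ⟨by omega, hx⟩
    · exact ⟨by omega, h.2⟩
  · simp only [mem_filter, mem_univ, true_and]
    omega

lemma misN_pred {x : Finset (Edg P)} {i : Fin P.R} {d : ℕ}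
    (h : ∀ c : Fin P.L, P.cl c = d + 1 → Edg.pth i c ∈ x) : misN x i (d+1) = misN x i d := by
  unfold misN
  congr 1
  ext c
  simp only [mem_filter, mem_univ, true_and]
  constructor
  · rintro ⟨h1, h2⟩
    refine ⟨?_, h2⟩
    by_contra hc
    exact h2 (h c (by omega))
  · rintro ⟨h1, h2⟩
    exact ⟨by omega, h2⟩

/-- a missing edge in the segment of a present class when `A = B` there -/
lemma missing_in_segment {x : Finset (Edg P)} (hx : NT x) {i : Fin P.R} {g : ℕ} {f : Fin P.C}
    (hf : P.cl f = g) (hfx : Edg.hvy i f ∈ x) (h : misN x i g = preN x i g) :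
    ∃ z : Fin P.L, P.cl z = g ∧ Edg.pth i z ∉ x := by
  by_contra hc
  push Not at hc
  cases g with
  | zero =>
    have h1 : 1 ≤ preN x i 0 := preN_pos.2 ⟨f, by omega, hfx⟩
    rw [← h] at h1
    obtain ⟨z, hz1, hz2⟩ := misN_pos.1 h1
    exact hz2 (hc z (by omega))
  | succ g =>
    have h1 := preN_succ_ge hf hfx
    have h2 := misN_pred hc
    have h3 := misN_le_preN hx.1.1 i g
    omega

/-- type 0 swaps -/
lemma swap0 {x : Finset (Edg P)} (hx : NT x) {i : Fin P.R} {g : ℕ} {f : Fin P.C}
    (hf : P.cl f = g) (hfx : Edg.hvy i f ∈ x) {z q : Fin P.L} (hz : P.cl z = g)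
    (hzx : Edg.pth i z ∉ x) (hq : P.cl q = g + 1)
    (hfull : ∀ p : Fin P.L, P.cl p = g + 1 → Edg.pth i p ∈ x) :
    Tr (insert (Edg.pth i z) (x.erase (Edg.pth i q))) := by
  refine hx.1.exchange_path (hfull q hq) hzx ?_
  intro c hc hcz
  have hgκ : g ≤ P.κ := by rw [← hf]; exact P.cl_lt_C f
  set φ : ℕ → Bool := fun p => c (pv i p) with hφ
  have hstep : ∀ p : Fin P.L, (Edg.pth i p ∈ x ∧ p ≠ q) ∨ p = z → φ p = φ (p+1) := by
    intro p hp
    have h1 : c (esrc (Edg.pth i p)) = c (edst (Edg.pth i p)) := by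
      rcases hp with ⟨h1, h2⟩ | h1
      · exact hc _ h1 (by intro h; injection h with _ h; exact h2 h)
      · rw [h1]; exact hcz
    have h2 : Vtx.pth i p = pv i (p:ℕ) := by simp [pv]
    simp only [esrc, edst] at h1
    rw [h2] at h1
    exact h1
  -- first segment
  have e1 : φ (P.ps g) = φ (P.ps (g+1)) := by
    refine const_of_steps (P.ps_mono (by omega)) ?_
    intro p h1 h2
    have hpL : p < P.L := by
      have := P.ps_le_L (j := g+1) (by omega)
      omega
    have hcl : P.cl p = g := by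
      have h3 := (P.ps_le_iff g p).1 h1
      have h4 := (P.lt_ps_succ_iff p g).1 h2
      omega
    refine hstep ⟨p, hpL⟩ ?_
    by_cases h5 : (⟨p, hpL⟩ : Fin P.L) = z
    · right; exact h5
    · left
      constructor
      · by_contra h6
        exact h5 (miss_unique hx.1.1 h6 hzx (hcl.trans hz.symm))
      · intro h6
        rw [← h6] at hq
        simp only at hq
        omega
  have e2 : φ (P.ps (g+1)) = φ q := by
    refine const_of_steps ((P.ps_le_iff _ _).2 (by omega)) ?_
    intro p h1 h2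
    have hpL : p < P.L := by have := q.2; omega
    have hcl : P.cl p = g + 1 := by
      have h3 := (P.ps_le_iff (g+1) p).1 h1
      have h4 := P.cl_mono h2.le
      omega
    refine hstep ⟨p, hpL⟩ (Or.inl ⟨hfull _ hcl, ?_⟩)
    intro h6
    rw [← h6] at h2
    exact lt_irrefl _ h2
  have e3 : φ (q+1) = φ (P.ps (g+2)) := by
    have hq2 : (q:ℕ) < P.ps (g+2) := (P.lt_ps_succ_iff q (g+1)).2 (by omega)
    refine const_of_steps (by omega) ?_
    intro p h1 h2
    have hpL : p < P.L := by
      have := P.ps_le_L (j := g+2) (by omega)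
      omega
    have hcl : P.cl p = g + 1 := by
      have h3 := (P.lt_ps_succ_iff p (g+1)).1 h2
      have h4 := P.cl_mono (p := (q:ℕ)) (q := p) (by omega)
      omega
    refine hstep ⟨p, hpL⟩ (Or.inl ⟨hfull _ hcl, ?_⟩)
    intro h6
    rw [← h6] at h1
    simp only at h1
    omega
  have e4 : φ (P.ps g) = φ (P.ps (g+2)) := by
    have h1 := hc _ (hx.2 i f) (by simp)
    have h2 := hc _ hfx (by simp)
    simp only [esrc, edst] at h1 h2
    rw [hf] at h1 h2
    exact h2.symm.trans h1
  have h2 : Vtx.pth i q = pv i (q:ℕ) := by simp [pv]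
  show c (Vtx.pth i q) = c (pv i (q+1))
  rw [h2]
  show φ q = φ (q+1)
  rw [← e2, ← e1, e4, ← e3]

/-- type 1 swaps -/
lemma swap1 {x : Finset (Edg P)} (hx : NT x) {i : Fin P.R} {g : ℕ} {f c : Fin P.C}
    (hf : P.cl f = g) (hfx : Edg.hvy i f ∈ x) {q : Fin P.L} (hq : P.cl q = g + 1)
    (hqx : Edg.pth i q ∉ x) (habs : ∀ c : Fin P.C, P.cl c = g + 1 → Edg.hvy i c ∉ x)
    (hc : P.cl c = g + 1) :
    Tr (insert (Edg.hvy i c) (x.erase (Edg.hvy i f))) := by
  refine hx.1.exchange_cut hfx (habs c hc)
    (col i (fun p => decide (p ≤ (q:ℕ))) (fun c => decide (P.cl c < g))) ?_ ?_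
  · intro e he hne
    refine col_edge _ _ _ _ ?_ ?_ ?_
    · intro p hp
      have : (p:ℕ) ≠ q := by
        intro h
        have : p = q := Fin.ext h
        rw [hp, this] at he; exact hqx he
      simp only [decide_eq_decide]
      omega
    · intro c' _
      simp only [decide_eq_decide]
      rw [P.ps_le_iff, hq]
      omega
    · intro c' hc'
      simp only [decide_eq_decide]
      rw [P.ps_le_iff, hq]
      have h1 : P.cl c' ≠ g + 1 := by
        intro h; rw [hc'] at he; exact habs c' h he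
      have h2 : P.cl c' ≠ g := by
        intro h
        rw [hc'] at he hne
        have := hvy_unique hx.1 he hfx (hx.2 _ _) (hx.2 _ _) (h.trans hf.symm)
        rw [this] at hne
        exact hne rfl
      omega
  · have hcκ := P.cl_lt_C c
    simp only [esrc, edst]
    rw [col_chd_same, col_pv _ _ _ (P.ps_le_L (by omega)), hc]
    have h1 : ¬ (g + 1 < g) := by omega
    have h2 : P.ps (g+1) ≤ (q:ℕ) := (P.ps_le_iff _ _).2 (by omega)
    simp [h2]

/-- the family of improving swaps of a living gadget -/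
lemma improving {x : Finset (Edg P)} (hx : NT x) {i : Fin P.R} {M0 W0 : ℕ}
    (hMW : M0 + W0 ≤ P.κ + 1) (hW : preN x i P.κ ≤ W0) (h0 : 0 < eta M0 x i) :
    ∃ s t : Fin P.k → Edg P, (∀ r, s r ∈ x ∧ t r ∉ x ∧ gid (s r) = i ∧ gid (t r) = i ∧
      om (t r) < om (s r) ∧ Tr (insert (t r) (x.erase (s r)))) ∧
      Function.Injective (fun r => ({s r, t r} : Finset (Edg P))) := by
  obtain ⟨c0, hc0, he0⟩ := eta_attained h0
  set b := P.cl c0 with hb
  set d := fl x i b with hd
  have hbd : b ≤ d := le_fl x i b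
  have hdb : d ≠ b := by
    intro h
    exact fl_absent x i b c0 (by omega) hc0.1
  have hcard : d - b ≤ preN x i P.κ := by
    have h1 : Ico b d ⊆ (univ.filter fun c : Fin P.C => P.cl c ≤ P.κ ∧ Edg.hvy i c ∈ x).image
        (fun c : Fin P.C => P.cl c) := by
      intro e he
      rw [mem_Ico] at he
      obtain ⟨c, h1, h2⟩ := fl_present x i b e he.1 he.2
      rw [mem_image]
      refine ⟨c, ?_, h1⟩
      simp only [mem_filter, mem_univ, true_and]
      exact ⟨P.cl_lt_C c, h2⟩
    have h2 := (card_le_card h1).trans card_image_le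
    rw [Nat.card_Ico] at h2
    exact h2
  have hdκ : d ≤ P.κ := by omega
  obtain ⟨g, hg⟩ : ∃ g, d = g + 1 := ⟨d - 1, by omega⟩
  obtain ⟨f, hf, hfx⟩ := fl_present x i b g (by omega) (by omega)
  have habs : ∀ c : Fin P.C, P.cl c = g + 1 → Edg.hvy i c ∉ x := fun c hc =>
    fl_absent x i b c (by omega)
  have hAB := misN_le_preN hx.1.1 i g
  rcases Nat.lt_or_ge (misN x i g) (preN x i g) with h1 | h1
  · -- type 1
    have h2 := preN_le_misN hx.1 hx.2 i g
    have h3 : ∃ q : Fin P.L, P.cl q = g + 1 ∧ Edg.pth i q ∉ x := by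
      by_contra hc
      push Not at hc
      have := misN_pred hc
      omega
    obtain ⟨q, hq, hqx⟩ := h3
    have hpos : ∀ r : Fin P.k, P.N + g * P.k + r < P.C := by
      intro r
      have h4 := (P.cl_le_iff (P.N + g * P.k + r) P.κ).1 (by rw [P.cl_add _ _ r.2]; omega)
      exact h4
    refine ⟨fun _ => Edg.hvy i f, fun r => Edg.hvy i ⟨P.N + g * P.k + r, hpos r⟩, ?_, ?_⟩
    · intro r
      have hcl : P.cl ((⟨P.N + g * P.k + r, hpos r⟩ : Fin P.C) : ℕ) = g + 1 := P.cl_add _ _ r.2
      refine ⟨hfx, habs _ hcl, rfl, rfl, ?_, swap1 hx hf hfx hq hqx habs hcl⟩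
      simp only [om]
      rw [hf]
      simp only at hcl
      omega
    · intro r r' h
      simp only at h
      have h5 : Edg.hvy i ⟨P.N + g * P.k + r, hpos r⟩ ∈
          ({Edg.hvy i f, Edg.hvy i ⟨P.N + g * P.k + r', hpos r'⟩} : Finset (Edg P)) := by
        rw [← h]; simp
      rw [mem_insert, mem_singleton] at h5
      rcases h5 with h5 | h5
      · exfalso
        injection h5 with _ h5
        rw [← h5] at hf
        have := P.cl_add g r r.2
        simp only at hf
        omega
      · injection h5 with _ h5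
        injection h5 with h5
        exact Fin.ext (by omega)
  · -- type 0
    have h2 : misN x i g = preN x i g := by omega
    obtain ⟨z, hz, hzx⟩ := missing_in_segment hx hf hfx h2
    have hfull : ∀ p : Fin P.L, P.cl p = g + 1 → Edg.pth i p ∈ x := by
      intro p hp
      by_contra hpx
      have h3 := misN_succ_ge hp hpx
      have h4 := misN_le_preN hx.1.1 i (g+1)
      have h5 := preN_pred habs
      omega
    have hpos : ∀ r : Fin P.k, P.N + g * P.k + r < P.L := by
      intro r
      have h4 := (P.cl_le_iff (P.N + g * P.k + r) (P.κ+1)).1 (by rw [P.cl_add _ _ r.2]; omega)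
      exact h4
    refine ⟨fun r => Edg.pth i ⟨P.N + g * P.k + r, hpos r⟩, fun _ => Edg.pth i z, ?_, ?_⟩
    · intro r
      have hcl : P.cl ((⟨P.N + g * P.k + r, hpos r⟩ : Fin P.L) : ℕ) = g + 1 := P.cl_add _ _ r.2
      refine ⟨hfull _ hcl, hzx, rfl, rfl, ?_, swap0 hx hf hfx hz hzx hcl hfull⟩
      simp only [om]
      rw [hz]
      simp only at hcl
      omega
    · intro r r' h
      simp only at h
      have h5 : Edg.pth i ⟨P.N + g * P.k + r, hpos r⟩ ∈
          ({Edg.pth i ⟨P.N + g * P.k + r', hpos r'⟩, Edg.pth i z} : Finset (Edg P)) := by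
        rw [← h]; simp
      rw [mem_insert, mem_singleton] at h5
      rcases h5 with h5 | h5
      · injection h5 with _ h5
        injection h5 with h5
        exact Fin.ext (by omega)
      · exfalso
        injection h5 with _ h5
        rw [← h5] at hz
        have := P.cl_add g r r.2
        simp only at hz
        omega

/-- resets -/
lemma reset_tree {x : Finset (Edg P)} (hx : NT x) {j : Fin P.R}
    (habs : ∀ c : Fin P.C, (c:ℕ) < P.N → Edg.hvy j c ∉ x) {z : Fin P.L} {c : Fin P.C}
    (hz : (z:ℕ) < P.N) (hc : (c:ℕ) < P.N) :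
    Edg.pth j z ∈ x ∧ Tr (insert (Edg.hvy j c) (x.erase (Edg.pth j z))) := by
  have hz0 := (P.cl_eq_zero_iff z).2 hz
  have hc0 := (P.cl_eq_zero_iff c).2 hc
  have habs' : ∀ c : Fin P.C, P.cl c = 0 → Edg.hvy j c ∉ x := fun c hc =>
    habs c ((P.cl_eq_zero_iff c).1 hc)
  have h1 : Edg.pth j z ∈ x := by
    by_contra h
    have h2 : 1 ≤ misN x j 0 := misN_pos.2 ⟨z, by omega, h⟩
    have h3 := misN_le_preN hx.1.1 j 0
    obtain ⟨c', hc', hx'⟩ := preN_pos.1 (h2.trans h3)
    exact habs' c' (by omega) hx'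
  refine ⟨h1, ?_⟩
  refine hx.1.exchange_cut h1 (habs c hc) (col j (fun p => decide (p ≤ (z:ℕ))) (fun _ => false)) ?_ ?_
  · intro e he hne
    refine col_edge _ _ _ _ ?_ ?_ ?_
    · intro p hp
      have : (p:ℕ) ≠ z := by
        intro h
        have : p = z := Fin.ext h
        rw [hp, this] at hne; exact hne rfl
      simp only [decide_eq_decide]
      omega
    · intro c' _
      have : ¬ (P.ps (P.cl c' + 2) ≤ (z:ℕ)) := by rw [P.ps_le_iff, hz0]; omega
      simp [this]
    · intro c' hc'
      have : ¬ (P.ps (P.cl c') ≤ (z:ℕ)) := by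
        rw [P.ps_le_iff, hz0]
        intro h
        rw [hc'] at he
        exact habs' c' (by omega) he
      simp [this]
  · simp only [esrc, edst]
    rw [col_chd_same, col_pv _ _ _ (P.ps_le_L (by omega)), hc0]
    simp [Par.ps]

end Pool.Agent.helper1.MST
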