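import Mathlib
import Pool.Agent.helper1.MST.Moves

open scoped Classical
open Finset

namespace Pool.Agent.helper1.MST

set_option linter.unusedSectionVars false
set_option linter.unusedVariables false

variable {P : Par}

lemma card_fin_Ico (n a b : ℕ) (S : Finset (Fin n)) (h : ∀ p ∈ S, a ≤ (p:ℕ) ∧ (p:ℕ) < b) :
    S.card ≤ b - a := by
  rw [← Nat.card_Ico]
  refine card_le_card_of_injOn (fun p : Fin n => (p:ℕ)) ?_ ?_
  · intro p hp
    have := h p hp
    simp only [coe_Ico, Set.mem_Ico]
    exact this
  · intro p _ q _ h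
    exact Fin.ext h

lemma card_class (d : ℕ) (hd : 1 ≤ d) :
    (univ.filter fun c : Fin P.C => P.cl c = d).card ≤ P.k := by
  obtain ⟨e, rfl⟩ : ∃ e, d = e + 1 := ⟨d - 1, by omega⟩
  have h1 := card_fin_Ico P.C (P.N + e * P.k) (P.N + (e+1) * P.k)
    (univ.filter fun c : Fin P.C => P.cl c = e + 1) (by
      intro c hc
      simp only [mem_filter, mem_univ, true_and] at hc
      exact ⟨(P.le_cl_succ_iff c e).1 (by omega), (P.cl_le_iff c (e+1)).1 (by omega)⟩)
  rw [add_mul] at h1
  omega

/-- at most one present chord of class zero -/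
lemma card_present0 {x : Finset (Edg P)} (hx : NT x) (i : Fin P.R) :
    (univ.filter fun c : Fin P.C => (c:ℕ) < P.N ∧ Edg.hvy i c ∈ x).card ≤ 1 := by
  rw [card_le_one]
  intro a ha b hb
  simp only [mem_filter, mem_univ, true_and] at ha hb
  have h1 := (P.cl_eq_zero_iff a).2 ha.1
  have h2 := (P.cl_eq_zero_iff b).2 hb.1
  exact hvy_unique hx.1 ha.2 hb.2 (hx.2 _ _) (hx.2 _ _) (h1.trans h2.symm)

lemma card_missing0 {x : Finset (Edg P)} (hx : NT x) (i : Fin P.R) :
    (univ.filter fun p : Fin P.L => (p:ℕ) < P.N ∧ Edg.pth i p ∉ x).card ≤ 1 := by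
  rw [card_le_one]
  intro a ha b hb
  simp only [mem_filter, mem_univ, true_and] at ha hb
  have h1 := (P.cl_eq_zero_iff a).2 ha.1
  have h2 := (P.cl_eq_zero_iff b).2 hb.1
  exact miss_unique hx.1.1 ha.2 hb.2 (h1.trans h2.symm)

lemma preN_le_thn {x : Finset (Edg P)} (hx : NT x) (i : Fin P.R) (d : ℕ) :
    preN x i d ≤ thn x i + 1 := by
  have h1 := card_present0 hx i
  have h2 : preN x i d ≤ thn x i + (univ.filter fun c : Fin P.C => (c:ℕ) < P.N ∧ Edg.hvy i c ∈ x).card := by
    unfold preN thn
    refine le_trans (card_le_card ?_) (card_union_le _ _)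
    intro c hc
    simp only [mem_union, mem_filter, mem_univ, true_and] at hc ⊢
    rcases Nat.lt_or_ge (c:ℕ) P.N with h | h
    · right; exact ⟨h, hc.2⟩
    · left; exact ⟨h, hc.2⟩
  omega

lemma card_missing_le {x : Finset (Edg P)} (hx : NT x) (i : Fin P.R) :
    (univ.filter fun p : Fin P.L => Edg.pth i p ∉ x).card ≤ thn x i + 1 := by
  have h1 : (univ.filter fun p : Fin P.L => Edg.pth i p ∉ x).card = misN x i (P.κ + 1) := by
    unfold misN
    congr 1
    ext p
    simp only [mem_filter, mem_univ, true_and]
    exact ⟨fun h => ⟨P.cl_lt_L p, h⟩, fun h => h.2⟩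
  rw [h1]
  exact (misN_le_preN hx.1.1 i _).trans (preN_le_thn hx i _)

/-- number of specific edges -/
lemma card_Sp_le {x : Finset (Edg P)} (hx : NT x) :
    (Sp x).card ≤ P.R * (3 * ((P.κ + 1) * P.k) + 3) := by
  have hgad : ∀ i : Fin P.R, (gpart (Sp x) i).card ≤ 3 * ((P.κ + 1) * P.k) + 3 := by
    intro i
    set A := (univ.filter fun p : Fin P.L => P.N ≤ (p:ℕ) ∨ Edg.pth i p ∉ x) with hA
    set B := (univ.filter fun c : Fin P.C => P.N ≤ (c:ℕ) ∨ Edg.hvy i c ∈ x) with hB
    have hAc : A.card ≤ (P.κ + 1) * P.k + 1 := by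
      have h1 : A ⊆ (univ.filter fun p : Fin P.L => P.N ≤ (p:ℕ)) ∪
          (univ.filter fun p : Fin P.L => (p:ℕ) < P.N ∧ Edg.pth i p ∉ x) := by
        intro p hp
        simp only [hA, mem_union, mem_filter, mem_univ, true_and] at hp ⊢
        rcases Nat.lt_or_ge (p:ℕ) P.N with h | h
        · right; exact ⟨h, by rcases hp with h' | h'; omega; exact h'⟩
        · left; exact h
      have h2 := (card_le_card h1).trans (card_union_le _ _)
      have h3 := card_missing0 hx i
      have h4 := card_fin_Ico P.L P.N P.L (univ.filter fun p : Fin P.L => P.N ≤ (p:ℕ)) (by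
        intro p hp
        simp only [mem_filter, mem_univ, true_and] at hp
        exact ⟨hp, p.2⟩)
      have h5 : P.L - P.N = (P.κ + 1) * P.k := by unfold Par.L; omega
      omega
    have hBc : B.card ≤ (P.κ + 1) * P.k + 1 := by
      have h1 : B ⊆ (univ.filter fun p : Fin P.C => P.N ≤ (p:ℕ)) ∪
          (univ.filter fun p : Fin P.C => (p:ℕ) < P.N ∧ Edg.hvy i p ∈ x) := by
        intro p hp
        simp only [hB, mem_union, mem_filter, mem_univ, true_and] at hp ⊢
        rcases Nat.lt_or_ge (p:ℕ) P.N with h | h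
        · right; exact ⟨h, by rcases hp with h' | h'; omega; exact h'⟩
        · left; exact h
      have h2 := (card_le_card h1).trans (card_union_le _ _)
      have h3 := card_present0 hx i
      have h4 := card_fin_Ico P.C P.N P.C (univ.filter fun p : Fin P.C => P.N ≤ (p:ℕ)) (by
        intro p hp
        simp only [mem_filter, mem_univ, true_and] at hp
        exact ⟨hp, p.2⟩)
      have h5 : P.C - P.N = P.κ * P.k := by unfold Par.C; omega
      have h6 : P.κ * P.k ≤ (P.κ + 1) * P.k := Nat.mul_le_mul_right _ (by omega)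
      omega
    have hsub : gpart (Sp x) i ⊆ A.image (Edg.pth i) ∪ (B.image (Edg.pen i) ∪ B.image (Edg.hvy i)) := by
      intro e he
      rw [mem_gpart] at he
      simp only [Sp, mem_filter, mem_univ, true_and] at he
      rw [mem_union, mem_union, mem_image, mem_image, mem_image]
      cases e with
      | pth i' p =>
        have : i' = i := Fin.ext he.2
        subst this
        exact Or.inl ⟨p, by simp only [hA, mem_filter, mem_univ, true_and]; exact he.1, rfl⟩
      | pen i' c =>
        have : i' = i := Fin.ext he.2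
        subst this
        exact Or.inr (Or.inl ⟨c, by simp only [hB, mem_filter, mem_univ, true_and]; exact he.1, rfl⟩)
      | hvy i' c =>
        have : i' = i := Fin.ext he.2
        subst this
        exact Or.inr (Or.inr ⟨c, by simp only [hB, mem_filter, mem_univ, true_and]; exact he.1, rfl⟩)
      | dum q => exact absurd he.1 (by simp [spec])
    have h1 := card_le_card hsub
    have h2 := card_union_le (A.image (Edg.pth i)) (B.image (Edg.pen i) ∪ B.image (Edg.hvy i))
    have h3 := card_union_le (B.image (Edg.pen (P := P) i)) (B.image (Edg.hvy i))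
    have h4 := card_image_le (s := A) (f := Edg.pth (P := P) i)
    have h5 := card_image_le (s := B) (f := Edg.pen (P := P) i)
    have h6 := card_image_le (s := B) (f := Edg.hvy (P := P) i)
    omega
  rw [card_eq_sum_gpart, sum_range_succ]
  have h0 : gpart (Sp x) P.R = ∅ := by
    rw [eq_empty_iff_forall_notMem]
    intro e he
    rw [mem_gpart] at he
    simp only [Sp, mem_filter, mem_univ, true_and] at he
    cases e with
    | pth i p => have := he.2; simp only [gid] at this; have := i.2; omega
    | pen i p => have := he.2; simp only [gid] at this; have := i.2; omega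
    | hvy i p => have := he.2; simp only [gid] at this; have := i.2; omega
    | dum q => exact absurd he.1 (by simp [spec])
  rw [h0, card_empty, add_zero]
  calc ∑ i ∈ range P.R, (gpart (Sp x) i).card ≤ ∑ i ∈ range P.R, (3 * ((P.κ + 1) * P.k) + 3) :=
        sum_le_sum fun i hi => hgad ⟨i, mem_range.1 hi⟩
    _ = _ := by simp

end Pool.Agent.helper1.MST
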