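import Mathlib
import Pool.Agent.helper1.MST.Sizes
import Pool.Agent.helper1.MST.Prob

open scoped Classical
open Finset

namespace Pool.Agent.helper1.MST

set_option linter.unusedSectionVars false
set_option linter.unusedVariables false

variable {P : Par}

lemma minc_unique {x : Finset (Edg P)} (hx : NT x) {i : Fin P.R} {c c' : Fin P.C}
    (h : minc x i c) (h' : minc x i c') : c = c' :=
  hvy_unique hx.1 h.1 h'.1 (hx.2 _ _) (hx.2 _ _) (le_antisymm (h.2 c' h'.1) (h'.2 c h.1))

lemma minp_unique {x : Finset (Edg P)} {i : Fin P.R} {p p' : Fin P.L}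
    (h : minp x i p) (h' : minp x i p') : p = p' :=
  le_antisymm (h.2 p' h'.1) (h'.2 p h.1)

lemma Pr_DD {x : Finset (Edg P)} (hx : NT x) (i : Fin P.R) :
    Pr (fun F => DD x F i) ≤ (1 / (Fintype.card (Edg P) : ℝ)) ^ 2 := by
  by_cases hc : ∃ c p, minc x i c ∧ minp x i p
  · obtain ⟨c, p, hc, hp⟩ := hc
    have h1 := Pr_le (fun F => DD x F i) {({Edg.hvy i c, Edg.pth i p} : Finset (Edg P))} 2 (by
      intro G hG
      rw [mem_singleton] at hG
      rw [hG]
      exact card_pair (by simp)) (by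
      intro F hF
      obtain ⟨c', p', g1, g2, g3, g4⟩ := hF
      refine ⟨_, mem_singleton_self _, ?_⟩
      rw [minc_unique hx hc g1, minp_unique hp g2]
      intro e he
      rw [mem_insert, mem_singleton] at he
      rcases he with he | he
      · rw [he]; exact g3
      · rw [he]; exact g4)
    rw [card_singleton, Nat.cast_one, one_mul] at h1
    exact h1
  · have h1 := Pr_le (fun F => DD x F i) ∅ 2 (by simp) (by
      intro F hF
      obtain ⟨c', p', g1, g2, g3, g4⟩ := hF
      exact absurd ⟨c', p', g1, g2⟩ hc)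
    rw [card_empty, Nat.cast_zero, zero_mul] at h1
    exact h1.trans (pow_nonneg (one_div_m_nonneg (Edg P)) _)

lemma Pr_EE {x : Finset (Edg P)} (hx : NT x) (i : Fin P.R) (W : ℕ) (hW : thn x i + 1 ≤ W) :
    Pr (fun F => EE x F i) ≤ ((W + P.k : ℕ) : ℝ) * (1 / (Fintype.card (Edg P) : ℝ)) ^ 2 := by
  have hpos := pow_nonneg (one_div_m_nonneg (Edg P)) 2
  by_cases hc : ∃ c, minc x i c
  · obtain ⟨c, hc⟩ := hc
    have hd : 1 ≤ fl x i (P.cl c) := by
      by_contra h
      have h2 := le_fl x i (P.cl c)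
      exact fl_absent x i (P.cl c) c (by omega) hc.1
    set 𝓖 : Finset (Finset (Edg P)) :=
      (univ.filter fun p : Fin P.L => Edg.pth i p ∉ x).image (fun p => {Edg.hvy i c, Edg.pth i p}) ∪
      (univ.filter fun c' : Fin P.C => P.cl c' = fl x i (P.cl c)).image
        (fun c' => {Edg.hvy i c, Edg.hvy i c'}) with h𝓖
    have h1 := Pr_le (fun F => EE x F i) 𝓖 2 (by
      intro G hG
      rw [h𝓖, mem_union, mem_image, mem_image] at hG
      rcases hG with ⟨p, hp, rfl⟩ | ⟨c', hc', rfl⟩
      · exact card_pair (by simp)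
      · simp only [mem_filter, mem_univ, true_and] at hc'
        refine card_pair ?_
        intro h
        injection h with _ h
        rw [← h] at hc'
        exact fl_absent x i (P.cl c) c hc' hc.1) (by
      intro F hF
      obtain ⟨c1, g1, g2, g3⟩ := hF
      have := minc_unique hx hc g1
      subst this
      rcases g3 with ⟨p, g3, g4⟩ | ⟨c', g3, g4⟩
      · refine ⟨{Edg.hvy i c, Edg.pth i p}, ?_, ?_⟩
        · rw [h𝓖, mem_union, mem_image]
          exact Or.inl ⟨p, by simp only [mem_filter, mem_univ, true_and]; exact g3, rfl⟩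
        · intro e he
          rw [mem_insert, mem_singleton] at he
          rcases he with he | he
          · rw [he]; exact g2
          · rw [he]; exact g4
      · refine ⟨{Edg.hvy i c, Edg.hvy i c'}, ?_, ?_⟩
        · rw [h𝓖, mem_union, mem_image, mem_image]
          exact Or.inr ⟨c', by simp only [mem_filter, mem_univ, true_and]; exact g3, rfl⟩
        · intro e he
          rw [mem_insert, mem_singleton] at he
          rcases he with he | he
          · rw [he]; exact g2
          · rw [he]; exact g4)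
    refine h1.trans (mul_le_mul_of_nonneg_right ?_ hpos)
    have h2 : 𝓖.card ≤ W + P.k := by
      rw [h𝓖]
      refine (card_union_le _ _).trans ?_
      refine Nat.add_le_add (card_image_le.trans ((card_missing_le hx i).trans hW)) ?_
      exact card_image_le.trans (card_class _ hd)
    exact_mod_cast h2
  · have h1 := Pr_le (fun F => EE x F i) ∅ 2 (by simp) (by
      intro F hF
      obtain ⟨c', g1, _⟩ := hF
      exact absurd ⟨c', g1⟩ hc)
    rw [card_empty, Nat.cast_zero, zero_mul] at h1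
    refine h1.trans (mul_nonneg (Nat.cast_nonneg _) hpos)

lemma Pr_UU {x : Finset (Edg P)} (hx : NT x) (i : Fin P.R) :
    Pr (fun F => UU x F i) ≤ (P.k : ℝ) * (1 / (Fintype.card (Edg P) : ℝ)) ^ 2 := by
  have hpos := pow_nonneg (one_div_m_nonneg (Edg P)) 2
  by_cases hc : ∃ c : Fin P.C, (c:ℕ) < P.N ∧ Edg.hvy i c ∈ x
  · obtain ⟨c, hcN, hc⟩ := hc
    have hc0 := (P.cl_eq_zero_iff c).2 hcN
    have hd : 1 ≤ fl x i 0 := by
      by_contra h
      exact fl_absent x i 0 c (by omega) hc
    set 𝓖 : Finset (Finset (Edg P)) :=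
      (univ.filter fun c' : Fin P.C => P.cl c' = fl x i 0).image
        (fun c' => {Edg.hvy i c, Edg.hvy i c'}) with h𝓖
    have h1 := Pr_le (fun F => UU x F i) 𝓖 2 (by
      intro G hG
      rw [h𝓖, mem_image] at hG
      obtain ⟨c', hc', rfl⟩ := hG
      simp only [mem_filter, mem_univ, true_and] at hc'
      refine card_pair ?_
      intro h
      injection h with _ h
      rw [← h] at hc'
      exact fl_absent x i 0 c hc' hc) (by
      intro F hF
      obtain ⟨c1, g0, g1, g2, c', g3, g4⟩ := hF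
      have : c = c1 := hvy_unique hx.1 hc g1 (hx.2 _ _) (hx.2 _ _)
        (hc0.trans ((P.cl_eq_zero_iff c1).2 g0).symm)
      subst this
      refine ⟨{Edg.hvy i c, Edg.hvy i c'}, ?_, ?_⟩
      · rw [h𝓖, mem_image]
        exact ⟨c', by simp only [mem_filter, mem_univ, true_and]; exact g3, rfl⟩
      · intro e he
        rw [mem_insert, mem_singleton] at he
        rcases he with he | he
        · rw [he]; exact g2
        · rw [he]; exact g4)
    refine h1.trans (mul_le_mul_of_nonneg_right ?_ hpos)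
    have h2 : 𝓖.card ≤ P.k := by
      rw [h𝓖]
      exact card_image_le.trans (card_class _ hd)
    exact_mod_cast h2
  · have h1 := Pr_le (fun F => UU x F i) ∅ 2 (by simp) (by
      intro F hF
      obtain ⟨c1, g0, g1, _⟩ := hF
      exact absurd ⟨c1, g0, g1⟩ hc)
    rw [card_empty, Nat.cast_zero, zero_mul] at h1
    refine h1.trans (mul_nonneg (Nat.cast_nonneg _) hpos)

lemma Pr_XX {x : Finset (Edg P)} (hx : NT x) (n : ℕ) (hn : (Sp x).card ≤ n) (hn1 : 1 ≤ n)
    (hm : 1 ≤ Fintype.card (Edg P)) :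
    Pr (fun F => XX x F) ≤ 2 * (n:ℝ) ^ 3 * (1 / (Fintype.card (Edg P) : ℝ)) ^ 3 := by
  have h1 := Pr_card_ge (Sp x) 3 n hn
  have h2 := Pr_pair (Sp x) n hn (Fin P.R × Fin P.C)
    (univ.filter fun g => ¬ spec x (Edg.pen g.1 g.2))
    (fun g => (Edg.pen g.1 g.2 : Edg P)) (fun g => (Edg.hvy g.1 g.2 : Edg P))
    (by intro g _; simp) (by
      intro g hg
      simp only [mem_filter, mem_univ, true_and] at hg
      simp only [Sp, mem_filter, mem_univ, true_and]
      exact hg) (by
      intro g hg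
      simp only [mem_filter, mem_univ, true_and] at hg
      simp only [Sp, mem_filter, mem_univ, true_and]
      exact hg)
  have h3 : Pr (fun F => XX x F) ≤ Pr (fun F => 3 ≤ (F ∩ Sp x).card ∨
      (2 ≤ (F ∩ Sp x).card ∧ ∃ g ∈ (univ.filter fun g : Fin P.R × Fin P.C => ¬ spec x (Edg.pen g.1 g.2)),
        (Edg.pen g.1 g.2 : Edg P) ∈ F ∧ (Edg.hvy g.1 g.2 : Edg P) ∈ F)) := by
    apply Pr_mono
    rintro F (h | ⟨h, i, c, g1, g2, g3⟩)
    · exact Or.inl h
    · exact Or.inr ⟨h, (i, c), by simp only [mem_filter, mem_univ, true_and]; exact g1, g2, g3⟩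
  have h4 := h3.trans (Pr_or_le _ _)
  have h5 : ((univ.filter fun g : Fin P.R × Fin P.C => ¬ spec x (Edg.pen g.1 g.2)).card : ℝ) ≤
      (Fintype.card (Edg P) : ℝ) := by
    have h6 := card_filter_le (univ : Finset (Fin P.R × Fin P.C)) (fun g => ¬ spec x (Edg.pen g.1 g.2))
    rw [card_univ, Fintype.card_prod, Fintype.card_fin, Fintype.card_fin] at h6
    have h7 : P.R * P.C ≤ Fintype.card (Edg P) := by
      rw [card_edg]
      have : P.R * P.C ≤ P.R * (P.L + 2 * P.C) := Nat.mul_le_mul_left _ (by omega)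
      omega
    exact_mod_cast h6.trans h7
  have hm' : (1:ℝ) ≤ (Fintype.card (Edg P) : ℝ) := by exact_mod_cast hm
  have hmne : (Fintype.card (Edg P) : ℝ) ≠ 0 := by linarith
  have hn' : (1:ℝ) ≤ n := by exact_mod_cast hn1
  have h6 : ((n:ℝ) ^ 2 * ((univ.filter fun g : Fin P.R × Fin P.C => ¬ spec x (Edg.pen g.1 g.2)).card : ℝ))
      * (1 / (Fintype.card (Edg P) : ℝ)) ^ 4 ≤ (n:ℝ) ^ 3 * (1 / (Fintype.card (Edg P) : ℝ)) ^ 3 := by
    calc ((n:ℝ) ^ 2 * ((univ.filter fun g : Fin P.R × Fin P.C => ¬ spec x (Edg.pen g.1 g.2)).card : ℝ))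
      * (1 / (Fintype.card (Edg P) : ℝ)) ^ 4 ≤ ((n:ℝ) ^ 2 * (Fintype.card (Edg P) : ℝ)) * (1 / (Fintype.card (Edg P) : ℝ)) ^ 4 := by
          gcongr
      _ = (n:ℝ) ^ 2 * (1 / (Fintype.card (Edg P) : ℝ)) ^ 3 := by field_simp
      _ ≤ (n:ℝ) ^ 3 * (1 / (Fintype.card (Edg P) : ℝ)) ^ 3 := by
          gcongr
          norm_num
  linarith

end Pool.Agent.helper1.MST
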