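import Mathlib
import Pool.Agent.helper1.MST.Moves

open scoped Classical
open Finset

namespace Pool.Agent.helper1.MST

set_option linter.unusedSectionVars false
set_option linter.unusedVariables false

variable {P : Par}

lemma nt_of_swap {x : Finset (Edg P)} (hx : NT x) {s t : Edg P} (hst : om t < om s)
    (h : Tr (insert t (x.erase s))) : NT (insert t (x.erase s)) := by
  refine ⟨h, fun i c => ?_⟩
  rw [mem_insert, mem_erase]
  right
  refine ⟨?_, hx.2 i c⟩
  intro h'
  rw [← h'] at hst
  have h1 : om (Edg.pen i c) = 1 := rfl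
  have h2 := om_pos t
  omega

/-- the combination of an improving swap in the gadget `l` and a reset of the gadget `j > l` -/
lemma gain_state {x : Finset (Edg P)} (hx : NT x) {l j : Fin P.R} (hlj : (l:ℕ) < j)
    {s t : Edg P} (hs : s ∈ x) (ht : t ∉ x) (gs : gid s = l) (gt : gid t = l) (hst : om t < om s)
    (htr : Tr (insert t (x.erase s)))
    (habs : ∀ c : Fin P.C, (c:ℕ) < P.N → Edg.hvy j c ∉ x) {z : Fin P.L} {c : Fin P.C}
    (hz : (z:ℕ) < P.N) (hc : (c:ℕ) < P.N) :
    Tr (symmDiff x {s, t, Edg.pth j z, Edg.hvy j c}) ∧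
    ∑ e ∈ symmDiff x {s, t, Edg.pth j z, Edg.hvy j c}, ww e ≤ ∑ e ∈ x, ww e ∧
    Edg.hvy j c ∈ symmDiff x {s, t, Edg.pth j z, Edg.hvy j c} ∧
    ({s, t, Edg.pth j z, Edg.hvy j c} : Finset (Edg P)).card = 4 := by
  have hne : s ≠ t := fun h => ht (h ▸ hs)
  have hlj' : l ≠ j := fun h => by rw [h] at hlj; exact lt_irrefl _ hlj
  have ht' : ∀ c, t ≠ Edg.hvy j c := by
    intro c h; rw [h] at gt; simp only [gid] at gt; omega
  have hs' : ∀ c, s ≠ Edg.hvy j c := by
    intro c h; rw [h] at gs; simp only [gid] at gs; omega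
  have htz : ∀ c, t ≠ Edg.pth j c := by
    intro c h; rw [h] at gt; simp only [gid] at gt; omega
  have hsz : ∀ c, s ≠ Edg.pth j c := by
    intro c h; rw [h] at gs; simp only [gid] at gs; omega
  have hx1 := nt_of_swap hx hst htr
  have habs1 : ∀ c : Fin P.C, (c:ℕ) < P.N → Edg.hvy j c ∉ insert t (x.erase s) := by
    intro c hc h
    rw [mem_insert, mem_erase] at h
    rcases h with h | ⟨_, h⟩
    · exact ht' c h.symm
    · exact habs c hc h
  obtain ⟨hzx1, htr2⟩ := reset_tree hx1 habs1 hz hc
  have hzx : Edg.pth j z ∈ x := by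
    rw [mem_insert, mem_erase] at hzx1
    rcases hzx1 with h | ⟨_, h⟩
    · exact absurd h.symm (htz z)
    · exact h
  have hcx := habs c hc
  have heq : symmDiff x {s, t, Edg.pth j z, Edg.hvy j c} =
      insert (Edg.hvy j c) ((insert t (x.erase s)).erase (Edg.pth j z)) := by
    ext e
    simp only [mem_symmDiff, mem_insert, mem_singleton, mem_erase]
    constructor
    · rintro (⟨h1, h2⟩ | ⟨h1 | h1 | h1 | h1, h2⟩)
      · push Not at h2
        right
        exact ⟨h2.2.2.1, Or.inr ⟨h2.1, h1⟩⟩
      · rw [h1] at h2; exact absurd hs h2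
      · right
        exact ⟨fun h => htz z (h1.symm.trans h), Or.inl h1⟩
      · rw [h1] at h2; exact absurd hzx h2
      · left; exact h1
    · rintro (h1 | ⟨h1, h2 | ⟨h2, h3⟩⟩)
      · right
        exact ⟨Or.inr (Or.inr (Or.inr h1)), by rw [h1]; exact hcx⟩
      · right
        exact ⟨Or.inr (Or.inl h2), by rw [h2]; exact ht⟩
      · left
        refine ⟨h3, ?_⟩
        rintro (h | h | h | h)
        · exact h2 h
        · rw [h] at h3; exact ht h3
        · exact h1 h
        · rw [h] at h3; exact hcx h3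
  have htrF : Tr (symmDiff x {s, t, Edg.pth j z, Edg.hvy j c}) := by
    rw [heq]; exact htr2
  refine ⟨htrF, ?_, ?_, ?_⟩
  · rw [weight_eq, weight_eq, gpart_dum htrF.1, gpart_dum hx.1.1]
    apply Nat.add_le_add_right
    apply le_of_lt
    refine hor_lt P.R (fun i => wt_lt _ i) l l.2 ?_ ?_
    · have h1 := gsum_symmDiff x {s, t, Edg.pth j z, Edg.hvy j c} l om
      have h2 : gpart ({s, t, Edg.pth j z, Edg.hvy j c} ∩ x) (l:ℕ) = {s} := by
        ext e
        rw [mem_gpart, mem_inter, mem_insert, mem_insert, mem_insert, mem_singleton, mem_singleton]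
        constructor
        · rintro ⟨⟨h1 | h1 | h1 | h1, h2⟩, h3⟩
          · exact h1
          · rw [h1] at h2; exact absurd h2 ht
          · rw [h1] at h3; simp only [gid] at h3; omega
          · rw [h1] at h3; simp only [gid] at h3; omega
        · intro h
          rw [h]
          exact ⟨⟨Or.inl rfl, hs⟩, gs⟩
      have h3 : gpart ({s, t, Edg.pth j z, Edg.hvy j c} \ x) (l:ℕ) = {t} := by
        ext e
        rw [mem_gpart, mem_sdiff, mem_insert, mem_insert, mem_insert, mem_singleton, mem_singleton]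
        constructor
        · rintro ⟨⟨h1 | h1 | h1 | h1, h2⟩, h3⟩
          · rw [h1] at h2; exact absurd hs h2
          · exact h1
          · rw [h1] at h3; simp only [gid] at h3; omega
          · rw [h1] at h3; simp only [gid] at h3; omega
        · intro h
          rw [h]
          exact ⟨⟨Or.inr (Or.inl rfl), ht⟩, gt⟩
      rw [h2, h3, sum_singleton, sum_singleton] at h1
      unfold wt
      omega
    · intro i hi
      have h1 := gsum_symmDiff x {s, t, Edg.pth j z, Edg.hvy j c} i om
      have h2 : gpart ({s, t, Edg.pth j z, Edg.hvy j c} ∩ x) i = ∅ := by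
        rw [eq_empty_iff_forall_notMem]
        intro e
        rw [mem_gpart, mem_inter, mem_insert, mem_insert, mem_insert, mem_singleton]
        rintro ⟨⟨h1 | h1 | h1 | h1, h2⟩, h3⟩
        · rw [h1, gs] at h3; omega
        · rw [h1, gt] at h3; omega
        · rw [h1] at h3; simp only [gid] at h3; omega
        · rw [h1] at h3; simp only [gid] at h3; omega
      have h3 : gpart ({s, t, Edg.pth j z, Edg.hvy j c} \ x) i = ∅ := by
        rw [eq_empty_iff_forall_notMem]
        intro e
        rw [mem_gpart, mem_sdiff, mem_insert, mem_insert, mem_insert, mem_singleton]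
        rintro ⟨⟨h1 | h1 | h1 | h1, h2⟩, h3⟩
        · rw [h1, gs] at h3; omega
        · rw [h1, gt] at h3; omega
        · rw [h1] at h3; simp only [gid] at h3; omega
        · rw [h1] at h3; simp only [gid] at h3; omega
      rw [h2, h3, sum_empty] at h1
      unfold wt
      omega
  · rw [heq]; exact mem_insert_self _ _
  · rw [card_insert_of_notMem, card_insert_of_notMem, card_insert_of_notMem, card_singleton]
    · rw [mem_singleton]; simp
    · rw [mem_insert, mem_singleton, not_or]
      exact ⟨htz z, ht' c⟩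
    · rw [mem_insert, mem_insert, mem_singleton, not_or, not_or]
      exact ⟨hne, hsz z, hs' c⟩

/-- the family of favourable flip sets -/
lemma gain_family {x : Finset (Edg P)} (hx : NT x) {l j : Fin P.R} (hlj : (l:ℕ) < j)
    {M0 W0 : ℕ} (hMW : M0 + W0 ≤ P.κ + 1) (hW : preN x l P.κ ≤ W0) (h0 : 0 < eta M0 x l)
    (hj : eta M0 x j < M0) :
    ∃ 𝓕 : Finset (Finset (Edg P)), 𝓕.card = P.k * (P.N * P.N) ∧ ∀ F ∈ 𝓕, F.card = 4 ∧
      Tr (symmDiff x F) ∧ ∑ e ∈ symmDiff x F, ww e ≤ ∑ e ∈ x, ww e ∧
      M0 ≤ eta M0 (symmDiff x F) j := by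
  obtain ⟨s, t, hst, hinj⟩ := improving hx hMW hW h0
  have habs : ∀ c : Fin P.C, (c:ℕ) < P.N → Edg.hvy j c ∉ x := by
    intro c hc h
    have h1 := eta_ge (M0 := M0) h
    rw [(P.cl_eq_zero_iff c).2 hc] at h1
    omega
  have hNL : P.N ≤ P.L := Nat.le_add_right _ _
  have hNC : P.N ≤ P.C := Nat.le_add_right _ _
  let Φ : Fin P.k × (Fin P.N × Fin P.N) → Finset (Edg P) := fun a =>
    {s a.1, t a.1, Edg.pth j (Fin.castLE hNL a.2.1), Edg.hvy j (Fin.castLE hNC a.2.2)}
  have hΦ : Function.Injective Φ := by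
    rintro ⟨r, z, c⟩ ⟨r', z', c'⟩ h
    have hg : ∀ r, gid (s r) = l ∧ gid (t r) = l := fun r => ⟨(hst r).2.2.1, (hst r).2.2.2.1⟩
    have hpart1 : ∀ r z c, gpart (Φ (r, z, c)) (l:ℕ) = {s r, t r} := by
      intro r z c
      ext e
      simp only [Φ, mem_gpart, mem_insert, mem_singleton]
      constructor
      · rintro ⟨h1 | h1 | h1 | h1, h3⟩
        · exact Or.inl h1
        · exact Or.inr h1
        · rw [h1] at h3; simp only [gid] at h3; omega
        · rw [h1] at h3; simp only [gid] at h3; omega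
      · rintro (h1 | h1)
        · rw [h1]; exact ⟨Or.inl rfl, (hg r).1⟩
        · rw [h1]; exact ⟨Or.inr (Or.inl rfl), (hg r).2⟩
    have hpart2 : ∀ r z c, gpart (Φ (r, z, c)) (j:ℕ) =
        {Edg.pth j (Fin.castLE hNL z), Edg.hvy j (Fin.castLE hNC c)} := by
      intro r z c
      ext e
      simp only [Φ, mem_gpart, mem_insert, mem_singleton]
      constructor
      · rintro ⟨h1 | h1 | h1 | h1, h3⟩
        · rw [h1, (hg r).1] at h3; omega
        · rw [h1, (hg r).2] at h3; omega
        · exact Or.inl h1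
        · exact Or.inr h1
      · rintro (h1 | h1)
        · rw [h1]; exact ⟨Or.inr (Or.inr (Or.inl rfl)), rfl⟩
        · rw [h1]; exact ⟨Or.inr (Or.inr (Or.inr rfl)), rfl⟩
    have e1 : ({s r, t r} : Finset (Edg P)) = {s r', t r'} := by
      rw [← hpart1 r z c, ← hpart1 r' z' c', h]
    have hr : r = r' := hinj e1
    have e2 : ({Edg.pth j (Fin.castLE hNL z), Edg.hvy j (Fin.castLE hNC c)} : Finset (Edg P)) =
        {Edg.pth j (Fin.castLE hNL z'), Edg.hvy j (Fin.castLE hNC c')} := by
      rw [← hpart2 r z c, ← hpart2 r' z' c', h]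
    have hz : z = z' := by
      have : Edg.pth j (Fin.castLE hNL z) ∈
          ({Edg.pth j (Fin.castLE hNL z'), Edg.hvy j (Fin.castLE hNC c')} : Finset (Edg P)) := by
        rw [← e2]; simp
      rw [mem_insert, mem_singleton] at this
      rcases this with h | h
      · injection h with _ h
        exact Fin.castLE_injective _ h
      · cases h
    have hc : c = c' := by
      have : Edg.hvy j (Fin.castLE hNC c) ∈
          ({Edg.pth j (Fin.castLE hNL z'), Edg.hvy j (Fin.castLE hNC c')} : Finset (Edg P)) := by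
        rw [← e2]; simp
      rw [mem_insert, mem_singleton] at this
      rcases this with h | h
      · cases h
      · injection h with _ h
        exact Fin.castLE_injective _ h
    rw [hr, hz, hc]
  refine ⟨univ.image Φ, ?_, ?_⟩
  · rw [card_image_of_injective _ hΦ]
    simp
  · intro F hF
    rw [mem_image] at hF
    obtain ⟨⟨r, z, c⟩, -, rfl⟩ := hF
    obtain ⟨g1, g2, g3, g4, g5, g6⟩ := hst r
    obtain ⟨k1, k2, k3, k4⟩ := gain_state hx hlj g1 g2 g3 g4 g5 g6 habs
      (z := Fin.castLE hNL z) (c := Fin.castLE hNC c) (by simp) (by simp)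
    refine ⟨k4, k1, k2, ?_⟩
    have h1 := eta_ge (M0 := M0) k3
    rw [(P.cl_eq_zero_iff _).2 (by simp)] at h1
    simpa using h1

end Pool.Agent.helper1.MST
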