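import Mathlib

open Finset

namespace Pool.Agent.helper1.MST

/-- running maximum of the first `j` values -/
def Sx (η : ℕ → ℕ) : ℕ → ℕ
  | 0 => 0
  | j + 1 => max (Sx η j) (η j)

/-- the chain potential -/
def Ps (R : ℕ) (η : ℕ → ℕ) : ℕ := ∑ j ∈ range R, (η j + (R - 1) * Sx η (j + 1))

lemma Sx_mono_step (η : ℕ → ℕ) (j : ℕ) : Sx η j ≤ Sx η (j+1) := le_max_left _ _

lemma le_Sx {η : ℕ → ℕ} {i j : ℕ} (h : i < j) : η i ≤ Sx η j := by
  induction j with
  | zero => omega
  | succ j ih =>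
    rcases Nat.lt_succ_iff_lt_or_eq.1 h with h1 | h1
    · exact (ih h1).trans (le_max_left _ _)
    · subst h1; exact le_max_right _ _

lemma Sx_le {η : ℕ → ℕ} {j a : ℕ} (h : ∀ i < j, η i ≤ a) : Sx η j ≤ a := by
  induction j with
  | zero => exact Nat.zero_le _
  | succ j ih =>
    exact max_le (ih fun i hi => h i (by omega)) (h j (by omega))

lemma Sx_attained {η : ℕ → ℕ} {j : ℕ} (h : 0 < Sx η j) : ∃ i < j, η i = Sx η j := by
  induction j with
  | zero => simp [Sx] at h
  | succ j ih =>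
    rcases le_total (Sx η j) (η j) with h1 | h1
    · exact ⟨j, by omega, by simp [Sx, h1]⟩
    · have h2 : Sx η (j+1) = Sx η j := by simp [Sx, h1]
      rw [h2] at h ⊢
      obtain ⟨i, hi, h3⟩ := ih h
      exact ⟨i, by omega, h3⟩

lemma Sx_congr {η η' : ℕ → ℕ} {j : ℕ} (h : ∀ i < j, η i = η' i) : Sx η j = Sx η' j := by
  induction j with
  | zero => rfl
  | succ j ih =>
    simp only [Sx]
    rw [ih fun i hi => h i (by omega), h j (by omega)]

lemma Sx_mono {η η' : ℕ → ℕ} {j : ℕ} (e : ℕ) (h : ∀ i < j, η i ≤ η' i + e) :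
    Sx η j ≤ Sx η' j + e := by
  refine Sx_le fun i hi => (h i hi).trans ?_
  have := le_Sx (η := η') hi
  omega

/-- the value with the `i`-th coordinate set to zero -/
def zeroed (η : ℕ → ℕ) (i : ℕ) : ℕ → ℕ := Function.update η i 0

lemma zeroed_ne {η : ℕ → ℕ} {i j : ℕ} (h : j ≠ i) : zeroed η i j = η j := by
  simp [zeroed, h]

lemma zeroed_same (η : ℕ → ℕ) (i : ℕ) : zeroed η i i = 0 := by
  simp [zeroed]

lemma zeroed_le (η : ℕ → ℕ) (i j : ℕ) : zeroed η i j ≤ η j := by
  by_cases h : j = i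
  · subst h; simp [zeroed]
  · rw [zeroed_ne h]

/-- the loss caused by killing the `i`-th gadget -/
def loss (R : ℕ) (η : ℕ → ℕ) (i : ℕ) : ℕ :=
  η i + (R - 1) * ∑ j ∈ range R, (Sx η (j+1) - Sx (zeroed η i) (j+1))

lemma Ps_zeroed (R : ℕ) (η : ℕ → ℕ) (i : ℕ) (hi : i < R) :
    Ps R η = Ps R (zeroed η i) + loss R η i := by
  unfold Ps loss
  rw [sum_add_distrib, sum_add_distrib, ← mul_sum, ← mul_sum]
  have h1 : ∑ j ∈ range R, η j = ∑ j ∈ range R, zeroed η i j + η i := by
    rw [← add_sum_erase _ _ (mem_range.2 hi), ← add_sum_erase (range R) (zeroed η i) (mem_range.2 hi),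
      zeroed_same]
    rw [sum_congr rfl (g := zeroed η i) (s₂ := (range R).erase i)]
    · ring
    · intro j hj
      rw [zeroed_ne (mem_erase.1 hj).1]
  have h2 : ∑ j ∈ range R, Sx η (j+1) = ∑ j ∈ range R, Sx (zeroed η i) (j+1) +
      ∑ j ∈ range R, (Sx η (j+1) - Sx (zeroed η i) (j+1)) := by
    rw [← sum_add_distrib]
    refine sum_congr rfl fun j _ => ?_
    have := Sx_mono (η := zeroed η i) (η' := η) (j := j+1) 0 (fun k _ => by
      have := zeroed_le η i k; omega)
    omega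
  rw [h1, h2]
  ring

lemma sum_drop_le (R : ℕ) (η : ℕ → ℕ) (j : ℕ) (hj : j < R) :
    ∑ i ∈ range R, (Sx η (j+1) - Sx (zeroed η i) (j+1)) ≤
      (Sx η (j+1) - Sx η j) + (Sx η j - η j) := by
  rcases Nat.lt_or_ge (η j) (Sx η j) with h | h
  · have h1 : Sx η (j+1) = Sx η j := by simp only [Sx]; omega
    obtain ⟨i0, hi0, h2⟩ := Sx_attained (by omega : 0 < Sx η j)
    rw [sum_eq_single i0]
    · have h3 : η j ≤ Sx (zeroed η i0) (j+1) := by
        have := le_Sx (η := zeroed η i0) (i := j) (j := j+1) (by omega)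
        rwa [zeroed_ne (by omega)] at this
      omega
    · intro i _ hne
      have h3 : η i0 ≤ Sx (zeroed η i) (j+1) := by
        have := le_Sx (η := zeroed η i) (i := i0) (j := j+1) (by omega)
        rwa [zeroed_ne (by omega)] at this
      omega
    · intro h3
      exact absurd (mem_range.2 (by omega)) h3
  · have h1 : Sx η (j+1) = η j := by simp only [Sx]; omega
    rw [sum_eq_single j]
    · have h3 : Sx (zeroed η j) j = Sx η j := Sx_congr fun i hi => zeroed_ne (by omega)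
      have h4 := Sx_mono_step (zeroed η j) j
      omega
    · intro i _ hne
      have h3 : η j ≤ Sx (zeroed η i) (j+1) := by
        have := le_Sx (η := zeroed η i) (i := j) (j := j+1) (by omega)
        rwa [zeroed_ne (by omega)] at this
      omega
    · intro h3
      exact absurd (mem_range.2 hj) h3

lemma sum_tele (η : ℕ → ℕ) (R : ℕ) : ∑ j ∈ range R, (Sx η (j+1) - Sx η j) = Sx η R := by
  induction R with
  | zero => simp [Sx]
  | succ R ih =>
    rw [sum_range_succ, ih]
    have := Sx_mono_step η R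
    omega

/-- total loss -/
lemma sum_loss_le (R : ℕ) (η : ℕ → ℕ) :
    ∑ i ∈ range R, loss R η i ≤
      ∑ i ∈ range R, η i + (R - 1) * (Sx η R + ∑ j ∈ range R, (Sx η j - η j)) := by
  unfold loss
  rw [sum_add_distrib, ← mul_sum, sum_comm]
  apply Nat.add_le_add_left
  apply Nat.mul_le_mul_left
  rw [← sum_tele η R, ← sum_add_distrib]
  exact sum_le_sum fun j hj => sum_drop_le R η j (mem_range.1 hj)

/-- change of the potential under small losses and gains -/
lemma Ps_change (R : ℕ) (hR : 1 ≤ R) (η ηD η' : ℕ → ℕ) (Es : Finset ℕ)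
    (hD : ∀ j < R, ηD j ≤ η j)
    (h : ∀ j < R, ηD j ≤ η' j + (if j ∈ Es then 1 else 0)) :
    Ps R ηD + ∑ j ∈ range R, (η' j - η j) ≤ Ps R η' + R ^ 2 * Es.card := by
  have h1 : ∀ j < R, ηD j ≤ η' j + Es.card := by
    intro j hj
    have h2 := h j hj
    split_ifs at h2 with h3
    · have := card_pos.2 ⟨j, h3⟩
      omega
    · omega
  have h2 : ∑ j ∈ range R, ηD j + ∑ j ∈ range R, (η' j - η j) ≤
      ∑ j ∈ range R, η' j + Es.card := by
    have h3 : ∑ j ∈ range R, (if j ∈ Es then 1 else 0) ≤ Es.card := by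
      rw [sum_boole]
      simp only [Nat.cast_id]
      apply card_le_card
      intro j hj
      exact (mem_filter.1 hj).2
    have h4 : ∑ j ∈ range R, ηD j + ∑ j ∈ range R, (η' j - η j) ≤
        ∑ j ∈ range R, η' j + ∑ j ∈ range R, (if j ∈ Es then 1 else 0) := by
      rw [← sum_add_distrib, ← sum_add_distrib]
      refine sum_le_sum fun j hj => ?_
      have h5 := h j (mem_range.1 hj)
      have h6 := hD j (mem_range.1 hj)
      rcases Nat.lt_or_ge (η' j) (η j) with h7 | h7
      · omega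
      · omega
    omega
  have h3 : ∑ j ∈ range R, Sx ηD (j+1) ≤ ∑ j ∈ range R, Sx η' (j+1) + R * Es.card := by
    have : R * Es.card = ∑ j ∈ range R, Es.card := by simp
    rw [this, ← sum_add_distrib]
    refine sum_le_sum fun j hj => ?_
    have hj := mem_range.1 hj
    exact Sx_mono _ fun i hi => h1 i (by omega)
  unfold Ps
  rw [sum_add_distrib, sum_add_distrib, ← mul_sum, ← mul_sum]
  have h4 := Nat.mul_le_mul_left (R-1) h3
  have h5 : R ^ 2 * Es.card = Es.card + (R - 1) * (R * Es.card) + (R - 1) * Es.card := by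
    obtain ⟨r, rfl⟩ : ∃ r, R = r + 1 := ⟨R - 1, by omega⟩
    simp only [Nat.add_sub_cancel]
    ring
  rw [mul_add] at h4
  rw [h5]
  omega

lemma Ps_le (R : ℕ) (η : ℕ → ℕ) (M : ℕ) (h : ∀ j < R, η j ≤ M) : Ps R η ≤ R ^ 2 * M := by
  unfold Ps
  have h1 : ∀ j ∈ range R, η j + (R - 1) * Sx η (j+1) ≤ R * M := by
    intro j hj
    have hj := mem_range.1 hj
    have h2 : Sx η (j+1) ≤ M := Sx_le fun i hi => h i (by omega)
    have h3 := Nat.mul_le_mul_left (R-1) h2
    have h4 := h j hj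
    obtain ⟨r, rfl⟩ : ∃ r, R = r + 1 := ⟨R - 1, by omega⟩
    simp only [Nat.add_sub_cancel] at h3 ⊢
    rw [add_mul]
    omega
  calc _ ≤ ∑ j ∈ range R, R * M := sum_le_sum h1
    _ = R ^ 2 * M := by rw [sum_const, card_range, smul_eq_mul]; ring

lemma Ps_const (R : ℕ) (hR : 1 ≤ R) (η : ℕ → ℕ) (M : ℕ) (h : ∀ j < R, η j = M) : Ps R η = R ^ 2 * M := by
  unfold Ps
  have h1 : ∀ j ∈ range R, η j + (R - 1) * Sx η (j+1) = R * M := by
    intro j hj
    have hj := mem_range.1 hj
    have h2 : Sx η (j+1) = M := by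
      apply le_antisymm
      · exact Sx_le fun i hi => (h i (by omega)).le
      · rw [← h j hj]; exact le_Sx (by omega)
    rw [h2, h j hj]
    obtain ⟨r, rfl⟩ : ∃ r, R = r + 1 := ⟨R - 1, by omega⟩
    simp only [Nat.add_sub_cancel]
    ring
  calc _ = ∑ j ∈ range R, R * M := sum_congr rfl h1
    _ = R ^ 2 * M := by rw [sum_const, card_range, smul_eq_mul]; ring

end Pool.Agent.helper1.MST
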