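import Mathlib
import Pool.Agent.helper1.MST.Swap
import Pool.Agent.helper1.MST.Chain

open scoped Classical
open Finset

namespace Pool.Agent.helper1.MST

set_option linter.unusedSectionVars false
set_option linter.unusedVariables false

variable {P : Par}

noncomputable def etaN (M0 : ℕ) (x : Finset (Edg P)) : ℕ → ℕ :=
  fun i => if h : i < P.R then eta M0 x ⟨i, h⟩ else 0

lemma etaN_fin (M0 : ℕ) (x : Finset (Edg P)) (i : Fin P.R) : etaN M0 x i = eta M0 x i := by
  simp [etaN]

lemma eta_le (M0 : ℕ) (x : Finset (Edg P)) (i : Fin P.R) : eta M0 x i ≤ M0 := by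
  unfold eta
  exact Finset.sup_le fun c _ => Nat.sub_le _ _

lemma etaN_le (M0 : ℕ) (x : Finset (Edg P)) (i : ℕ) : etaN M0 x i ≤ M0 := by
  unfold etaN
  split_ifs
  · exact eta_le _ _ _
  · exact Nat.zero_le _

/-- total number of thin chords -/
noncomputable def thT (x : Finset (Edg P)) : ℕ := ∑ i : Fin P.R, thn x i

lemma DD_unique {x F : Finset (Edg P)} (hX : ¬ XX x F) {i i' : Fin P.R} (h : DD x F i)
    (h' : DD x F i') : i = i' := by
  by_contra hne
  apply hX
  left
  obtain ⟨c, p, g1, g2, g3, g4⟩ := h
  obtain ⟨c', p', k1, k2, k3, k4⟩ := h'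
  have hsub : ({Edg.hvy i c, Edg.pth i p, Edg.hvy i' c'} : Finset (Edg P)) ⊆ F ∩ Sp x := by
    intro e he
    rw [mem_insert, mem_insert, mem_singleton] at he
    rw [mem_inter]
    simp only [Sp, mem_filter, mem_univ, true_and]
    rcases he with he | he | he
    · rw [he]; exact ⟨g3, Or.inr g1.1⟩
    · rw [he]; exact ⟨g4, Or.inr g2.1⟩
    · rw [he]; exact ⟨k3, Or.inr k1.1⟩
  have h1 := card_le_card hsub
  rw [card_insert_of_notMem, card_insert_of_notMem, card_singleton] at h1
  · exact h1
  · simp
  · rw [mem_insert, mem_singleton]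
    rintro (h | h)
    · simp at h
    · injection h with h _
      exact hne h

/-- transition in the accepted and non-exceptional case -/
lemma trans_accepted (M0 : ℕ) (hR : 1 ≤ P.R) {x F : Finset (Edg P)} (hx : NT x)
    (hT : Tr (symmDiff x F)) (hw : ∑ e ∈ symmDiff x F, ww e ≤ ∑ e ∈ x, ww e) (hX : ¬ XX x F) :
    NT (symmDiff x F) ∧
    (Ps P.R (etaN M0 x) + ∑ j ∈ range P.R, (etaN M0 (symmDiff x F) j - etaN M0 x j) ≤
      Ps P.R (etaN M0 (symmDiff x F)) +
        ∑ i : Fin P.R, (if DD x F i then loss P.R (etaN M0 x) i else 0) +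
        P.R ^ 2 * ∑ i : Fin P.R, (if EE x F i then 1 else 0)) ∧
    thT (symmDiff x F) ≤ thT x + ∑ i : Fin P.R, (if UU x F i then 1 else 0) := by
  obtain ⟨hy, hout⟩ := outcome hx hT hw hX
  refine ⟨hy, ?_, ?_⟩
  · set Es : Finset ℕ := (univ.filter fun i : Fin P.R => EE x F i).image Fin.val with hEs
    have hEsc : Es.card ≤ ∑ i : Fin P.R, (if EE x F i then 1 else 0) := by
      rw [sum_boole]
      exact card_image_le
    have hmemEs : ∀ i : Fin P.R, EE x F i → (i:ℕ) ∈ Es := by
      intro i hi
      rw [hEs, mem_image]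
      exact ⟨i, by simp only [mem_filter, mem_univ, true_and]; exact hi, rfl⟩
    have key : ∀ i : Fin P.R, eta M0 x i ≤ eta M0 (symmDiff x F) i ∨ DD x F i ∨
      (EE x F i ∧ eta M0 x i ≤ eta M0 (symmDiff x F) i + 1) := by
      intro i
      rcases hout i with h | h
      · exact Or.inl (nr_eta M0 h)
      · exact swap_eta M0 hx hy h
    have hEle := Nat.mul_le_mul_left (P.R ^ 2) hEsc
    by_cases hD : ∃ i, DD x F i
    · obtain ⟨i, hi⟩ := hD
      have h1 := Ps_change P.R hR (etaN M0 x) (zeroed (etaN M0 x) i) (etaN M0 (symmDiff x F)) Es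
        (fun j _ => zeroed_le _ _ _) (by
          intro j hj
          by_cases hji : j = i
          · subst hji
            rw [zeroed_same]; exact Nat.zero_le _
          · rw [zeroed_ne hji]
            have h2 := key ⟨j, hj⟩
            have h3 := etaN_fin M0 x ⟨j, hj⟩
            have h4 := etaN_fin M0 (symmDiff x F) ⟨j, hj⟩
            simp only at h3 h4
            rw [h3, h4]
            rcases h2 with h2 | h2 | ⟨h2, h2'⟩
            · split_ifs <;> omega
            · exact absurd (congrArg Fin.val (DD_unique hX h2 hi)) hji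
            · rw [if_pos (hmemEs _ h2)]; exact h2')
      have h2 := Ps_zeroed P.R (etaN M0 x) i i.2
      have h3 : loss P.R (etaN M0 x) i ≤
          ∑ i : Fin P.R, (if DD x F i then loss P.R (etaN M0 x) i else 0) := by
        have h4 : (if DD x F i then loss P.R (etaN M0 x) i else 0) ≤
            ∑ i : Fin P.R, (if DD x F i then loss P.R (etaN M0 x) i else 0) :=
          single_le_sum (f := fun i : Fin P.R => (if DD x F i then loss P.R (etaN M0 x) i else 0))
            (fun _ _ => Nat.zero_le _) (mem_univ i)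
        rw [if_pos hi] at h4
        exact h4
      omega
    · push Not at hD
      have h1 := Ps_change P.R hR (etaN M0 x) (etaN M0 x) (etaN M0 (symmDiff x F)) Es
        (fun j _ => le_rfl) (by
          intro j hj
          have h2 := key ⟨j, hj⟩
          have h3 := etaN_fin M0 x ⟨j, hj⟩
          have h4 := etaN_fin M0 (symmDiff x F) ⟨j, hj⟩
          simp only at h3 h4
          rw [h3, h4]
          rcases h2 with h2 | h2 | ⟨h2, h2'⟩
          · split_ifs <;> omega
          · exact absurd h2 (hD _)
          · rw [if_pos (hmemEs _ h2)]; exact h2')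
      have h3 : (0:ℕ) ≤ ∑ i : Fin P.R, (if DD x F i then loss P.R (etaN M0 x) i else 0) :=
        Nat.zero_le _
      omega
  · unfold thT
    rw [← sum_add_distrib]
    refine sum_le_sum fun i _ => ?_
    rcases hout i with h | h
    · rw [nr_thn h]; exact Nat.le_add_right _ _
    · rcases swap_thn hx hy h with h1 | ⟨h1, h2⟩
      · exact h1.trans (Nat.le_add_right _ _)
      · rw [if_pos h1]; exact h2

end Pool.Agent.helper1.MST
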