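import Mathlib
import Pool.Agent.helper1.MST.Trans
import Pool.Agent.helper1.MST.Events
import Pool.Agent.helper1.MST.Gain

open scoped Classical
open Finset

namespace Pool.Agent.helper1.MST

set_option linter.unusedSectionVars false
set_option linter.unusedVariables false

variable {P : Par}

/-- number of edges -/
def mm (P : Par) : ℕ := P.R * (P.L + 2 * P.C) + P.Q

/-- bound for the number of specific edges -/
def ns (P : Par) : ℕ := P.R * (3 * ((P.κ + 1) * P.k) + 3)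

/-- the conditions on the parameters -/
structure Good (P : Par) (M0 W0 : ℕ) : Prop where
  hK : M0 + W0 = P.κ + 1
  hR : 1 ≤ P.R
  hW : 1 ≤ W0
  c1 : 3 * P.R * mm P ^ 2 ≤ P.k * P.N ^ 2
  c2 : 12 * P.R * ns P ^ 3 ≤ mm P
  c3 : 3 * P.R ^ 2 * (W0 + P.k) ≤ P.κ + 1
  c4 : 3 * P.R ^ 2 * P.k ≤ W0

/-- the next state -/
noncomputable def nxt (x F : Finset (Edg P)) : Finset (Edg P) :=
  if Tr (symmDiff x F) ∧ ∑ e ∈ symmDiff x F, ww e ≤ ∑ e ∈ x, ww e then symmDiff x F else x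

/-- the potential -/
noncomputable def pot (M0 W0 : ℕ) (x : Finset (Edg P)) : ℝ :=
  (Ps P.R (etaN M0 x) : ℝ) - ((P.R:ℝ) ^ 2 * ((P.κ : ℝ) + 1) / W0) * thT x

/-- the scaled potential -/
noncomputable def hh (M0 W0 : ℕ) (x : Finset (Edg P)) : ℝ :=
  if NT x then ((mm P : ℝ) ^ 2 / (3 * P.R * ((P.κ : ℝ) + 1))) * max 0 (pot M0 W0 x) else 0

section
variable {M0 W0 : ℕ} (hG : Good P M0 W0)
include hG

lemma coef_nonneg : (0:ℝ) ≤ (mm P : ℝ) ^ 2 / (3 * P.R * ((P.κ : ℝ) + 1)) := by positivity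

lemma hh_nonneg (x : Finset (Edg P)) : 0 ≤ hh M0 W0 x := by
  unfold hh
  split_ifs
  · exact mul_nonneg (coef_nonneg hG) (le_max_left _ _)
  · exact le_rfl

lemma Ps_bound (x : Finset (Edg P)) : (Ps P.R (etaN M0 x) : ℝ) ≤ (P.R:ℝ) ^ 2 * ((P.κ : ℝ) + 1) := by
  have h1 := Ps_le P.R (etaN M0 x) M0 fun j _ => etaN_le _ _ _
  have h2 : P.R ^ 2 * M0 ≤ P.R ^ 2 * (P.κ + 1) := Nat.mul_le_mul_left _ (by have := hG.hK; omega)
  exact_mod_cast h1.trans h2

lemma pot_le (x : Finset (Edg P)) : pot M0 W0 x ≤ (P.R:ℝ) ^ 2 * ((P.κ : ℝ) + 1) := by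
  unfold pot
  have h1 := Ps_bound hG x
  have h2 : (0:ℝ) ≤ ((P.R:ℝ) ^ 2 * ((P.κ : ℝ) + 1) / W0) * thT x := by positivity
  linarith

lemma thT_lt {x : Finset (Edg P)} (h : 0 < pot M0 W0 x) : thT x + 1 ≤ W0 := by
  by_contra hc
  push Not at hc
  have h1 : W0 ≤ thT x := by omega
  have h1' : (W0 : ℝ) ≤ thT x := by exact_mod_cast h1
  have h2 := Ps_bound hG x
  have hW : (1:ℝ) ≤ W0 := by exact_mod_cast hG.hW
  have h3 : (P.R:ℝ) ^ 2 * ((P.κ : ℝ) + 1) ≤ ((P.R:ℝ) ^ 2 * ((P.κ : ℝ) + 1) / W0) * thT x := by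
    calc (P.R:ℝ) ^ 2 * ((P.κ : ℝ) + 1) = ((P.R:ℝ) ^ 2 * ((P.κ : ℝ) + 1) / W0) * W0 := by
          field_simp
      _ ≤ _ := by
          apply mul_le_mul_of_nonneg_left h1'
          positivity
  unfold pot at h
  linarith

lemma thn_le {x : Finset (Edg P)} (h : thT x + 1 ≤ W0) (i : Fin P.R) : thn x i + 1 ≤ W0 := by
  have : thn x i ≤ thT x := single_le_sum (f := fun i => thn x i) (fun _ _ => Nat.zero_le _) (mem_univ i)
  omega

/-- pointwise lower bound of the potential after one step -/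
lemma pointwise {x : Finset (Edg P)} (hx : NT x) (F : Finset (Edg P)) :
    ((mm P : ℝ) ^ 2 / (3 * P.R * ((P.κ : ℝ) + 1))) *
      (pot M0 W0 x - ∑ i : Fin P.R, (loss P.R (etaN M0 x) i : ℝ) * (if DD x F i then (1:ℝ) else 0)
        - (P.R:ℝ) ^ 2 * ∑ i : Fin P.R, (if EE x F i then (1:ℝ) else 0)
        - ((P.R:ℝ) ^ 2 * ((P.κ : ℝ) + 1) / W0) * ∑ i : Fin P.R, (if UU x F i then (1:ℝ) else 0)
        - 2 * (P.R:ℝ) ^ 2 * ((P.κ : ℝ) + 1) * (if XX x F then (1:ℝ) else 0)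
        + ∑ j ∈ range P.R, ((etaN M0 (nxt x F) j - etaN M0 x j : ℕ) : ℝ)) ≤ hh M0 W0 (nxt x F) := by
  have hc := coef_nonneg hG
  have hR : (1:ℝ) ≤ P.R := by exact_mod_cast hG.hR
  have hD0 : 0 ≤ ∑ i : Fin P.R, (loss P.R (etaN M0 x) i : ℝ) * (if DD x F i then (1:ℝ) else 0) :=
    sum_nonneg fun i _ => mul_nonneg (Nat.cast_nonneg _) (by split_ifs <;> norm_num)
  have hE0 : 0 ≤ (P.R:ℝ) ^ 2 * ∑ i : Fin P.R, (if EE x F i then (1:ℝ) else 0) :=
    mul_nonneg (by positivity) (sum_nonneg fun i _ => by split_ifs <;> norm_num)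
  have hU0 : 0 ≤ ((P.R:ℝ) ^ 2 * ((P.κ : ℝ) + 1) / W0) * ∑ i : Fin P.R, (if UU x F i then (1:ℝ) else 0) :=
    mul_nonneg (by positivity) (sum_nonneg fun i _ => by split_ifs <;> norm_num)
  by_cases hX : XX x F
  · rw [if_pos hX]
    refine le_trans ?_ (hh_nonneg hG _)
    apply mul_nonpos_of_nonneg_of_nonpos hc
    have h1 := pot_le hG x
    have h2 : ∑ j ∈ range P.R, ((etaN M0 (nxt x F) j - etaN M0 x j : ℕ) : ℝ) ≤
        (P.R:ℝ) ^ 2 * ((P.κ : ℝ) + 1) := by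
      calc ∑ j ∈ range P.R, ((etaN M0 (nxt x F) j - etaN M0 x j : ℕ) : ℝ)
          ≤ ∑ j ∈ range P.R, ((P.κ : ℝ) + 1) := by
            refine sum_le_sum fun j _ => ?_
            have h3 := etaN_le M0 (nxt x F) j
            have h4 := hG.hK
            have : etaN M0 (nxt x F) j - etaN M0 x j ≤ P.κ + 1 := by omega
            exact_mod_cast this
        _ = (P.R:ℝ) * ((P.κ : ℝ) + 1) := by simp; ring
        _ ≤ _ := by
            have : (P.R:ℝ) ≤ (P.R:ℝ) ^ 2 := by nlinarith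
            exact mul_le_mul_of_nonneg_right this (by positivity)
    linarith
  · rw [if_neg hX]
    by_cases hacc : Tr (symmDiff x F) ∧ ∑ e ∈ symmDiff x F, ww e ≤ ∑ e ∈ x, ww e
    · have hn : nxt x F = symmDiff x F := by unfold nxt; rw [if_pos hacc]
      rw [hn]
      obtain ⟨hy, h1, h2⟩ := trans_accepted M0 hG.hR hx hacc.1 hacc.2 hX
      unfold hh
      rw [if_pos hy]
      apply mul_le_mul_of_nonneg_left _ hc
      refine le_trans ?_ (le_max_right _ _)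
      have h1' : (Ps P.R (etaN M0 x) : ℝ) +
          ∑ j ∈ range P.R, ((etaN M0 (symmDiff x F) j - etaN M0 x j : ℕ) : ℝ) ≤
          (Ps P.R (etaN M0 (symmDiff x F)) : ℝ) +
          ∑ i : Fin P.R, (loss P.R (etaN M0 x) i : ℝ) * (if DD x F i then (1:ℝ) else 0) +
          (P.R:ℝ) ^ 2 * ∑ i : Fin P.R, (if EE x F i then (1:ℝ) else 0) := by
        have h3 : ((Ps P.R (etaN M0 x) + ∑ j ∈ range P.R, (etaN M0 (symmDiff x F) j - etaN M0 x j) : ℕ) : ℝ)
            ≤ ((Ps P.R (etaN M0 (symmDiff x F)) +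
            ∑ i : Fin P.R, (if DD x F i then loss P.R (etaN M0 x) i else 0) +
            P.R ^ 2 * ∑ i : Fin P.R, (if EE x F i then 1 else 0) : ℕ) : ℝ) := by exact_mod_cast h1
        push_cast at h3
        refine h3.trans (le_of_eq ?_)
        congr 2
        refine sum_congr rfl fun i _ => ?_
        split_ifs <;> simp
      have h2' : (thT (symmDiff x F) : ℝ) ≤ thT x + ∑ i : Fin P.R, (if UU x F i then (1:ℝ) else 0) := by
        have h3 : ((thT (symmDiff x F) : ℕ) : ℝ) ≤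
            ((thT x + ∑ i : Fin P.R, (if UU x F i then 1 else 0) : ℕ) : ℝ) := by exact_mod_cast h2
        push_cast at h3
        exact h3
      have h3 : ((P.R:ℝ) ^ 2 * ((P.κ : ℝ) + 1) / W0) * (thT (symmDiff x F) : ℝ) ≤
          ((P.R:ℝ) ^ 2 * ((P.κ : ℝ) + 1) / W0) * thT x +
          ((P.R:ℝ) ^ 2 * ((P.κ : ℝ) + 1) / W0) * ∑ i : Fin P.R, (if UU x F i then (1:ℝ) else 0) := by
        rw [← mul_add ((P.R:ℝ) ^ 2 * ((P.κ : ℝ) + 1) / W0)]
        exact mul_le_mul_of_nonneg_left h2' (by positivity)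
      unfold pot
      linarith
    · have hn : nxt x F = x := by unfold nxt; rw [if_neg hacc]
      rw [hn]
      unfold hh
      rw [if_pos hx]
      apply mul_le_mul_of_nonneg_left _ hc
      refine le_trans ?_ (le_max_right _ _)
      simp only [Nat.sub_self, Nat.cast_zero, sum_const_zero]
      linarith

end

end Pool.Agent.helper1.MST
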