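import Mathlib
import Pool.Agent.helper1.MST.Potential

open scoped Classical
open Finset

namespace Pool.Agent.helper1.MST

set_option linter.unusedSectionVars false
set_option linter.unusedVariables false

variable {P : Par}

lemma card_mm (P : Par) : Fintype.card (Edg P) = mm P := card_edg P

section
variable {M0 W0 : ℕ} (hG : Good P M0 W0)
include hG

lemma mm_ge : 12 ≤ mm P := by
  have h1 := hG.c2
  have h2 := hG.hR
  have h3 : 1 ≤ ns P := by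
    unfold ns
    have : 1 * 1 ≤ P.R * (3 * ((P.κ + 1) * P.k) + 3) := Nat.mul_le_mul h2 (by omega)
    omega
  have h4 : 1 ≤ ns P ^ 3 := Nat.one_le_pow _ _ h3
  have h5 : 12 * 1 * 1 ≤ 12 * P.R * ns P ^ 3 := Nat.mul_le_mul (Nat.mul_le_mul_left _ h2) h4
  omega

lemma gain_expected {x : Finset (Edg P)} (hx : NT x) (hth : thT x + 1 ≤ W0) (j : ℕ) (hj : j < P.R) :
    (P.R : ℝ) * ((Sx (etaN M0 x) j - etaN M0 x j : ℕ) : ℝ) * (1 / (mm P : ℝ)) ^ 2 ≤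
      ∑ F : Finset (Edg P), fP F * ((etaN M0 (nxt x F) j - etaN M0 x j : ℕ) : ℝ) := by
  have hm12 := mm_ge hG
  have hnn : ∀ F : Finset (Edg P), 0 ≤ fP F * ((etaN M0 (nxt x F) j - etaN M0 x j : ℕ) : ℝ) :=
    fun F => mul_nonneg (fP_nonneg F) (Nat.cast_nonneg _)
  rcases Nat.eq_zero_or_pos (Sx (etaN M0 x) j - etaN M0 x j) with h0 | h0
  · rw [h0]
    simp only [Nat.cast_zero, mul_zero, zero_mul]
    exact sum_nonneg fun F _ => hnn F
  · obtain ⟨l, hl, hl2⟩ := Sx_attained (by omega : 0 < Sx (etaN M0 x) j)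
    have hSle : Sx (etaN M0 x) j ≤ M0 := Sx_le fun i _ => etaN_le _ _ _
    have hlR : l < P.R := by omega
    have e1 := etaN_fin M0 x ⟨l, hlR⟩
    have e2 := etaN_fin M0 x ⟨j, hj⟩
    simp only at e1 e2
    obtain ⟨𝓕, h𝓕c, h𝓕⟩ := gain_family hx (l := ⟨l, hlR⟩) (j := ⟨j, hj⟩) hl
      (M0 := M0) (W0 := W0) hG.hK.le
      ((preN_le_thn hx _ _).trans (thn_le hG hth _)) (by omega) (by omega)
    have h1 : ∀ F ∈ 𝓕, (1 / (mm P : ℝ)) ^ 4 / 3 * ((M0 - etaN M0 x j : ℕ) : ℝ) ≤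
        fP F * ((etaN M0 (nxt x F) j - etaN M0 x j : ℕ) : ℝ) := by
      intro F hF
      obtain ⟨g1, g2, g3, g4⟩ := h𝓕 F hF
      have hn : nxt x F = symmDiff x F := by unfold nxt; rw [if_pos ⟨g2, g3⟩]
      have g5 := fP_ge F (by omega) (by rw [card_mm]; omega)
      rw [g1, card_mm] at g5
      have g6 : ((M0 - etaN M0 x j : ℕ) : ℝ) ≤ ((etaN M0 (nxt x F) j - etaN M0 x j : ℕ) : ℝ) := by
        have e3 := etaN_fin M0 (symmDiff x F) ⟨j, hj⟩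
        simp only at e3
        rw [hn]
        have : M0 - etaN M0 x j ≤ etaN M0 (symmDiff x F) j - etaN M0 x j := by omega
        exact_mod_cast this
      exact mul_le_mul g5 g6 (Nat.cast_nonneg _) (fP_nonneg F)
    have h2 : (𝓕.card : ℝ) * ((1 / (mm P : ℝ)) ^ 4 / 3 * ((M0 - etaN M0 x j : ℕ) : ℝ)) ≤
        ∑ F : Finset (Edg P), fP F * ((etaN M0 (nxt x F) j - etaN M0 x j : ℕ) : ℝ) := by
      calc (𝓕.card : ℝ) * ((1 / (mm P : ℝ)) ^ 4 / 3 * ((M0 - etaN M0 x j : ℕ) : ℝ))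
          = ∑ F ∈ 𝓕, (1 / (mm P : ℝ)) ^ 4 / 3 * ((M0 - etaN M0 x j : ℕ) : ℝ) := by
            rw [sum_const, nsmul_eq_mul]
        _ ≤ ∑ F ∈ 𝓕, fP F * ((etaN M0 (nxt x F) j - etaN M0 x j : ℕ) : ℝ) := sum_le_sum h1
        _ ≤ _ := sum_le_sum_of_subset_of_nonneg (subset_univ _) fun F _ _ => hnn F
    refine le_trans ?_ h2
    have h3 : ((Sx (etaN M0 x) j - etaN M0 x j : ℕ) : ℝ) ≤ ((M0 - etaN M0 x j : ℕ) : ℝ) := by
      have : Sx (etaN M0 x) j - etaN M0 x j ≤ M0 - etaN M0 x j := by omega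
      exact_mod_cast this
    have hmpos : (0:ℝ) < mm P := by
      have : 0 < mm P := by omega
      exact_mod_cast this
    have h4 : (3 * (P.R : ℝ) * (mm P : ℝ) ^ 2) ≤ (𝓕.card : ℝ) := by
      rw [h𝓕c]
      have := hG.c1
      have h5 : 3 * P.R * mm P ^ 2 ≤ P.k * (P.N * P.N) := by rw [← pow_two]; exact this
      exact_mod_cast h5
    have h5 : (P.R : ℝ) * (1 / (mm P : ℝ)) ^ 2 ≤ (𝓕.card : ℝ) * ((1 / (mm P : ℝ)) ^ 4 / 3) := by
      calc (P.R : ℝ) * (1 / (mm P : ℝ)) ^ 2 =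
            (3 * (P.R : ℝ) * (mm P : ℝ) ^ 2) * ((1 / (mm P : ℝ)) ^ 4 / 3) := by
              field_simp
        _ ≤ _ := by
            apply mul_le_mul_of_nonneg_right h4
            positivity
    calc (P.R : ℝ) * ((Sx (etaN M0 x) j - etaN M0 x j : ℕ) : ℝ) * (1 / (mm P : ℝ)) ^ 2
        = ((P.R : ℝ) * (1 / (mm P : ℝ)) ^ 2) * ((Sx (etaN M0 x) j - etaN M0 x j : ℕ) : ℝ) := by ring
      _ ≤ ((𝓕.card : ℝ) * ((1 / (mm P : ℝ)) ^ 4 / 3)) * ((M0 - etaN M0 x j : ℕ) : ℝ) := by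
          apply mul_le_mul h5 h3 (Nat.cast_nonneg _)
          positivity
      _ = _ := by ring

/-- the expected potential after one step -/
lemma expected {x : Finset (Edg P)} (hx : NT x) (hth : thT x + 1 ≤ W0) :
    ((mm P : ℝ) ^ 2 / (3 * P.R * ((P.κ : ℝ) + 1))) *
      (pot M0 W0 x - (∑ i : Fin P.R, (loss P.R (etaN M0 x) i : ℝ)) * (1 / (mm P : ℝ)) ^ 2
        - (P.R:ℝ) ^ 2 * (P.R * (((W0 + P.k : ℕ) : ℝ) * (1 / (mm P : ℝ)) ^ 2))
        - ((P.R:ℝ) ^ 2 * ((P.κ : ℝ) + 1) / W0) * (P.R * ((P.k : ℝ) * (1 / (mm P : ℝ)) ^ 2))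
        - 2 * (P.R:ℝ) ^ 2 * ((P.κ : ℝ) + 1) * (2 * (ns P : ℝ) ^ 3 * (1 / (mm P : ℝ)) ^ 3)
        + ∑ j ∈ range P.R, ((P.R : ℝ) * ((Sx (etaN M0 x) j - etaN M0 x j : ℕ) : ℝ) * (1 / (mm P : ℝ)) ^ 2))
      ≤ ∑ F : Finset (Edg P), fP F * hh M0 W0 (nxt x F) := by
  have hm12 := mm_ge hG
  set c : ℝ := ((mm P : ℝ) ^ 2 / (3 * P.R * ((P.κ : ℝ) + 1))) with hc
  have hc0 : 0 ≤ c := coef_nonneg hG
  set lam : ℝ := ((P.R:ℝ) ^ 2 * ((P.κ : ℝ) + 1) / W0) with hlam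
  have hlam0 : 0 ≤ lam := by positivity
  have h1 : ∑ F : Finset (Edg P), fP F * (c * (pot M0 W0 x
        - ∑ i : Fin P.R, (loss P.R (etaN M0 x) i : ℝ) * (if DD x F i then (1:ℝ) else 0)
        - (P.R:ℝ) ^ 2 * ∑ i : Fin P.R, (if EE x F i then (1:ℝ) else 0)
        - lam * ∑ i : Fin P.R, (if UU x F i then (1:ℝ) else 0)
        - 2 * (P.R:ℝ) ^ 2 * ((P.κ : ℝ) + 1) * (if XX x F then (1:ℝ) else 0)
        + ∑ j ∈ range P.R, ((etaN M0 (nxt x F) j - etaN M0 x j : ℕ) : ℝ))) ≤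
      ∑ F : Finset (Edg P), fP F * hh M0 W0 (nxt x F) :=
    sum_le_sum fun F _ => mul_le_mul_of_nonneg_left (pointwise hG hx F) (fP_nonneg F)
  refine le_trans ?_ h1
  have h2 : ∑ F : Finset (Edg P), fP F * (c * (pot M0 W0 x
        - ∑ i : Fin P.R, (loss P.R (etaN M0 x) i : ℝ) * (if DD x F i then (1:ℝ) else 0)
        - (P.R:ℝ) ^ 2 * ∑ i : Fin P.R, (if EE x F i then (1:ℝ) else 0)
        - lam * ∑ i : Fin P.R, (if UU x F i then (1:ℝ) else 0)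
        - 2 * (P.R:ℝ) ^ 2 * ((P.κ : ℝ) + 1) * (if XX x F then (1:ℝ) else 0)
        + ∑ j ∈ range P.R, ((etaN M0 (nxt x F) j - etaN M0 x j : ℕ) : ℝ))) =
      c * (pot M0 W0 x
        - ∑ i : Fin P.R, (loss P.R (etaN M0 x) i : ℝ) * Pr (fun F => DD x F i)
        - (P.R:ℝ) ^ 2 * ∑ i : Fin P.R, Pr (fun F => EE x F i)
        - lam * ∑ i : Fin P.R, Pr (fun F => UU x F i)
        - 2 * (P.R:ℝ) ^ 2 * ((P.κ : ℝ) + 1) * Pr (fun F => XX x F)
        + ∑ j ∈ range P.R, ∑ F : Finset (Edg P), fP F * ((etaN M0 (nxt x F) j - etaN M0 x j : ℕ) : ℝ)) := by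
    have e1 : ∀ (f : Finset (Edg P) → Fin P.R → ℝ), ∑ i : Fin P.R, ∑ F : Finset (Edg P), fP F * f F i =
        ∑ F : Finset (Edg P), fP F * ∑ i : Fin P.R, f F i := by
      intro f
      rw [sum_comm]
      refine sum_congr rfl fun F _ => ?_
      rw [mul_sum]
    have eD : ∑ i : Fin P.R, (loss P.R (etaN M0 x) i : ℝ) * Pr (fun F => DD x F i) =
        ∑ F : Finset (Edg P), fP F *
          ∑ i : Fin P.R, (loss P.R (etaN M0 x) i : ℝ) * (if DD x F i then (1:ℝ) else 0) := by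
      rw [← e1]
      refine sum_congr rfl fun i _ => ?_
      unfold Pr
      rw [mul_sum]
      refine sum_congr rfl fun F _ => ?_
      ring
    have eE : ∑ i : Fin P.R, Pr (fun F => EE x F i) =
        ∑ F : Finset (Edg P), fP F * ∑ i : Fin P.R, (if EE x F i then (1:ℝ) else 0) := by
      rw [← e1]; rfl
    have eU : ∑ i : Fin P.R, Pr (fun F => UU x F i) =
        ∑ F : Finset (Edg P), fP F * ∑ i : Fin P.R, (if UU x F i then (1:ℝ) else 0) := by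
      rw [← e1]; rfl
    have eG : ∑ j ∈ range P.R, ∑ F : Finset (Edg P), fP F * ((etaN M0 (nxt x F) j - etaN M0 x j : ℕ) : ℝ) =
        ∑ F : Finset (Edg P), fP F * ∑ j ∈ range P.R, ((etaN M0 (nxt x F) j - etaN M0 x j : ℕ) : ℝ) := by
      rw [sum_comm]
      refine sum_congr rfl fun F _ => ?_
      rw [mul_sum]
    have eP : pot M0 W0 x = ∑ F : Finset (Edg P), fP F * pot M0 W0 x := by
      rw [← sum_mul, sum_fP, one_mul]
    rw [eD, eE, eU, eG]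
    conv_rhs => rw [eP]
    unfold Pr
    rw [mul_sum (f := fun F => fP F * ∑ i : Fin P.R, (if EE x F i then (1:ℝ) else 0)),
      mul_sum (f := fun F => fP F * ∑ i : Fin P.R, (if UU x F i then (1:ℝ) else 0)),
      mul_sum (f := fun F => fP F * (if XX x F then (1:ℝ) else 0)),
      ← sum_sub_distrib, ← sum_sub_distrib, ← sum_sub_distrib, ← sum_sub_distrib,
      ← sum_add_distrib, mul_sum]
    refine sum_congr rfl fun F _ => ?_
    ring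
  rw [h2]
  apply mul_le_mul_of_nonneg_left _ hc0
  have b1 : ∑ i : Fin P.R, (loss P.R (etaN M0 x) i : ℝ) * Pr (fun F => DD x F i) ≤
      (∑ i : Fin P.R, (loss P.R (etaN M0 x) i : ℝ)) * (1 / (mm P : ℝ)) ^ 2 := by
    rw [sum_mul]
    refine sum_le_sum fun i _ => mul_le_mul_of_nonneg_left ?_ (Nat.cast_nonneg _)
    have := Pr_DD hx i
    rwa [card_mm] at this
  have b2 : (P.R:ℝ) ^ 2 * ∑ i : Fin P.R, Pr (fun F => EE x F i) ≤
      (P.R:ℝ) ^ 2 * (P.R * (((W0 + P.k : ℕ) : ℝ) * (1 / (mm P : ℝ)) ^ 2)) := by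
    apply mul_le_mul_of_nonneg_left _ (by positivity)
    calc ∑ i : Fin P.R, Pr (fun F => EE x F i) ≤
        ∑ i : Fin P.R, (((W0 + P.k : ℕ) : ℝ) * (1 / (mm P : ℝ)) ^ 2) := by
          refine sum_le_sum fun i _ => ?_
          have := Pr_EE hx i W0 (thn_le hG hth i)
          rwa [card_mm] at this
      _ = _ := by simp
  have b3 : lam * ∑ i : Fin P.R, Pr (fun F => UU x F i) ≤
      lam * (P.R * ((P.k : ℝ) * (1 / (mm P : ℝ)) ^ 2)) := by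
    apply mul_le_mul_of_nonneg_left _ hlam0
    calc ∑ i : Fin P.R, Pr (fun F => UU x F i) ≤
        ∑ i : Fin P.R, ((P.k : ℝ) * (1 / (mm P : ℝ)) ^ 2) := by
          refine sum_le_sum fun i _ => ?_
          have := Pr_UU hx i
          rwa [card_mm] at this
      _ = _ := by simp
  have b4 : 2 * (P.R:ℝ) ^ 2 * ((P.κ : ℝ) + 1) * Pr (fun F => XX x F) ≤
      2 * (P.R:ℝ) ^ 2 * ((P.κ : ℝ) + 1) * (2 * (ns P : ℝ) ^ 3 * (1 / (mm P : ℝ)) ^ 3) := by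
    apply mul_le_mul_of_nonneg_left _ (by positivity)
    have h3 : 1 ≤ ns P := by
      unfold ns
      have : 1 * 1 ≤ P.R * (3 * ((P.κ + 1) * P.k) + 3) := Nat.mul_le_mul hG.hR (by omega)
      omega
    have := Pr_XX hx (ns P) (card_Sp_le hx) h3 (by rw [card_mm]; omega)
    rwa [card_mm] at this
  have b5 : ∑ j ∈ range P.R, ((P.R : ℝ) * ((Sx (etaN M0 x) j - etaN M0 x j : ℕ) : ℝ) * (1 / (mm P : ℝ)) ^ 2)
      ≤ ∑ j ∈ range P.R, ∑ F : Finset (Edg P), fP F * ((etaN M0 (nxt x F) j - etaN M0 x j : ℕ) : ℝ) :=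
    sum_le_sum fun j hj => gain_expected hG hx hth j (mem_range.1 hj)
  linarith

/-- the drift inequality -/
theorem drift (x : Finset (Edg P)) :
    hh M0 W0 x ≤ 1 + ∑ F : Finset (Edg P), fP F * hh M0 W0 (nxt x F) := by
  have hrhs : 0 ≤ 1 + ∑ F : Finset (Edg P), fP F * hh M0 W0 (nxt x F) := by
    have : 0 ≤ ∑ F : Finset (Edg P), fP F * hh M0 W0 (nxt x F) :=
      sum_nonneg fun F _ => mul_nonneg (fP_nonneg F) (hh_nonneg hG _)
    linarith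
  by_cases hx : NT x
  swap
  · have : hh M0 W0 x = 0 := by unfold hh; rw [if_neg hx]
    rw [this]; exact hrhs
  by_cases hp : 0 < pot M0 W0 x
  swap
  · have : hh M0 W0 x = 0 := by
      unfold hh
      rw [if_pos hx, max_eq_left (not_lt.1 hp), mul_zero]
    rw [this]; exact hrhs
  have hth := thT_lt hG hp
  have h1 := expected hG hx hth
  have hh1 : hh M0 W0 x = ((mm P : ℝ) ^ 2 / (3 * P.R * ((P.κ : ℝ) + 1))) * pot M0 W0 x := by
    unfold hh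
    rw [if_pos hx, max_eq_right hp.le]
  rw [hh1]
  have hm12 := mm_ge hG
  have hmpos : (0:ℝ) < mm P := by
    have : 0 < mm P := by omega
    exact_mod_cast this
  have hRpos : (1:ℝ) ≤ P.R := by exact_mod_cast hG.hR
  have hWpos : (1:ℝ) ≤ W0 := by exact_mod_cast hG.hW
  have hKpos : (0:ℝ) < (P.κ:ℝ) + 1 := by positivity
  -- the loss bound
  have hL : (∑ i : Fin P.R, (loss P.R (etaN M0 x) i : ℝ)) ≤
      2 * P.R * ((P.κ : ℝ) + 1) + P.R * ∑ j ∈ range P.R, ((Sx (etaN M0 x) j - etaN M0 x j : ℕ) : ℝ) := by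
    have g1 := sum_loss_le P.R (etaN M0 x)
    have g2 : ∑ i : Fin P.R, loss P.R (etaN M0 x) i = ∑ i ∈ range P.R, loss P.R (etaN M0 x) i :=
      Fin.sum_univ_eq_sum_range (fun i => loss P.R (etaN M0 x) i) P.R
    have g3 : ∑ i ∈ range P.R, etaN M0 x i ≤ P.R * (P.κ + 1) := by
      calc ∑ i ∈ range P.R, etaN M0 x i ≤ ∑ i ∈ range P.R, (P.κ + 1) :=
            sum_le_sum fun i _ => by
              have := etaN_le M0 x i
              have := hG.hK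
              omega
        _ = _ := by simp
    have g4 : Sx (etaN M0 x) P.R ≤ P.κ + 1 := Sx_le fun i _ => by
      have := etaN_le M0 x i
      have := hG.hK
      omega
    have g5 : ∑ i : Fin P.R, loss P.R (etaN M0 x) i ≤
        2 * P.R * (P.κ + 1) + P.R * ∑ j ∈ range P.R, (Sx (etaN M0 x) j - etaN M0 x j) := by
      rw [g2]
      refine g1.trans ?_
      have g6 : (P.R - 1) * (Sx (etaN M0 x) P.R + ∑ j ∈ range P.R, (Sx (etaN M0 x) j - etaN M0 x j)) ≤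
          P.R * ((P.κ + 1) + ∑ j ∈ range P.R, (Sx (etaN M0 x) j - etaN M0 x j)) :=
        Nat.mul_le_mul (Nat.sub_le _ _) (Nat.add_le_add_right g4 _)
      calc _ ≤ P.R * (P.κ + 1) + P.R * ((P.κ + 1) + ∑ j ∈ range P.R, (Sx (etaN M0 x) j - etaN M0 x j)) :=
            Nat.add_le_add g3 g6
        _ = _ := by ring
    have g7 : ((∑ i : Fin P.R, loss P.R (etaN M0 x) i : ℕ) : ℝ) ≤
      ((2 * P.R * (P.κ + 1) + P.R * ∑ j ∈ range P.R, (Sx (etaN M0 x) j - etaN M0 x j) : ℕ) : ℝ) := by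
      exact_mod_cast g5
    push_cast at g7
    exact g7
  set G : ℝ := ∑ j ∈ range P.R, ((Sx (etaN M0 x) j - etaN M0 x j : ℕ) : ℝ) with hGdef
  have hGsum : ∑ j ∈ range P.R, ((P.R : ℝ) * ((Sx (etaN M0 x) j - etaN M0 x j : ℕ) : ℝ) * (1 / (mm P : ℝ)) ^ 2)
      = P.R * G * (1 / (mm P : ℝ)) ^ 2 := by
    rw [hGdef, mul_sum, sum_mul]
  rw [hGsum] at h1
  set c : ℝ := ((mm P : ℝ) ^ 2 / (3 * P.R * ((P.κ : ℝ) + 1))) with hc
  have hc0 : 0 ≤ c := coef_nonneg hG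
  set a : ℝ := (1 / (mm P : ℝ)) ^ 2 with ha
  have ha0 : 0 ≤ a := by positivity
  have hca : c * a = 1 / (3 * P.R * ((P.κ : ℝ) + 1)) := by
    rw [hc, ha]; field_simp
  have e3 : (1 / (mm P : ℝ)) ^ 3 = a * (1 / (mm P : ℝ)) := by rw [ha]; ring
  rw [e3] at h1
  -- the four error terms
  have t1 : (P.R:ℝ) ^ 2 * (P.R * ((W0 + P.k : ℕ) : ℝ)) ≤ P.R * ((P.κ : ℝ) + 1) / 3 := by
    have := hG.c3
    have h5 : ((3 * P.R ^ 2 * (W0 + P.k) : ℕ) : ℝ) ≤ ((P.κ + 1 : ℕ) : ℝ) := by exact_mod_cast this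
    push_cast at h5 ⊢
    nlinarith
  have t2 : ((P.R:ℝ) ^ 2 * ((P.κ : ℝ) + 1) / W0) * (P.R * (P.k : ℝ)) ≤ P.R * ((P.κ : ℝ) + 1) / 3 := by
    have := hG.c4
    have h5 : ((3 * P.R ^ 2 * P.k : ℕ) : ℝ) ≤ ((W0 : ℕ) : ℝ) := by exact_mod_cast this
    push_cast at h5
    have h6 : (P.R:ℝ) ^ 2 * P.k / W0 ≤ 1 / 3 := by
      rw [div_le_div_iff₀ (by linarith) (by norm_num)]
      linarith
    calc ((P.R:ℝ) ^ 2 * ((P.κ : ℝ) + 1) / W0) * (P.R * (P.k : ℝ)) =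
        ((P.R:ℝ) ^ 2 * P.k / W0) * (P.R * ((P.κ : ℝ) + 1)) := by ring
      _ ≤ (1 / 3) * (P.R * ((P.κ : ℝ) + 1)) := mul_le_mul_of_nonneg_right h6 (by positivity)
      _ = _ := by ring
  have t3 : 2 * (P.R:ℝ) ^ 2 * ((P.κ : ℝ) + 1) * (2 * (ns P : ℝ) ^ 3 * (1 / (mm P : ℝ))) ≤
      P.R * ((P.κ : ℝ) + 1) / 3 := by
    have := hG.c2
    have h5 : ((12 * P.R * ns P ^ 3 : ℕ) : ℝ) ≤ ((mm P : ℕ) : ℝ) := by exact_mod_cast this
    push_cast at h5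
    have h6 : (P.R:ℝ) * (ns P : ℝ) ^ 3 / mm P ≤ 1 / 12 := by
      rw [div_le_div_iff₀ hmpos (by norm_num)]
      linarith
    calc 2 * (P.R:ℝ) ^ 2 * ((P.κ : ℝ) + 1) * (2 * (ns P : ℝ) ^ 3 * (1 / (mm P : ℝ))) =
        ((P.R:ℝ) * (ns P : ℝ) ^ 3 / mm P) * (4 * P.R * ((P.κ : ℝ) + 1)) := by ring
      _ ≤ (1 / 12) * (4 * P.R * ((P.κ : ℝ) + 1)) := mul_le_mul_of_nonneg_right h6 (by positivity)
      _ = _ := by ring
  -- conclusion
  have h2 : c * (pot M0 W0 x) - c * a * (3 * P.R * ((P.κ : ℝ) + 1)) ≤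
      ∑ F : Finset (Edg P), fP F * hh M0 W0 (nxt x F) := by
    refine le_trans ?_ h1
    have h3 : pot M0 W0 x - a * (3 * P.R * ((P.κ : ℝ) + 1)) ≤
        pot M0 W0 x - (∑ i : Fin P.R, (loss P.R (etaN M0 x) i : ℝ)) * a
        - (P.R:ℝ) ^ 2 * (P.R * (((W0 + P.k : ℕ) : ℝ) * a))
        - ((P.R:ℝ) ^ 2 * ((P.κ : ℝ) + 1) / W0) * (P.R * ((P.k : ℝ) * a))
        - 2 * (P.R:ℝ) ^ 2 * ((P.κ : ℝ) + 1) * (2 * (ns P : ℝ) ^ 3 * (a * (1 / (mm P : ℝ))))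
        + P.R * G * a := by
      have k0 := mul_le_mul_of_nonneg_left hL ha0
      have k1 := mul_le_mul_of_nonneg_left t1 ha0
      have k2 := mul_le_mul_of_nonneg_left t2 ha0
      have k3 := mul_le_mul_of_nonneg_left t3 ha0
      have e1 : a * (3 * P.R * ((P.κ : ℝ) + 1)) = a * (2 * P.R * ((P.κ : ℝ) + 1) + P.R * G)
          - P.R * G * a + a * (P.R * ((P.κ : ℝ) + 1) / 3) + a * (P.R * ((P.κ : ℝ) + 1) / 3)
          + a * (P.R * ((P.κ : ℝ) + 1) / 3) := by ring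
      rw [e1]
      have e2 : (P.R:ℝ) ^ 2 * (P.R * (((W0 + P.k : ℕ) : ℝ) * a)) = a * ((P.R:ℝ) ^ 2 * (P.R * ((W0 + P.k : ℕ) : ℝ))) := by ring
      have e4 : ((P.R:ℝ) ^ 2 * ((P.κ : ℝ) + 1) / W0) * (P.R * ((P.k : ℝ) * a)) =
        a * (((P.R:ℝ) ^ 2 * ((P.κ : ℝ) + 1) / W0) * (P.R * (P.k : ℝ))) := by ring
      have e5 : 2 * (P.R:ℝ) ^ 2 * ((P.κ : ℝ) + 1) * (2 * (ns P : ℝ) ^ 3 * (a * (1 / (mm P : ℝ)))) =
        a * (2 * (P.R:ℝ) ^ 2 * ((P.κ : ℝ) + 1) * (2 * (ns P : ℝ) ^ 3 * (1 / (mm P : ℝ)))) := by ring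
      rw [e2, e4, e5]
      linarith
    have h4 := mul_le_mul_of_nonneg_left h3 hc0
    linarith
  have h3 : c * a * (3 * P.R * ((P.κ : ℝ) + 1)) = 1 := by
    rw [hca]
    have : (3 * (P.R:ℝ) * ((P.κ : ℝ) + 1)) ≠ 0 := by positivity
    field_simp
  linarith

end

end Pool.Agent.helper1.MST
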