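import Mathlib
import Pool.Agent.helper1.MST.Defs

open scoped Classical
open Finset

namespace Pool.Agent.helper1.MST

namespace Inst

variable (I : Inst)

lemma one_div_m_nonneg : (0:ℝ) ≤ 1 / (I.m : ℝ) := by positivity

lemma one_sub_nonneg : (0:ℝ) ≤ 1 - 1 / (I.m : ℝ) := by
  rcases Nat.eq_zero_or_pos I.m with h | h
  · simp [h]
  · have : (1:ℝ) ≤ I.m := by exact_mod_cast h
    have : 1 / (I.m : ℝ) ≤ 1 := by
      rw [div_le_one (by linarith)]; exact this
    linarith

lemma flipProb_nonneg (F : Finset I.E) : 0 ≤ I.flipProb F := by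
  unfold flipProb
  exact mul_nonneg (pow_nonneg I.one_div_m_nonneg _) (pow_nonneg I.one_sub_nonneg _)

lemma next_IsST {x : Finset I.E} (hx : I.IsST x) (y : Finset I.E) : I.IsST (I.next x y) := by
  unfold next
  split_ifs with h
  · exact h.1
  · exact hx

lemma surv_nonneg (t : ℕ) (x : Finset I.E) : 0 ≤ I.surv t x := by
  induction t generalizing x with
  | zero => unfold surv; split_ifs <;> norm_num
  | succ t ih =>
    unfold surv
    split_ifs
    · exact le_refl _
    · exact sum_nonneg fun F _ => mul_nonneg (I.flipProb_nonneg F) (ih _)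

lemma drift_aux (h : Finset I.E → ℝ) (H : ℝ) (hH : ∀ x, h x ≤ H)
    (hopt : ∀ x, I.Optimal x → h x = 0)
    (hdrift : ∀ x, I.IsST x → ¬ I.Optimal x →
      h x ≤ 1 + ∑ F : Finset I.E, I.flipProb F * h (I.next x (symmDiff x F)))
    (t : ℕ) (x : Finset I.E) (hx : I.IsST x) :
    h x ≤ ∑ s ∈ range t, I.surv s x + H * I.surv t x := by
  induction t generalizing x with
  | zero =>
    simp only [range_zero, sum_empty, zero_add]
    unfold surv
    split_ifs with h1
    · rw [hopt x h1]; simp
    · simpa using hH x
  | succ t ih =>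
    by_cases h1 : I.Optimal x
    · rw [hopt x h1]
      have h2 : ∀ s, I.surv s x = 0 := by
        intro s
        cases s <;> simp [surv, h1]
      simp [h2]
    · have hs0 : I.surv 0 x = 1 := by simp [surv, h1]
      have hs : ∀ s, I.surv (s+1) x =
          ∑ F : Finset I.E, I.flipProb F * I.surv s (I.next x (symmDiff x F)) := by
        intro s; simp [surv, h1]
      rw [sum_range_succ', hs0]
      have h3 : ∑ F : Finset I.E, I.flipProb F * h (I.next x (symmDiff x F))
          ≤ ∑ F : Finset I.E, I.flipProb F *
            (∑ s ∈ range t, I.surv s (I.next x (symmDiff x F))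
              + H * I.surv t (I.next x (symmDiff x F))) := by
        refine sum_le_sum fun F _ => mul_le_mul_of_nonneg_left ?_ (I.flipProb_nonneg F)
        exact ih _ (I.next_IsST hx _)
      have h4 : ∑ F : Finset I.E, I.flipProb F *
            (∑ s ∈ range t, I.surv s (I.next x (symmDiff x F))
              + H * I.surv t (I.next x (symmDiff x F)))
          = ∑ s ∈ range t, I.surv (s+1) x + H * I.surv (t+1) x := by
        simp only [hs, mul_add, sum_add_distrib]
        congr 1
        · simp only [mul_sum]
          rw [sum_comm]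
        · rw [mul_sum]
          refine sum_congr rfl fun F _ => by ring
      have h5 := hdrift x hx h1
      linarith

/-- The additive drift theorem (lower bound). -/
theorem expT_ge (h : Finset I.E → ℝ) (H : ℝ) (hH : ∀ x, h x ≤ H)
    (hopt : ∀ x, I.Optimal x → h x = 0)
    (hdrift : ∀ x, I.IsST x → ¬ I.Optimal x →
      h x ≤ 1 + ∑ F : Finset I.E, I.flipProb F * h (I.next x (symmDiff x F))) :
    ENNReal.ofReal (h I.x0) ≤ I.expT := by
  by_cases htop : I.expT = ⊤
  · rw [htop]; exact le_top
  · have hsum : Summable (fun t => I.surv t I.x0) := by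
      have := ENNReal.summable_toReal htop
      refine this.congr fun t => ?_
      exact ENNReal.toReal_ofReal (I.surv_nonneg t I.x0)
    have h1 : h I.x0 ≤ ∑' t, I.surv t I.x0 := by
      have h2 : Filter.Tendsto (fun t => ∑ s ∈ range t, I.surv s I.x0 + H * I.surv t I.x0)
          Filter.atTop (nhds (∑' t, I.surv t I.x0 + H * 0)) :=
        hsum.hasSum.tendsto_sum_nat.add (hsum.tendsto_atTop_zero.const_mul H)
      rw [mul_zero, add_zero] at h2
      exact ge_of_tendsto' h2 fun t => I.drift_aux h H hH hopt hdrift t I.x0 I.x0_tree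
    unfold expT
    rw [← ENNReal.ofReal_tsum_of_nonneg (fun t => I.surv_nonneg t I.x0) hsum]
    exact ENNReal.ofReal_le_ofReal h1

end Inst

end Pool.Agent.helper1.MST
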