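import Mathlib
import Pool.Agent.helper1.MST.Moves
import Pool.Agent.helper1.MST.Drift

open scoped Classical
open Finset

namespace Pool.Agent.helper1.MST

set_option linter.unusedSectionVars false
set_option linter.unusedVariables false

variable {P : Par}

lemma pv_inj (i : Fin P.R) {a b : ℕ} (ha : a ≤ P.L) (hb : b ≤ P.L) (h : pv i a = pv i b) : a = b := by
  unfold pv at h
  split_ifs at h with h1 h2 h2
  · injection h with _ h
    injection h
  · omega

lemma pv_ne_chd (i i' : Fin P.R) (r : ℕ) (c : Fin P.C) : pv i r ≠ Vtx.chd i' c := by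
  unfold pv; split_ifs <;> simp
lemma pv_ne_dum (i : Fin P.R) (r : ℕ) (q : Fin P.Q) : pv i r ≠ Vtx.dum q := by
  unfold pv; split_ifs <;> simp

lemma ends_ne (e : Edg P) : esrc e ≠ edst e := by
  cases e with
  | pth i p =>
    simp only [esrc, edst]
    intro h
    have := (pv_eq_pth h.symm).2
    omega
  | pen i c => exact (pv_ne_chd _ _ _ _).symm
  | hvy i c => exact (pv_ne_chd _ _ _ _).symm
  | dum q => simp [esrc, edst]

lemma ends_inj : Function.Injective (fun e : Edg P => s(esrc e, edst e)) := by
  intro e e' h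
  simp only [Sym2.eq_iff] at h
  cases e with
  | pth i p =>
    cases e' with
    | pth i' p' =>
      simp only [esrc, edst] at h
      rcases h with ⟨h1, _⟩ | ⟨h1, h2⟩
      · injection h1 with h1 h2
        rw [h1, h2]
      · exfalso
        have h3 := (pv_eq_pth h1.symm).2
        have h4 := (pv_eq_pth h2).2
        omega
    | pen i' c =>
      simp only [esrc, edst] at h
      rcases h with ⟨h1, _⟩ | ⟨h1, h2⟩
      · cases h1
      · exact absurd h2 (pv_ne_chd _ _ _ _)
    | hvy i' c =>
      simp only [esrc, edst] at h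
      rcases h with ⟨h1, _⟩ | ⟨h1, h2⟩
      · cases h1
      · exact absurd h2 (pv_ne_chd _ _ _ _)
    | dum q =>
      simp only [esrc, edst] at h
      rcases h with ⟨h1, _⟩ | ⟨h1, h2⟩
      · cases h1
      · exact absurd h2 (pv_ne_dum _ _ _)
  | pen i c =>
    cases e' with
    | pth i' p' =>
      simp only [esrc, edst] at h
      rcases h with ⟨h1, _⟩ | ⟨h1, h2⟩
      · cases h1
      · exact absurd h1.symm (pv_ne_chd _ _ _ _)
    | pen i' c' =>
      simp only [esrc, edst] at h
      rcases h with ⟨h1, _⟩ | ⟨h1, h2⟩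
      · injection h1 with h1 h2
        rw [h1, h2]
      · exact absurd h1.symm (pv_ne_chd _ _ _ _)
    | hvy i' c' =>
      simp only [esrc, edst] at h
      rcases h with ⟨h1, h2⟩ | ⟨h1, h2⟩
      · exfalso
        injection h1 with h3 h4
        subst h3 h4
        have h5 := P.cl_lt_C c
        have h6 := pv_inj _ (P.ps_le_L (by omega)) (P.ps_le_L (by omega)) h2
        have h7 := congrArg P.cl h6
        rw [P.cl_ps, P.cl_ps] at h7
        omega
      · exact absurd h1.symm (pv_ne_chd _ _ _ _)
    | dum q =>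
      simp only [esrc, edst] at h
      rcases h with ⟨h1, _⟩ | ⟨h1, h2⟩
      · cases h1
      · exact absurd h2 (pv_ne_dum _ _ _)
  | hvy i c =>
    cases e' with
    | pth i' p' =>
      simp only [esrc, edst] at h
      rcases h with ⟨h1, _⟩ | ⟨h1, h2⟩
      · cases h1
      · exact absurd h1.symm (pv_ne_chd _ _ _ _)
    | hvy i' c' =>
      simp only [esrc, edst] at h
      rcases h with ⟨h1, _⟩ | ⟨h1, h2⟩
      · injection h1 with h1 h2
        rw [h1, h2]
      · exact absurd h1.symm (pv_ne_chd _ _ _ _)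
    | pen i' c' =>
      simp only [esrc, edst] at h
      rcases h with ⟨h1, h2⟩ | ⟨h1, h2⟩
      · exfalso
        injection h1 with h3 h4
        subst h3 h4
        have h5 := P.cl_lt_C c
        have h6 := pv_inj _ (P.ps_le_L (by omega)) (P.ps_le_L (by omega)) h2
        have h7 := congrArg P.cl h6
        rw [P.cl_ps, P.cl_ps] at h7
        omega
      · exact absurd h1.symm (pv_ne_chd _ _ _ _)
    | dum q =>
      simp only [esrc, edst] at h
      rcases h with ⟨h1, _⟩ | ⟨h1, h2⟩
      · cases h1
      · exact absurd h2 (pv_ne_dum _ _ _)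
  | dum q =>
    cases e' with
    | pth i' p' =>
      simp only [esrc, edst] at h
      rcases h with ⟨h1, _⟩ | ⟨h1, h2⟩
      · cases h1
      · exact absurd h1.symm (pv_ne_dum _ _ _)
    | pen i' p' =>
      simp only [esrc, edst] at h
      rcases h with ⟨h1, _⟩ | ⟨h1, h2⟩
      · cases h1
      · exact absurd h1.symm (pv_ne_dum _ _ _)
    | hvy i' p' =>
      simp only [esrc, edst] at h
      rcases h with ⟨h1, _⟩ | ⟨h1, h2⟩
      · cases h1
      · exact absurd h1.symm (pv_ne_dum _ _ _)
    | dum q' =>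
      simp only [esrc, edst] at h
      rcases h with ⟨h1, _⟩ | ⟨h1, h2⟩
      · injection h1 with h1; rw [h1]
      · cases h1

instance : Nonempty (Vtx P) := ⟨Vtx.root⟩

/-- the graph of the construction -/
def gr (P : Par) : SimpleGraph (Vtx P) :=
  SimpleGraph.fromEdgeSet (Set.range (fun e : Edg P => s(esrc e, edst e)))

lemma gr_edgeSet (P : Par) : (gr P).edgeSet = Set.range (fun e : Edg P => s(esrc e, edst e)) := by
  unfold gr
  rw [SimpleGraph.edgeSet_fromEdgeSet]
  ext a
  constructor
  · rintro ⟨h, _⟩; exact h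
  · rintro ⟨e, h⟩
    refine ⟨⟨e, h⟩, ?_⟩
    rw [← h]
    exact fun hd => ends_ne e hd

noncomputable def grEquiv (P : Par) : Edg P ≃ (gr P).edgeSet :=
  (Equiv.ofInjective _ ends_inj).trans (Equiv.setCongr (gr_edgeSet P).symm)

lemma grEquiv_apply (e : Edg P) : ((grEquiv P e : (gr P).edgeSet) : Sym2 (Vtx P)) = s(esrc e, edst e) := rfl

lemma gr_connected {x : Finset (Edg P)} (hx : Cn x) : (gr P).Connected := by
  rw [SimpleGraph.connected_iff]
  refine ⟨?_, inferInstance⟩
  intro u v
  have h1 := hx (fun w => decide ((gr P).Reachable u w)) (by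
    intro e he
    have h2 : (gr P).Adj (esrc e) (edst e) := by
      unfold gr
      rw [SimpleGraph.fromEdgeSet_adj]
      exact ⟨⟨e, rfl⟩, ends_ne e⟩
    simp only [decide_eq_decide]
    exact ⟨fun h => h.trans h2.reachable, fun h => h.trans h2.symm.reachable⟩) u v
  simp only [decide_eq_decide] at h1
  exact h1.1 (SimpleGraph.Reachable.refl u)

/-- the instance with the initial tree `x` -/
noncomputable def mdl {x : Finset (Edg P)} (hx : Tr x) : Inst where
  V := Vtx P
  E := Edg P
  G := gr P
  connected := gr_connected hx.1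
  edge := grEquiv P
  w := ww
  w_pos := ww_pos
  x0 := x
  x0_tree := (isTree_iff_tree esrc edst ends_inj ends_ne x).2 hx

lemma mdl_isST {x : Finset (Edg P)} (hx : Tr x) (y : Finset (Edg P)) :
    (mdl hx).IsST y ↔ Tr y := isTree_iff_tree esrc edst ends_inj ends_ne y

lemma mdl_weight {x : Finset (Edg P)} (hx : Tr x) (y : Finset (Edg P)) :
    (mdl hx).weight y = ∑ e ∈ y, ww e := rfl

lemma mdl_m {x : Finset (Edg P)} (hx : Tr x) : (mdl hx).m = P.R * (P.L + 2 * P.C) + P.Q :=
  card_edg P

end Pool.Agent.helper1.MST
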