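import Mathlib
import Pool.Agent.helper1.MST.MainDrift
import Pool.Agent.helper1.MST.Model

open scoped Classical
open Finset

namespace Pool.Agent.helper1.MST

set_option linter.unusedSectionVars false
set_option linter.unusedVariables false

variable {P : Par}

/-- membership in the initial tree -/
def inInit : Edg P → Prop
  | Edg.pth _ p => (p:ℕ) ≠ 0
  | Edg.pen _ _ => True
  | Edg.hvy _ c => (c:ℕ) = 0
  | Edg.dum _ => True

/-- the initial tree -/
noncomputable def init (P : Par) : Finset (Edg P) := univ.filter inInit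

lemma mem_init (e : Edg P) : e ∈ init P ↔ inInit e := by simp [init]

def bk : Edg P → Vtx P
  | Edg.pth i p => Vtx.pth i p
  | Edg.pen i c => Vtx.chd i c
  | Edg.hvy i _ => pv i 0
  | Edg.dum q => Vtx.dum q

lemma L_pos (P : Par) : 0 < P.L := lt_of_lt_of_le P.hN (Nat.le_add_right _ _)
lemma C_pos (P : Par) : 0 < P.C := lt_of_lt_of_le P.hN (Nat.le_add_right _ _)

lemma pv_zero (i : Fin P.R) : pv i 0 = Vtx.pth i ⟨0, L_pos P⟩ := by
  unfold pv; rw [dif_pos (L_pos P)]

lemma card_init (P : Par) : (init P).card + 1 = Fintype.card (Vtx P) := by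
  have himg : (init P).image bk = univ.erase Vtx.root := by
    ext v
    rw [mem_image, mem_erase]
    constructor
    · rintro ⟨e, he, rfl⟩
      refine ⟨?_, mem_univ _⟩
      cases e with
      | pth i p => simp [bk]
      | pen i c => simp [bk]
      | hvy i c => simp [bk, pv_zero]
      | dum q => simp [bk]
    · rintro ⟨hv, -⟩
      cases v with
      | root => exact absurd rfl hv
      | pth i p =>
        by_cases hp : (p:ℕ) = 0
        · refine ⟨Edg.hvy i ⟨0, C_pos P⟩, by rw [mem_init]; rfl, ?_⟩
          simp only [bk, pv_zero]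
          congr 1
          exact Fin.ext hp.symm
        · exact ⟨Edg.pth i p, by rw [mem_init]; exact hp, rfl⟩
      | chd i c => exact ⟨Edg.pen i c, by rw [mem_init]; trivial, rfl⟩
      | dum q => exact ⟨Edg.dum q, by rw [mem_init]; trivial, rfl⟩
  have hinj : Set.InjOn (bk (P := P)) (init P : Set (Edg P)) := by
    intro e he e' he' h
    rw [mem_coe, mem_init] at he he'
    cases e with
    | pth i p =>
      cases e' with
      | pth i' p' => simp only [bk] at h; injection h with h1 h2; rw [h1, h2]
      | pen i' c' => simp [bk] at h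
      | hvy i' c' =>
        simp only [bk, pv_zero] at h
        injection h with h1 h2
        exfalso
        apply he
        rw [h2]
      | dum q => simp [bk] at h
    | pen i c =>
      cases e' with
      | pth i' p' => simp [bk] at h
      | pen i' c' => simp only [bk] at h; injection h with h1 h2; rw [h1, h2]
      | hvy i' c' => simp [bk, pv_zero] at h
      | dum q => simp [bk] at h
    | hvy i c =>
      cases e' with
      | pth i' p' =>
        simp only [bk, pv_zero] at h
        injection h with h1 h2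
        exfalso
        apply he'
        rw [← h2]
      | pen i' c' => simp [bk, pv_zero] at h
      | hvy i' c' =>
        simp only [bk, pv_zero] at h
        injection h with h1 h2
        have h3 : c = c' := Fin.ext (he.trans he'.symm)
        rw [h1, h3]
      | dum q => simp [bk, pv_zero] at h
    | dum q =>
      cases e' with
      | pth i' p' => simp [bk] at h
      | pen i' c' => simp [bk] at h
      | hvy i' c' => simp [bk, pv_zero] at h
      | dum q' => simp only [bk] at h; injection h with h1; rw [h1]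
  rw [← card_image_of_injOn hinj, himg, card_erase_of_mem (mem_univ _), card_univ]
  have : 0 < Fintype.card (Vtx P) := Fintype.card_pos
  omega

lemma conn_init (P : Par) : Cn (init P) := by
  intro f hf
  have hroot : ∀ v, f v = f Vtx.root := by
    have hpth : ∀ i : Fin P.R, ∀ p, 1 ≤ p → p ≤ P.L → f (pv i p) = f Vtx.root := by
      intro i p h1 h2
      have h3 : f (pv i p) = f (pv i P.L) := by
        refine const_of_steps (φ := fun p => f (pv i p)) h2 ?_
        intro q hq1 hq2
        have := hf (Edg.pth i ⟨q, hq2⟩) (by rw [mem_init]; show q ≠ 0; omega)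
        simp only [esrc, edst] at this
        have h4 : pv i q = Vtx.pth i ⟨q, hq2⟩ := by unfold pv; rw [dif_pos hq2]
        show f (pv i q) = f (pv i (q+1))
        rw [h4]; exact this
      rw [h3]
      congr 1
      unfold pv
      rw [dif_neg (lt_irrefl _)]
    have hchd : ∀ (i : Fin P.R) (c : Fin P.C), f (Vtx.chd i c) = f Vtx.root := by
      intro i c
      have h1 := hf (Edg.pen i c) (by rw [mem_init]; trivial)
      simp only [esrc, edst] at h1
      rw [h1]
      have h2 := P.cl_lt_C c
      apply hpth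
      · have : P.ps 1 ≤ P.ps (P.cl c + 2) := P.ps_mono (by omega)
        have h3 : P.ps 1 = P.N := by simp [Par.ps]
        have := P.hN
        omega
      · exact P.ps_le_L (by omega)
    intro v
    cases v with
    | root => rfl
    | pth i p =>
      have h4 : pv i (p:ℕ) = Vtx.pth i p := by simp [pv]
      by_cases hp : (p:ℕ) = 0
      · have h1 := hf (Edg.hvy i ⟨0, C_pos P⟩) (by rw [mem_init]; rfl)
        simp only [esrc, edst] at h1
        rw [hchd] at h1
        have h2 : P.cl 0 = 0 := (P.cl_eq_zero_iff 0).2 P.hN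
        rw [h2] at h1
        have h3 : P.ps 0 = 0 := rfl
        rw [h3] at h1
        rw [← h4, hp, ← h1]
      · rw [← h4]
        exact hpth i p (by omega) p.2.le
    | chd i c => exact hchd i c
    | dum q => exact hf (Edg.dum q) (by rw [mem_init]; trivial)
  intro u v
  rw [hroot u, hroot v]

lemma tr_init (P : Par) : Tr (init P) := ⟨conn_init P, card_init P⟩

lemma nt_init (P : Par) : NT (init P) := ⟨tr_init P, fun i c => by rw [mem_init]; trivial⟩

lemma etaN_init (M0 : ℕ) (j : ℕ) (hj : j < P.R) : etaN M0 (init P) j = M0 := by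
  have h1 := etaN_fin M0 (init P) ⟨j, hj⟩
  simp only at h1
  rw [h1]
  apply le_antisymm (eta_le _ _ _)
  have h2 := eta_ge (M0 := M0) (x := init P) (i := ⟨j, hj⟩) (c := ⟨0, C_pos P⟩)
    (by rw [mem_init]; rfl)
  rw [(P.cl_eq_zero_iff 0).2 P.hN] at h2
  simpa using h2

lemma thT_init (P : Par) : thT (init P) = 0 := by
  unfold thT
  apply sum_eq_zero
  intro i _
  unfold thn
  rw [card_eq_zero, filter_eq_empty_iff]
  intro c _ h
  rw [mem_init] at h
  have h1 : (c:ℕ) = 0 := h.2
  have := P.hN
  omega

section
variable {M0 W0 : ℕ} (hG : Good P M0 W0)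
include hG

lemma hh_init : hh M0 W0 (init P) = (mm P : ℝ) ^ 2 * P.R * M0 / (3 * ((P.κ:ℝ) + 1)) := by
  have hR : (P.R:ℝ) ≠ 0 := by
    have := hG.hR
    have h : (1:ℝ) ≤ P.R := by exact_mod_cast this
    linarith
  unfold hh
  rw [if_pos (nt_init P)]
  unfold pot
  rw [thT_init, Ps_const P.R hG.hR _ M0 fun j hj => etaN_init M0 j hj]
  push_cast
  rw [mul_zero, sub_zero, max_eq_right (by positivity)]
  field_simp

lemma hh_le (x : Finset (Edg P)) : hh M0 W0 x ≤
    ((mm P : ℝ) ^ 2 / (3 * P.R * ((P.κ : ℝ) + 1))) * ((P.R:ℝ) ^ 2 * ((P.κ : ℝ) + 1)) := by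
  unfold hh
  split_ifs
  · apply mul_le_mul_of_nonneg_left _ (coef_nonneg hG)
    exact max_le (by positivity) (pot_le hG x)
  · exact mul_nonneg (coef_nonneg hG) (by positivity)

/-- at a minimum spanning tree the potential vanishes -/
lemma hh_opt (x : Finset (Edg P)) (hopt : ∀ y : Finset (Edg P), Tr y → ∑ e ∈ x, ww e ≤ ∑ e ∈ y, ww e) :
    hh M0 W0 x = 0 := by
  by_cases hx : NT x
  swap
  · unfold hh; rw [if_neg hx]
  by_cases hp : 0 < pot M0 W0 x
  swap
  · unfold hh
    rw [if_pos hx, max_eq_left (not_lt.1 hp), mul_zero]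
  exfalso
  have hth := thT_lt hG hp
  have hPs : 0 < Ps P.R (etaN M0 x) := by
    by_contra hc
    have h0 : Ps P.R (etaN M0 x) = 0 := by omega
    unfold pot at hp
    rw [h0] at hp
    have : (0:ℝ) ≤ ((P.R:ℝ) ^ 2 * ((P.κ : ℝ) + 1) / W0) * thT x := by positivity
    simp only [Nat.cast_zero] at hp
    linarith
  have hex : ∃ i : Fin P.R, 0 < eta M0 x i := by
    by_contra hc
    push Not at hc
    have h1 := Ps_le P.R (etaN M0 x) 0 (by
      intro j hj
      have h2 := etaN_fin M0 x ⟨j, hj⟩
      simp only at h2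
      rw [h2]
      exact hc _)
    omega
  obtain ⟨i, hi⟩ := hex
  obtain ⟨s, t, hst, -⟩ := improving hx (M0 := M0) (W0 := W0) hG.hK.le
    ((preN_le_thn hx _ _).trans (thn_le hG hth _)) hi
  obtain ⟨g1, g2, g3, g4, g5, g6⟩ := hst ⟨0, P.hk⟩
  have h1 := hopt _ g6
  have h2 : t ⟨0, P.hk⟩ ∉ x.erase (s ⟨0, P.hk⟩) := fun h => g2 (mem_of_mem_erase h)
  rw [sum_insert h2] at h1
  have h3 := add_sum_erase x ww g1
  have h4 : ww (t ⟨0, P.hk⟩) < ww (s ⟨0, P.hk⟩) := by
    unfold ww
    rw [g3, g4, if_pos i.2, if_pos i.2]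
    apply Nat.mul_lt_mul_of_pos_left g5
    exact Nat.pow_pos (by unfold Bs; omega)
  omega

/-- the lower bound for the expected runtime -/
theorem expT_bound :
    ENNReal.ofReal ((mm P : ℝ) ^ 2 * P.R * M0 / (3 * ((P.κ:ℝ) + 1))) ≤ (mdl (tr_init P)).expT := by
  rw [← hh_init hG]
  refine (mdl (tr_init P)).expT_ge (fun x => hh M0 W0 (x : Finset (Edg P))) _ (hh_le hG) ?_ ?_
  · intro x hx
    apply hh_opt hG
    intro y hy
    exact hx.2 y ((mdl_isST _ y).2 hy)
  · intro x _ _
    have h1 := drift hG x
    refine h1.trans (le_of_eq ?_)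
    congr 1
    refine sum_congr rfl fun F _ => ?_
    have h2 : (mdl (tr_init P)).flipProb F = fP (E := Edg P) F := rfl
    have h3 : (mdl (tr_init P)).next x (symmDiff x F) = nxt (P := P) x F := by
      unfold Inst.next nxt
      congr 1
      exact propext (and_congr (mdl_isST _ _) Iff.rfl)
    show fP (E := Edg P) F * hh M0 W0 (nxt (P := P) x F) = _
    rw [← h3]
    rfl

end

end Pool.Agent.helper1.MST
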