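import Mathlib
import Pool.Agent.helper1.MST.Final

open scoped Classical
open Finset

namespace Pool.Agent.helper1.MST

set_option linter.unusedVariables false

lemma up_bound {b R m : ℕ} (hR : 1 ≤ R) (h2 : m < 4 * b * (R + 1) ^ 34) :
    m ≤ 4 * b * (2 ^ 34 * R ^ 34) := by
  have e1 : (R + 1) ^ 34 ≤ (2 * R) ^ 34 := Nat.pow_le_pow_left (by omega) _
  rw [mul_pow] at e1
  exact h2.le.trans (Nat.mul_le_mul_left _ e1)

/-- For a suitable constant `D` every `m` with `D * R ^ 34 ≤ m < D * (R + 1) ^ 34` admits an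
instance with `m` edges and expected runtime at least `m ^ 2 * R / 4`. -/
theorem exists_inst_aux (a b : ℕ) (ha : 48 * 2 ^ 68 ≤ a) (hb : b = 4 * 39 ^ 3 * a ^ 6)
    (R m : ℕ) (hR : 1 ≤ R) (h1 : 4 * b * R ^ 34 ≤ m) (hmup : m ≤ 4 * b * (2 ^ 34 * R ^ 34)) :
    ∃ I : Inst, I.m = m ∧ ENNReal.ofReal ((m:ℝ) ^ 2 * R / 4) ≤ I.expT := by
  have ha1 : 1 ≤ a := le_trans (by norm_num) ha
  have hb1 : 1 ≤ b := by
    rw [hb]
    have : 1 ≤ a ^ 6 := Nat.one_le_pow _ _ ha1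
    omega
  have hR3 : 1 ≤ R ^ 3 := Nat.one_le_pow _ _ hR
  have hR7 : 1 ≤ R ^ 7 := Nat.one_le_pow _ _ hR
  have haR7 : 1 ≤ a * R ^ 7 := Nat.mul_le_mul ha1 hR7
  -- the parameters
  obtain ⟨N, hN⟩ : ∃ N, N = b * R ^ 33 := ⟨_, rfl⟩
  obtain ⟨k, hk⟩ : ∃ k, k = a * R ^ 3 := ⟨_, rfl⟩
  obtain ⟨κ, hκ⟩ : ∃ κ, κ = 12 * a * R ^ 7 - 1 := ⟨_, rfl⟩
  have hκ1 : κ + 1 = 12 * a * R ^ 7 := by
    rw [hκ]
    have : 1 ≤ 12 * a * R ^ 7 := by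
      have : 12 * a * R ^ 7 = 12 * (a * R ^ 7) := by ring
      omega
    omega
  have hNpos : 0 < N := by rw [hN]; exact Nat.mul_pos hb1 (Nat.pow_pos hR)
  have hkpos : 0 < k := by rw [hk]; exact Nat.mul_pos ha1 (Nat.pow_pos hR)
  -- size of one gadget
  have hkk : 3 * ((κ + 1) * k) = 36 * a ^ 2 * R ^ 10 := by
    rw [hκ1, hk]; ring
  have h36 : 36 * a ^ 2 * R ^ 10 ≤ N := by
    rw [hN, hb]
    have e1 : a ^ 2 ≤ a ^ 6 := Nat.pow_le_pow_right ha1 (by norm_num)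
    have e2 : R ^ 10 ≤ R ^ 33 := Nat.pow_le_pow_right hR (by norm_num)
    calc 36 * a ^ 2 * R ^ 10 ≤ (4 * 39 ^ 3) * a ^ 6 * R ^ 33 :=
          Nat.mul_le_mul (Nat.mul_le_mul (by norm_num) e1) e2
      _ = _ := by ring
  have hκk : κ * k ≤ (κ + 1) * k := Nat.mul_le_mul_right _ (Nat.le_succ _)
  have hbase : R * ((N + (κ + 1) * k) + 2 * (N + κ * k)) ≤ 4 * b * R ^ 34 := by
    have e1 : (N + (κ + 1) * k) + 2 * (N + κ * k) ≤ 4 * N := by omega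
    calc R * ((N + (κ + 1) * k) + 2 * (N + κ * k)) ≤ R * (4 * N) := Nat.mul_le_mul_left _ e1
      _ = _ := by rw [hN]; ring
  obtain ⟨Q, hQ⟩ : ∃ Q, Q = m - R * ((N + (κ + 1) * k) + 2 * (N + κ * k)) := ⟨_, rfl⟩
  let P : Par := ⟨R, N, k, κ, Q, hNpos, hkpos⟩
  have hmm : mm P = m := by
    show R * ((N + (κ + 1) * k) + 2 * (N + κ * k)) + Q = m
    omega
  have hmlow : 3 * (R * N) ≤ m := by
    have e1 : 3 * N ≤ (N + (κ + 1) * k) + 2 * (N + κ * k) := by omega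
    have e2 : R * (3 * N) ≤ R * ((N + (κ + 1) * k) + 2 * (N + κ * k)) := Nat.mul_le_mul_left _ e1
    have e3 : R * (3 * N) = 3 * (R * N) := by ring
    omega
  obtain ⟨W0, hW0⟩ : ∃ W0, W0 = 3 * a * R ^ 5 := ⟨_, rfl⟩
  have hR57 : R ^ 5 ≤ R ^ 7 := Nat.pow_le_pow_right hR (by norm_num)
  have haR57 : a * R ^ 5 ≤ a * R ^ 7 := Nat.mul_le_mul_left _ hR57
  obtain ⟨M0, hM0⟩ : ∃ M0, M0 = 12 * a * R ^ 7 - W0 := ⟨_, rfl⟩
  have hMW : M0 + W0 = 12 * a * R ^ 7 := by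
    have e1 : 3 * a * R ^ 5 = 3 * (a * R ^ 5) := by ring
    have e2 : 12 * a * R ^ 7 = 12 * (a * R ^ 7) := by ring
    omega
  have hgood : Good P M0 W0 := by
    refine ⟨?_, hR, ?_, ?_, ?_, ?_, ?_⟩
    · show M0 + W0 = κ + 1
      rw [hMW, hκ1]
    · rw [hW0]
      have : 1 * 1 ≤ a * R ^ 5 := Nat.mul_le_mul ha1 (Nat.one_le_pow _ _ hR)
      have e1 : 3 * a * R ^ 5 = 3 * (a * R ^ 5) := by ring
      omega
    · -- c1
      rw [hmm]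
      show 3 * R * m ^ 2 ≤ k * N ^ 2
      have e1 : m ^ 2 ≤ (4 * b * (2 ^ 34 * R ^ 34)) ^ 2 := Nat.pow_le_pow_left hmup 2
      calc 3 * R * m ^ 2 ≤ 3 * R * (4 * b * (2 ^ 34 * R ^ 34)) ^ 2 := Nat.mul_le_mul_left _ e1
        _ = (48 * 2 ^ 68) * (b ^ 2 * R ^ 69) := by ring
        _ ≤ a * (b ^ 2 * R ^ 69) := Nat.mul_le_mul_right _ ha
        _ = _ := by rw [hk, hN]; ring
    · -- c2
      rw [hmm]
      show 12 * R * (R * (3 * ((κ + 1) * k) + 3)) ^ 3 ≤ m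
      refine le_trans ?_ hmlow
      have e1 : R * (3 * ((κ + 1) * k) + 3) ≤ 39 * a ^ 2 * R ^ 11 := by
        rw [hkk]
        have e2 : 1 * 1 ≤ a ^ 2 * R ^ 10 :=
          Nat.mul_le_mul (Nat.one_le_pow _ _ ha1) (Nat.one_le_pow _ _ hR)
        have e4 : 36 * a ^ 2 * R ^ 10 + 3 ≤ 39 * (a ^ 2 * R ^ 10) := by
          have e5 : 36 * a ^ 2 * R ^ 10 = 36 * (a ^ 2 * R ^ 10) := by ring
          omega
        calc R * (36 * a ^ 2 * R ^ 10 + 3) ≤ R * (39 * (a ^ 2 * R ^ 10)) :=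
              Nat.mul_le_mul_left _ e4
          _ = _ := by ring
      calc 12 * R * (R * (3 * ((κ + 1) * k) + 3)) ^ 3 ≤ 12 * R * (39 * a ^ 2 * R ^ 11) ^ 3 :=
            Nat.mul_le_mul_left _ (Nat.pow_le_pow_left e1 3)
        _ = 3 * (R * ((4 * 39 ^ 3 * a ^ 6) * R ^ 33)) := by ring
        _ = 3 * (R * N) := by rw [hN, ← hb]
    · -- c3
      show 3 * R ^ 2 * (W0 + k) ≤ κ + 1
      rw [hκ1, hW0, hk]
      calc 3 * R ^ 2 * (3 * a * R ^ 5 + a * R ^ 3) = 9 * (a * R ^ 7) + 3 * (a * R ^ 5) := by ring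
        _ ≤ 9 * (a * R ^ 7) + 3 * (a * R ^ 7) := by omega
        _ = _ := by ring
    · -- c4
      show 3 * R ^ 2 * k ≤ W0
      rw [hW0, hk]
      exact le_of_eq (by ring)
  refine ⟨mdl (tr_init P), ?_, ?_⟩
  · rw [mdl_m]; exact hmm
  · refine le_trans (ENNReal.ofReal_le_ofReal ?_) (expT_bound hgood)
    rw [hmm]
    show (m:ℝ) ^ 2 * R / 4 ≤ (m:ℝ) ^ 2 * R * M0 / (3 * ((κ:ℝ) + 1))
    have hκr : ((κ:ℝ) + 1) = 12 * a * R ^ 7 := by exact_mod_cast hκ1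
    have hM : 9 * (a * R ^ 7) ≤ M0 := by
      have e1 : 3 * a * R ^ 5 = 3 * (a * R ^ 5) := by ring
      have e2 : 12 * a * R ^ 7 = 12 * (a * R ^ 7) := by ring
      omega
    have hMr : 9 * ((a:ℝ) * R ^ 7) ≤ M0 := by exact_mod_cast hM
    rw [hκr]
    have hpos : (0:ℝ) < a * R ^ 7 := by exact_mod_cast haR7
    have hpos2 : (0:ℝ) < 3 * (12 * a * R ^ 7) := by
      have : 3 * (12 * (a:ℝ) * R ^ 7) = 36 * (a * R ^ 7) := by ring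
      rw [this]; linarith
    rw [div_le_div_iff₀ (by norm_num) hpos2]
    have hm0 : (0:ℝ) ≤ (m:ℝ) ^ 2 * R := by positivity
    calc (m:ℝ) ^ 2 * R * (3 * (12 * a * R ^ 7)) = (m:ℝ) ^ 2 * R * (4 * (9 * (a * R ^ 7))) := by ring
      _ ≤ (m:ℝ) ^ 2 * R * (4 * M0) := by
          apply mul_le_mul_of_nonneg_left _ hm0
          linarith
      _ = _ := by ring

/-- polynomially many more steps than `m ^ 2` are needed -/
theorem exists_inst : ∃ c : ℝ, 0 < c ∧ ∃ m₀ : ℕ, ∀ m : ℕ, m₀ ≤ m →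
    ∃ I : Inst, I.m = m ∧ ENNReal.ofReal (c * (m:ℝ) ^ (2 + 1/34 : ℝ)) ≤ I.expT := by
  obtain ⟨a, ha⟩ : ∃ a : ℕ, 48 * 2 ^ 68 ≤ a := ⟨_, le_rfl⟩
  obtain ⟨b, hb⟩ : ∃ b : ℕ, b = 4 * 39 ^ 3 * a ^ 6 := ⟨_, rfl⟩
  have ha1 : 1 ≤ a := le_trans (by norm_num) ha
  have hb1 : 1 ≤ b := by
    rw [hb]
    have : 1 ≤ a ^ 6 := Nat.one_le_pow _ _ ha1
    omega
  have hbr : (1:ℝ) ≤ b := by exact_mod_cast hb1
  obtain ⟨D, hD⟩ : ∃ D : ℝ, D = 4 * b * 2 ^ 34 := ⟨_, rfl⟩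
  have hDpos : 0 < D := by rw [hD]; positivity
  refine ⟨(1/4) * (D ^ (1/34 : ℝ))⁻¹, by positivity, 4 * b, ?_⟩
  intro m hm
  have hex : ∃ r : ℕ, m < 4 * b * (r + 1) ^ 34 := by
    refine ⟨m, ?_⟩
    have e1 : m + 1 ≤ (m+1) ^ 34 := Nat.le_self_pow (by norm_num) _
    have e2 : 1 * (m+1) ≤ 4 * b * (m+1) ^ 34 := Nat.mul_le_mul (by omega) e1
    omega
  obtain ⟨R, hRdef⟩ : ∃ R, R = Nat.find hex := ⟨_, rfl⟩
  have h2 : m < 4 * b * (R + 1) ^ 34 := by rw [hRdef]; exact Nat.find_spec hex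
  have hR : 1 ≤ R := by
    by_contra hc
    have h0 : R = 0 := by omega
    rw [h0] at h2
    simp only [zero_add, one_pow, mul_one] at h2
    omega
  have h1 : 4 * b * R ^ 34 ≤ m := by
    have := Nat.find_min hex (m := R - 1) (by rw [← hRdef]; omega)
    rw [not_lt, Nat.sub_add_cancel hR] at this
    exact this
  have hmup := up_bound hR h2
  clear h2 hRdef
  obtain ⟨I, hI1, hI2⟩ := exists_inst_aux a b ha hb R m hR h1 hmup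
  refine ⟨I, hI1, le_trans (ENNReal.ofReal_le_ofReal ?_) hI2⟩
  have hm1 : 1 ≤ m := by omega
  have hmr : (0:ℝ) < m := by exact_mod_cast hm1
  have hmD : (m:ℝ) ≤ D * (R:ℝ) ^ 34 := by
    have e3 : (m:ℝ) ≤ 4 * b * (2 ^ 34 * R ^ 34) := by exact_mod_cast hmup
    rw [hD]
    linarith
  have hroot : (m:ℝ) ^ (1/34 : ℝ) ≤ D ^ (1/34 : ℝ) * R := by
    have e1 : (m:ℝ) ^ (1/34 : ℝ) ≤ (D * (R:ℝ) ^ 34) ^ (1/34 : ℝ) :=
      Real.rpow_le_rpow hmr.le hmD (by norm_num)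
    rw [Real.mul_rpow hDpos.le (by positivity)] at e1
    have e2 : ((R:ℝ) ^ 34) ^ (1/34 : ℝ) = R := by
      rw [← Real.rpow_natCast, ← Real.rpow_mul (Nat.cast_nonneg _)]
      norm_num
    rw [e2] at e1
    exact e1
  have e3 : (m:ℝ) ^ (2 + 1/34 : ℝ) = (m:ℝ) ^ 2 * (m:ℝ) ^ (1/34 : ℝ) := by
    rw [Real.rpow_add hmr, Real.rpow_two]
  rw [e3]
  have hDr : 0 < D ^ (1/34 : ℝ) := by positivity
  calc (1/4) * (D ^ (1/34 : ℝ))⁻¹ * ((m:ℝ) ^ 2 * (m:ℝ) ^ (1/34 : ℝ))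
      ≤ (1/4) * (D ^ (1/34 : ℝ))⁻¹ * ((m:ℝ) ^ 2 * (D ^ (1/34 : ℝ) * R)) := by
        gcongr
    _ = (m:ℝ) ^ 2 * R / 4 := by
        field_simp

end Pool.Agent.helper1.MST
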